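import Pool.Agent.Helper30.OP.VAL
import Pool.Agent.Helper38.OP.DOM

/-!
# MP_ec87e6_co: module NEWH (the new profile)
-/

set_option autoImplicit false

open SimpleGraph
open scoped Classical

namespace Pool.Agent.Helper81.OP

theorem newh_foldr {V : Type} {G : SimpleGraph V} {B Y : Finset V} (l : List ℕ)
    (h : ∀ v ∈ l, D G B Y v) : D G B Y (l.foldr max 0) := by
  induction l with
  | nil => exact dom_D_zero G B Y
  | cons a l ih =>
    rw [List.foldr_cons]
    rcases le_total a (l.foldr max 0) with h1 | h1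
    · rw [max_eq_right h1]
      exact ih (fun v hv => h v (List.mem_cons_of_mem _ hv))
    · rw [max_eq_left h1]
      exact h a List.mem_cons_self

theorem newh_lt {Z m q : ℕ} (h : Z &&& m = Z) (hm : m < 2 ^ q) : Z < 2 ^ q := by
  rw [← h]
  exact lt_of_le_of_lt Nat.and_le_right hm

theorem newh_diff {Z m : ℕ} (h : Z &&& m = Z) (hne : Z ≠ m) :
    ∃ i, m.testBit i = true ∧ Z.testBit i = false := by
  by_contra hc
  push Not at hc
  apply hne
  apply Nat.eq_of_testBit_eq
  intro i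
  by_cases hm : m.testBit i = true
  · rw [hm]
    have := hc i hm
    simpa using this
  · have hm' : m.testBit i = false := by simpa using hm
    rw [← h, Nat.testBit_and, hm']
    simp

/-- the rest of a vertex set which is closed up to `X` -/
theorem newh_rest {V : Type} {G : SimpleGraph V} {X B : Finset V}
    {𝒜 : Finset (Finset V)} (h : Fam G X 𝒜)
    (hB : ∀ x ∈ B, ∀ y, G.Adj x y → y ∈ B ∨ y ∈ X)
    (hne : ∃ x ∈ B, x ∉ X ∧ ∀ A ∈ 𝒜, x ∉ A) :
    Fam G X (insert (B.filter fun x => x ∉ X ∧ ∀ A ∈ 𝒜, x ∉ A) 𝒜) ∧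
      (insert (B.filter fun x => x ∉ X ∧ ∀ A ∈ 𝒜, x ∉ A) 𝒜).card = 𝒜.card + 1 := by
  apply val_add h
  · obtain ⟨x, h1, h2⟩ := hne
    exact ⟨x, Finset.mem_filter.2 ⟨h1, h2⟩⟩
  · rw [Finset.disjoint_left]
    intro x hx hx'
    exact (Finset.mem_filter.1 hx).2.1 hx'
  · intro A hA
    rw [Finset.disjoint_left]
    intro x hx hx'
    exact (Finset.mem_filter.1 hx).2.2 A hA hx'
  · intro x hx y hxy
    rw [Finset.mem_filter] at hx
    by_cases hy : y ∈ X
    · exact Or.inr hy
    · left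
      rw [Finset.mem_filter]
      refine ⟨(hB x hx.1 y hxy).resolve_right hy, hy, ?_⟩
      intro A hA hyA
      rcases h.cl A hA y hyA x hxy.symm with h1 | h1
      · exact hx.2.2 A hA h1
      · exact hx.2.1 h1

theorem st_NEWH (h1 : ST_PROF) : ST_NEWH := by
  intro V G f q R bs Cs hq hc hR hcl Y hY
  set m := (2 ^ q - 1) ^^^ R with hm
  have hmlt : m < 2 ^ q := by
    refine Nat.xor_lt_two_pow ?_ hR
    have := Nat.two_pow_pos q
    omega
  have hYlt : Y < 2 ^ q := newh_lt hY hR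
  rw [newh]
  apply newh_foldr
  intro v hv
  obtain ⟨Z, hZ, rfl⟩ := List.mem_map.1 hv
  rw [subm, List.mem_filter, decide_eq_true_eq] at hZ
  have hZm : Z &&& m = Z := hZ.2
  have hZlt : Z < 2 ^ q := newh_lt hZm hmlt
  have hWlt : Y ||| Z < 2 ^ q := Nat.or_lt_two_pow hYlt hZlt
  obtain ⟨X0, 𝒜, a1, a2, a3, a4, -⟩ := val_setup h1 hq hc hWlt
  have hXeq : (X0 ∪ fm f Z) ∪ fm f Y = X0 ∪ fm f (Y ||| Z) := by
    rw [dom_fm_or, Finset.union_assoc, Finset.union_comm (fm f Z)]
  have hXc : (X0 ∪ fm f Z).card ≤ X0.card + pc Z := by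
    rw [← val_card hc.inj hZlt]
    exact Finset.card_union_le _ _
  have hXB : X0 ∪ fm f Z ⊆ fm f m ∪ un Cs := by
    intro x hx
    rcases Finset.mem_union.1 hx with hx | hx
    · exact Finset.mem_union_right _ (a1 hx)
    · obtain ⟨i, h2, h3, h4⟩ := val_mem_fm.1 hx
      exact Finset.mem_union_left _ (val_mem_fm.2 ⟨i, h2, val_sub hZm h3, h4⟩)
  by_cases hex : Y = R ∧ Z ≠ m
  · rw [if_pos hex]
    obtain ⟨i, hi1, hi2⟩ := newh_diff hZm hex.2
    have hiq : i < q := val_bit_lt hmlt hi1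
    have hiB : f i ∈ fm f m ∪ un Cs :=
      Finset.mem_union_left _ (val_mem_fm.2 ⟨i, by omega, hi1, rfl⟩)
    have hRi : R.testBit i = false := by
      rw [hm, Nat.testBit_xor, Nat.testBit_two_pow_sub_one] at hi1
      simpa [hiq] using hi1
    have hcl' : ∀ x ∈ fm f m ∪ un Cs, ∀ y, G.Adj x y →
        y ∈ fm f m ∪ un Cs ∨ y ∈ X0 ∪ fm f (Y ||| Z) := by
      intro x hx y hxy
      rcases hcl x hx y hxy with h | h
      · exact Or.inl h
      · right
        apply Finset.mem_union_right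
        rw [dom_fm_or, hex.1]
        exact Finset.mem_union_left _ h
    obtain ⟨c1, c2⟩ := newh_rest a2 hcl' ⟨f i, hiB, by
      intro h
      rcases Finset.mem_union.1 h with h | h
      · exact val_off hq hc hiq (a1 h)
      · refine val_nin hc hiq hWlt ?_ h
        rw [Nat.testBit_or, hi2, hex.1, hRi]
        rfl, fun A hA h => val_off hq hc hiq (a3 A hA h)⟩
    by_cases hle : 2 * pc Z ≤ hsum bs (Y ||| Z) + 3
    · refine ⟨X0 ∪ fm f Z, _, hXB, by rw [hXeq]; exact c1, ?_, ?_⟩
      · intro A hA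
        rcases Finset.mem_insert.1 hA with rfl | hA
        · exact Finset.filter_subset _ _
        · exact (a3 A hA).trans Finset.subset_union_right
      · rw [c2]
        omega
    · have : hsum bs (Y ||| Z) + 3 - 2 * pc Z = 0 := by omega
      rw [this]
      exact dom_D_zero _ _ _
  · rw [if_neg hex]
    by_cases hle : 2 * pc Z ≤ hsum bs (Y ||| Z) + 0
    · refine ⟨X0 ∪ fm f Z, 𝒜, hXB, by rw [hXeq]; exact a2, ?_, ?_⟩
      · intro A hA
        exact (a3 A hA).trans Finset.subset_union_right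
      · omega
    · have : hsum bs (Y ||| Z) + 0 - 2 * pc Z = 0 := by omega
      rw [this]
      exact dom_D_zero _ _ _

end Pool.Agent.Helper81.OP
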