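import Pool.Agent.Helper30.OP.VAL

/-!
# MP_ec87e6_co: module TGH (toughness in terms of families)
-/

set_option autoImplicit false

open SimpleGraph
open scoped Classical ENNReal

namespace Pool.Agent.Helper81.OP

theorem tgh_walk {V : Type} {G : SimpleGraph V} {X A : Finset V}
    (hcl : ∀ x ∈ A, ∀ y, G.Adj x y → y ∈ A ∨ y ∈ X) {x y : {v | v ∉ X}}
    (p : (G.induce {v | v ∉ X}).Walk x y) : x.1 ∈ A → y.1 ∈ A := by
  induction p with
  | nil => exact id
  | @cons a b c hab p ih =>
    intro ha
    apply ih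
    rcases hcl a.1 ha b.1 (by simpa using hab) with h | h
    · exact h
    · exact absurd h b.2

theorem tgh_comps {V : Type} [Fintype V] {G : SimpleGraph V} {X : Finset V}
    {𝒜 : Finset (Finset V)} (h : Fam G X 𝒜) : 𝒜.card ≤ comps G X := by
  have hne : ∀ A : 𝒜, ∃ v : {v | v ∉ X}, v.1 ∈ A.1 := by
    intro A
    obtain ⟨v, hv⟩ := h.ne A.1 A.2
    exact ⟨⟨v, Finset.disjoint_left.1 (h.off A.1 A.2) hv⟩, hv⟩
  choose F hF using hne
  have hinj : Function.Injective
      (fun A : 𝒜 => (G.induce {v | v ∉ X}).connectedComponentMk (F A)) := by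
    intro A B hAB
    have hr := ConnectedComponent.exact hAB
    obtain ⟨p⟩ := hr
    have h1 := tgh_walk (h.cl A.1 A.2) p (hF A)
    by_contra hne
    exact Finset.disjoint_left.1 (h.dj A.1 A.2 B.1 B.2 (fun h => hne (Subtype.ext h))) h1 (hF B)
  have := Nat.card_le_card_of_injective _ hinj
  rw [Nat.card_eq_fintype_card, Fintype.card_coe] at this
  exact this

theorem tgh_arith (a b : ℕ) (hb : b ≠ 0) (h : (3 / 2 : ℝ≥0∞) ≤ (a : ℝ≥0∞) / (b : ℝ≥0∞)) :
    3 * b ≤ 2 * a := by
  rw [ENNReal.le_div_iff_mul_le (Or.inl (by exact_mod_cast hb)) (Or.inl (by simp))] at h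
  have h2 : (2 : ℝ≥0∞) * (3 / 2 * b) ≤ 2 * a := by gcongr
  rw [← mul_assoc, ENNReal.mul_div_cancel (by norm_num) (by norm_num)] at h2
  exact_mod_cast h2

theorem tgh_ne {V : Type} [Fintype V] {G : SimpleGraph V} (ht : 3 / 2 ≤ toughness G)
    {X : Finset V} {𝒜 : Finset (Finset V)} (h : Fam G X 𝒜) (h2 : 2 ≤ 𝒜.card)
    (hX : X.Nonempty) : 3 * 𝒜.card ≤ 2 * X.card := by
  have h1 := tgh_comps h
  have h3 : toughness G ≤ (X.card : ℝ≥0∞) / (comps G X : ℝ≥0∞) :=
    iInf₂_le X ⟨hX, by omega⟩
  have := tgh_arith X.card (comps G X) (by omega) (ht.trans h3)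
  omega

theorem st_TGH : ST_TGH := by
  intro V _ G ht hn X 𝒜 h h2
  rcases X.eq_empty_or_nonempty with rfl | hX
  · exfalso
    obtain ⟨A, hA, B, hB, hAB⟩ := Finset.one_lt_card.1 (show 1 < 𝒜.card by omega)
    obtain ⟨v, hvA, hvB⟩ : ∃ v : V, A ≠ {v} ∧ B ≠ {v} := by
      by_contra hc
      push Not at hc
      have h1 : (Finset.univ : Finset V) ⊆
          (Finset.univ.filter fun v => A = {v}) ∪ (Finset.univ.filter fun v => B = {v}) := by
        intro v _
        rw [Finset.mem_union, Finset.mem_filter, Finset.mem_filter]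
        by_cases hv : A = {v}
        · exact Or.inl ⟨Finset.mem_univ _, hv⟩
        · exact Or.inr ⟨Finset.mem_univ _, hc v hv⟩
      have h2 : ∀ C : Finset V, (Finset.univ.filter fun v => C = {v}).card ≤ 1 := by
        intro C
        rw [Finset.card_le_one]
        intro a ha b hb
        rw [Finset.mem_filter] at ha hb
        exact Finset.singleton_injective (ha.2.symm.trans hb.2)
      have h3 := Finset.card_le_card h1
      have h4 := h2 A
      have h5 := h2 B
      have h6 := Finset.card_union_le (Finset.univ.filter fun v : V => A = {v})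
        (Finset.univ.filter fun v : V => B = {v})
      rw [Finset.card_univ] at h3
      omega
    have hne : ∀ C ∈ 𝒜, C ≠ {v} → (C.erase v).Nonempty := by
      intro C hC hCv
      by_contra hc
      rw [Finset.not_nonempty_iff_eq_empty, Finset.erase_eq_empty_iff] at hc
      rcases hc with hc | hc
      · exact (h.ne C hC).ne_empty hc
      · exact hCv hc
    have hcl : ∀ C ∈ 𝒜, ∀ x ∈ C.erase v, ∀ y, G.Adj x y → y ∈ C.erase v ∨ y ∈ ({v} : Finset V) := by
      intro C hC x hx y hxy
      rcases h.cl C hC x (Finset.mem_of_mem_erase hx) y hxy with h' | h'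
      · by_cases hyv : y = v
        · right; simp [hyv]
        · left; exact Finset.mem_erase.2 ⟨hyv, h'⟩
      · exact absurd h' (by simp)
    have hdv : ∀ C : Finset V, Disjoint (C.erase v) ({v} : Finset V) := by
      intro C
      rw [Finset.disjoint_singleton_right]
      exact Finset.notMem_erase _ _
    have h0 : Fam G {v} ∅ := ⟨by simp, by simp, by simp, by simp⟩
    obtain ⟨h1, h1c⟩ := val_add h0 (A.erase v) (hne A hA hvA) (hdv A) (by simp) (hcl A hA)
    obtain ⟨h3, h3c⟩ := val_add h1 (B.erase v) (hne B hB hvB) (hdv B) (by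
        intro C hC
        have : C = A.erase v := by simpa using hC
        subst this
        exact ((h.dj A hA B hB hAB).symm.mono (Finset.erase_subset _ _)
          (Finset.erase_subset _ _))) (hcl B hB)
    have := tgh_ne ht h3 (by rw [h3c, h1c]; simp) ⟨v, by simp⟩
    rw [h3c, h1c] at this
    simp at this
  · exact tgh_ne ht h h2 hX

end Pool.Agent.Helper81.OP
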