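import Pool.Agent.Helper81.OP.Fin
import Pool.Agent.Helper81.OP.NEWH
import Pool.Agent.Helper81.OP.TGH
import Pool.Agent.Helper7.OP.PLC
import Pool.Agent.Helper55.OP.CHOR
import Pool.Agent.Helper58.OP.DEC
import Pool.Agent.Helper74.OP.PROF

/-!
# MP_ec87e6_co: chordal graphs of toughness at least 3/2 without the two forbidden subgraphs are
Hamiltonian
-/

set_option autoImplicit false

open SimpleGraph
open scoped ENNReal

namespace Pool.Agent.Helper81.OP

theorem all_mods : Mods := ⟨st_CHOR, st_DEC, st_PLC, st_VAL st_PROF, st_DOM st_SRCH (st_NEWH st_PROF),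
  st_SRCH⟩

theorem ham_OPC (V : Type) [Fintype V] [DecidableEq V]
    (G : SimpleGraph V) (h1 : OPC.Chordal G) (h2 : 3 / 2 ≤ OPC.toughness G)
    (h3 : 3 ≤ Fintype.card V) (h4 : OPC.NoK G) (h5 : OPC.NoW G) : G.IsHamiltonian :=
  ham_OPC_of all_mods st_TGH V G h1 h2 h3 h4 h5

theorem card_OPC (V : Type) [Fintype V] (G : SimpleGraph V) (h : OPC.toughness G = 3 / 2) :
    3 ≤ Fintype.card V := by
  refine card_of_toughness G ?_
  have h' : toughness G = 3 / 2 := h
  rw [h']
  exact ENNReal.div_ne_top (by norm_num) (by norm_num)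

end Pool.Agent.Helper81.OP
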