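import Pool.Agent.Helper81.OP.Defs

/-!
# MP_ec87e6_co: certificates of non-1-planarity

A node is a list `P` of pairs of edges of a graph `H` which are assumed to cross, together with a
`K_{3,3}` minor of the partial planarization.
-/

set_option autoImplicit false

open SimpleGraph

namespace Pool.Agent.Helper81.OP

/-- equality of unordered pairs -/
def eqE (a b : ℕ × ℕ) : Bool := (a.1 == b.1 && a.2 == b.2) || (a.1 == b.2 && a.2 == b.1)

/-- equality of unordered pairs of edges -/
def eqP (p q : (ℕ × ℕ) × (ℕ × ℕ)) : Bool :=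
  (eqE p.1 q.1 && eqE p.2 q.2) || (eqE p.1 q.2 && eqE p.2 q.1)

/-- `x` is an end of one of the two edges -/
def memP (x : ℕ) (p : (ℕ × ℕ) × (ℕ × ℕ)) : Bool :=
  x == p.1.1 || x == p.1.2 || x == p.2.1 || x == p.2.2

/-- a node of the certificate -/
structure Nd where
  P : List ((ℕ × ℕ) × (ℕ × ℕ))
  beta : List ℕ
  roots : List ℕ
  steps : List (ℕ × ℕ)
  conns : List (ℕ × ℕ)
  kids : List (ℕ × List ℕ)

/-- branch set of a vertex -/
def Nd.bt (N : Nd) (y : ℕ) : ℕ := N.beta.getD y 9

/-- adjacency in the partial planarization -/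
def hadj (n : ℕ) (E : List (ℕ × ℕ)) (P : List ((ℕ × ℕ) × (ℕ × ℕ))) (x y : ℕ) : Bool :=
  if x < n then
    if y < n then E.any (fun a => eqE a (x, y)) &&
      P.all fun p => !(eqE p.1 (x, y)) && !(eqE p.2 (x, y))
    else memP x (P.getD (y - n) ((0, 0), (0, 0)))
  else if y < n then memP y (P.getD (x - n) ((0, 0), (0, 0)))
  else false

/-- edges of `H` which are used -/
def used (n : ℕ) (N : Nd) : List (ℕ × ℕ) :=
  (N.steps ++ N.conns).filter fun a => decide (a.1 < n) && decide (a.2 < n)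

/-- the steps span the branch sets -/
def run (n : ℕ) (E : List (ℕ × ℕ)) (N : Nd) : List (ℕ × ℕ) → List ℕ → Bool
  | [], seen => (List.range (n + N.P.length)).all fun y =>
      decide (6 ≤ N.bt y) || seen.contains y
  | s :: l, seen => seen.contains s.1 && hadj n E N.P s.1 s.2 &&
      decide (s.2 < n + N.P.length) && decide (N.bt s.1 = N.bt s.2) && run n E N l (s.2 :: seen)

/-- `ρ` is an automorphism -/
def perm (n : ℕ) (E : List (ℕ × ℕ)) (ρ : List ℕ) : Bool :=
  decide (ρ.length = n) && ρ.all (fun x => decide (x < n)) && decide ρ.Nodup &&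
  E.all fun a => E.any (fun b => eqE b (ρ.getD a.1 0, ρ.getD a.2 0))

/-- image of a pair of edges -/
def mp (ρ : List ℕ) (p : (ℕ × ℕ) × (ℕ × ℕ)) : (ℕ × ℕ) × (ℕ × ℕ) :=
  ((ρ.getD p.1.1 0, ρ.getD p.1.2 0), (ρ.getD p.2.1 0, ρ.getD p.2.2 0))

/-- the used edges `a`, `b` have a common owner -/
def share (N : Nd) (a b : ℕ × ℕ) : Bool :=
  decide (N.bt a.1 = N.bt b.1) || decide (N.bt a.1 = N.bt b.2) || decide (N.bt a.2 = N.bt b.1) ||
    decide (N.bt a.2 = N.bt b.2)

/-- the child covers the pair `(a, b)` -/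
def kid (n : ℕ) (E : List (ℕ × ℕ)) (N : Nd) (rest : List Nd) (a b : ℕ × ℕ) : Bool :=
  N.kids.any fun k => perm n E k.2 && match rest[k.1]? with
    | some M => M.P.all fun p => ((a, b) :: N.P).any fun q => eqP q (mp k.2 p)
    | none => false

/-- check of a node -/
def chkNode (n : ℕ) (E : List (ℕ × ℕ)) (N : Nd) (rest : List Nd) : Bool :=
  (N.P.all fun p => decide (p.1.1 < n) && decide (p.1.2 < n) && decide (p.2.1 < n) &&
    decide (p.2.2 < n)) &&
  ((List.range N.P.length).all fun i => (List.range N.P.length).all fun j => decide (i = j) ||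
    (!(eqE (N.P.getD i ((0, 0), (0, 0))).1 (N.P.getD j ((0, 0), (0, 0))).1) &&
      !(eqE (N.P.getD i ((0, 0), (0, 0))).1 (N.P.getD j ((0, 0), (0, 0))).2))) &&
  ((List.range 6).all fun t => decide (N.roots.getD t 99 < n + N.P.length) &&
    decide (N.bt (N.roots.getD t 99) = t)) &&
  run n E N N.steps ((List.range 6).map fun t => N.roots.getD t 99) &&
  ((List.range 3).all fun s => (List.range 3).all fun t => N.conns.any fun c =>
    hadj n E N.P c.1 c.2 && decide (c.1 < n + N.P.length) && decide (c.2 < n + N.P.length) &&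
    decide (N.bt c.1 = s) && decide (N.bt c.2 = 3 + t)) &&
  ((used n N).all fun a => hadj n E N.P a.1 a.2) &&
  ((used n N).all fun a => (used n N).all fun b => share N a b || kid n E N rest a b)

/-- check of a list of nodes: the children come later -/
def chkAll (n : ℕ) (E : List (ℕ × ℕ)) : List Nd → Bool
  | [] => true
  | N :: rest => chkNode n E N rest && chkAll n E rest

/-- the edge `a` of `H` in `G` -/
def em {V : Type} (φ : ℕ → V) (a : ℕ × ℕ) : Sym2 V := s(φ a.1, φ a.2)

/-- the two edges cross -/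
def Cr {V ι : Type} (e : ι → Bool → Sym2 V) (φ : ℕ → V) (p : (ℕ × ℕ) × (ℕ × ℕ)) : Prop :=
  ∃ i c, e i c = em φ p.1 ∧ e i (!c) = em φ p.2

/-- no drawing of a graph containing `H` has the crossings `P` -/
def Claim (n : ℕ) (E : List (ℕ × ℕ)) (P : List ((ℕ × ℕ) × (ℕ × ℕ))) : Prop :=
  ∀ (V : Type) (G : SimpleGraph V) (ι : Type) (e : ι → Bool → Sym2 V) (φ : ℕ → V),
    Crossings G ι e → (∀ i < n, ∀ j < n, φ i = φ j → i = j) →
    (∀ a ∈ E, G.Adj (φ a.1) (φ a.2)) → (∀ p ∈ P, Cr e φ p) → ¬ Planar (planarization G ι e)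

end Pool.Agent.Helper81.OP
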