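import Pool.Agent.Helper81.OP.Cert

/-!
# MP_ec87e6_co: certificates for the non-1-planarity of two graphs
-/

set_option autoImplicit false

namespace Pool.Agent.Helper81.OP

/-- edges -/
def eA : List (ℕ × ℕ) := [(0, 1), (0, 2), (0, 3), (0, 4), (0, 5), (0, 6), (1, 2), (1, 3), (1, 4), (1, 5), (1, 6), (2, 3), (2, 4), (2, 5), (2, 6), (3, 4), (3, 5), (3, 6)]

def nA_0 : Nd := ⟨[], [0, 1, 2, 9, 3, 4, 5], [0, 1, 2, 4, 5, 6],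
  [],
  [(0, 4), (0, 5), (0, 6), (1, 4), (1, 5), (1, 6), (2, 4), (2, 5), (2, 6)],
  [(0, [0, 1, 2, 3, 4, 5, 6]), (0, [0, 1, 2, 3, 4, 6, 5]), (0, [0, 2, 1, 3, 4, 5, 6]), (0, [0, 2, 1, 3, 4, 6, 5]), (0, [0, 1, 2, 3, 5, 4, 6]), (0, [0, 1, 2, 3, 5, 6, 4]), (0, [0, 2, 1, 3, 5, 4, 6]), (0, [0, 2, 1, 3, 5, 6, 4]), (0, [0, 1, 2, 3, 6, 4, 5]), (0, [0, 1, 2, 3, 6, 5, 4]), (0, [0, 2, 1, 3, 6, 4, 5]), (0, [0, 2, 1, 3, 6, 5, 4]), (0, [1, 2, 0, 3, 4, 5, 6]), (0, [1, 2, 0, 3, 4, 6, 5]), (0, [1, 2, 0, 3, 5, 4, 6]), (0, [1, 2, 0, 3, 5, 6, 4]), (0, [1, 2, 0, 3, 6, 4, 5]), (0, [1, 2, 0, 3, 6, 5, 4])]⟩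
def nA_1 : Nd := ⟨[((0, 4), (1, 5))], [0, 1, 3, 4, 9, 2, 9, 5], [0, 1, 5, 2, 3, 7],
  [],
  [(0, 2), (0, 3), (0, 7), (1, 2), (1, 3), (1, 7), (5, 2), (5, 3), (5, 7)],
  [(0, [0, 2, 1, 3, 4, 5, 6]), (1, [0, 2, 3, 1, 5, 4, 6]), (0, [0, 3, 1, 2, 4, 5, 6]), (1, [0, 3, 2, 1, 5, 4, 6]), (2, [1, 2, 3, 0, 5, 4, 6]), (2, [1, 3, 2, 0, 5, 4, 6])]⟩
def nA_2 : Nd := ⟨[((0, 1), (2, 3)), ((0, 4), (2, 5))], [0, 1, 2, 9, 9, 5, 3, 4, 5], [0, 1, 2, 6, 7, 5],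
  [(5, 8)],
  [(0, 6), (0, 7), (0, 8), (1, 6), (1, 7), (1, 5), (2, 6), (2, 7), (2, 8)],
  [(2, [0, 1, 2, 3, 6, 5, 4]), (3, [2, 3, 1, 0, 6, 5, 4])]⟩
def nA_3 : Nd := ⟨[((0, 1), (2, 4)), ((0, 5), (3, 4))], [2, 0, 1, 3, 9, 4, 9, 5, 2], [1, 2, 0, 3, 5, 7],
  [(0, 8)],
  [(1, 3), (1, 5), (1, 7), (2, 3), (2, 5), (2, 7), (8, 3), (8, 5), (0, 7)],
  [(3, [1, 0, 2, 3, 4, 5, 6]), (4, [1, 0, 2, 3, 4, 5, 6])]⟩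
def nA_4 : Nd := ⟨[((0, 1), (2, 4)), ((0, 4), (3, 5))], [9, 0, 1, 3, 2, 4, 9, 5, 2], [1, 2, 4, 3, 5, 7],
  [(4, 8)],
  [(1, 3), (1, 5), (1, 7), (2, 3), (2, 5), (2, 7), (8, 3), (8, 5), (4, 7)],
  [(4, [1, 0, 2, 3, 4, 5, 6]), (5, [0, 1, 2, 3, 4, 5, 6])]⟩
def nA_5 : Nd := ⟨[((0, 1), (2, 3)), ((0, 4), (1, 5)), ((0, 6), (2, 5))], [0, 1, 2, 3, 9, 2, 2, 4, 5, 2], [0, 1, 2, 3, 7, 8],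
  [(2, 9), (9, 5), (9, 6)],
  [(0, 3), (0, 7), (0, 8), (1, 3), (1, 7), (1, 8), (6, 3), (2, 7), (5, 8)],
  []⟩
def nA_6 : Nd := ⟨[((0, 1), (2, 3)), ((0, 4), (2, 5)), ((0, 5), (3, 6))], [0, 9, 1, 2, 9, 2, 3, 4, 5, 2], [0, 2, 3, 6, 7, 8],
  [(3, 9), (9, 5)],
  [(0, 6), (0, 7), (0, 8), (2, 6), (2, 7), (2, 8), (9, 6), (3, 7), (5, 8)],
  []⟩
def nA_7 : Nd := ⟨[((0, 1), (2, 4)), ((0, 3), (2, 5)), ((1, 5), (3, 4))], [0, 2, 1, 3, 9, 4, 0, 5, 1, 2], [0, 2, 1, 3, 5, 7],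
  [(0, 6), (2, 8), (1, 9)],
  [(6, 3), (0, 5), (0, 7), (8, 3), (8, 5), (2, 7), (9, 3), (9, 5), (1, 7)],
  []⟩
def nA_8 : Nd := ⟨[((0, 1), (2, 4)), ((0, 5), (2, 3)), ((1, 5), (3, 4))], [0, 1, 2, 5, 9, 9, 3, 4, 5, 5], [0, 1, 2, 6, 7, 3],
  [(3, 9), (3, 8)],
  [(0, 6), (0, 7), (0, 8), (1, 6), (1, 7), (1, 9), (2, 6), (2, 7), (2, 8)],
  []⟩
def nA_9 : Nd := ⟨[((0, 1), (2, 4)), ((0, 3), (2, 5)), ((1, 4), (3, 5))], [0, 3, 1, 2, 2, 9, 3, 4, 5, 2], [0, 2, 3, 1, 7, 8],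
  [(3, 9), (9, 4), (1, 6)],
  [(0, 6), (0, 7), (0, 8), (2, 1), (2, 7), (2, 8), (9, 1), (4, 7), (3, 8)],
  []⟩
def nA_10 : Nd := ⟨[((0, 1), (2, 4)), ((0, 4), (3, 5)), ((1, 5), (2, 3))], [0, 3, 2, 9, 1, 2, 3, 4, 5, 2], [0, 4, 2, 1, 7, 8],
  [(2, 9), (9, 5), (1, 6)],
  [(0, 6), (0, 7), (0, 8), (4, 1), (4, 7), (4, 8), (9, 1), (2, 7), (5, 8)],
  []⟩

/-- all nodes -/
def nAl : List Nd := [nA_0, nA_1, nA_2, nA_3, nA_4, nA_5, nA_6, nA_7, nA_8, nA_9, nA_10]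

/-- edges -/
def eB : List (ℕ × ℕ) := [(0, 1), (0, 2), (0, 3), (0, 4), (0, 5), (0, 6), (0, 7), (1, 2), (1, 3), (1, 4), (1, 5), (1, 6), (1, 7), (2, 3), (2, 4), (2, 5), (2, 6), (3, 4), (3, 5), (3, 7), (4, 6), (4, 7)]

def nB_0 : Nd := ⟨[], [0, 1, 2, 2, 2, 3, 4, 5], [0, 1, 2, 5, 6, 7],
  [(2, 3), (3, 4)],
  [(0, 5), (0, 6), (0, 7), (1, 5), (1, 6), (1, 7), (3, 5), (2, 6), (4, 7)],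
  [(0, [0, 1, 2, 3, 4, 5, 6, 7]), (0, [0, 1, 3, 2, 4, 5, 7, 6]), (1, [0, 1, 2, 3, 4, 5, 6, 7]), (2, [0, 1, 2, 3, 4, 5, 6, 7]), (3, [0, 1, 3, 2, 4, 5, 7, 6]), (4, [0, 1, 3, 2, 4, 5, 7, 6]), (0, [0, 1, 2, 4, 3, 6, 5, 7]), (0, [0, 1, 4, 2, 3, 6, 7, 5]), (3, [0, 1, 2, 4, 3, 6, 5, 7]), (3, [0, 1, 4, 2, 3, 6, 7, 5]), (2, [0, 1, 4, 2, 3, 6, 7, 5]), (4, [0, 1, 2, 4, 3, 6, 5, 7]), (0, [0, 1, 3, 4, 2, 7, 5, 6]), (0, [0, 1, 4, 3, 2, 7, 6, 5]), (3, [0, 1, 3, 4, 2, 7, 5, 6]), (4, [0, 1, 4, 3, 2, 7, 6, 5]), (1, [0, 1, 3, 4, 2, 7, 5, 6]), (2, [0, 1, 3, 4, 2, 7, 5, 6]), (1, [1, 0, 2, 3, 4, 5, 6, 7]), (2, [1, 0, 2, 3, 4, 5, 6, 7]), (3, [1, 0, 3, 2, 4, 5, 7, 6]), (4, [1, 0, 3, 2, 4, 5, 7, 6]), (3, [1, 0, 2, 4, 3, 6, 5, 7]), (3, [1, 0, 4, 2, 3,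 6, 7, 5]), (2, [1, 0, 4, 2, 3, 6, 7, 5]), (4, [1, 0, 2, 4, 3, 6, 5, 7]), (3, [1, 0, 3, 4, 2, 7, 5, 6]), (4, [1, 0, 4, 3, 2, 7, 6, 5]), (1, [1, 0, 3, 4, 2, 7, 5, 6]), (2, [1, 0, 3, 4, 2, 7, 5, 6])]⟩
def nB_1 : Nd := ⟨[((0, 5), (1, 6))], [0, 1, 3, 9, 4, 9, 2, 9, 5], [0, 1, 6, 2, 4, 8],
  [],
  [(0, 2), (0, 4), (0, 8), (1, 2), (1, 4), (1, 8), (6, 2), (6, 4), (6, 8)],
  [(4, [1, 0, 4, 2, 3, 6, 7, 5]), (5, [0, 1, 2, 4, 3, 6, 5, 7]), (6, [1, 0, 2, 4, 3, 6, 5, 7]), (7, [0, 1, 4, 2, 3, 6, 7, 5]), (8, [1, 0, 2, 4, 3, 6, 5, 7]), (9, [1, 0, 4, 2, 3, 6, 7, 5])]⟩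
def nB_2 : Nd := ⟨[((0, 5), (2, 3))], [0, 3, 1, 2, 4, 9, 9, 9, 5], [0, 2, 3, 1, 4, 8],
  [],
  [(0, 1), (0, 4), (0, 8), (2, 1), (2, 4), (2, 8), (3, 1), (3, 4), (3, 8)],
  [(9, [0, 1, 2, 4, 3, 6, 5, 7]), (9, [0, 1, 3, 4, 2, 7, 5, 6]), (10, [0, 1, 4, 2, 3, 6, 7, 5]), (10, [0, 1, 4, 3, 2, 7, 6, 5]), (11, [1, 0, 2, 3, 4, 5, 6, 7]), (11, [1, 0, 3, 2, 4, 5, 7, 6])]⟩
def nB_3 : Nd := ⟨[((0, 5), (2, 6))], [0, 3, 1, 9, 4, 9, 2, 9, 5], [0, 2, 6, 1, 4, 8],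
  [],
  [(0, 1), (0, 4), (0, 8), (2, 1), (2, 4), (2, 8), (6, 1), (6, 4), (6, 8)],
  [(11, [0, 1, 2, 4, 3, 6, 5, 7]), (12, [0, 1, 4, 2, 3, 6, 7, 5]), (13, [0, 1, 4, 2, 3, 6, 7, 5]), (14, [0, 1, 4, 2, 3, 6, 7, 5]), (15, [1, 0, 2, 4, 3, 6, 5, 7]), (16, [1, 0, 2, 4, 3, 6, 5, 7])]⟩
def nB_4 : Nd := ⟨[((0, 5), (2, 4))], [0, 3, 9, 4, 1, 2, 9, 9, 5], [0, 4, 5, 1, 3, 8],
  [],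
  [(0, 1), (0, 3), (0, 8), (4, 1), (4, 3), (4, 8), (5, 1), (5, 3), (5, 8)],
  [(16, [0, 1, 3, 4, 2, 7, 5, 6]), (17, [0, 1, 3, 2, 4, 5, 7, 6]), (18, [0, 1, 3, 4, 2, 7, 5, 6]), (19, [0, 1, 3, 2, 4, 5, 7, 6]), (20, [1, 0, 4, 3, 2, 7, 6, 5]), (21, [0, 1, 2, 3, 4, 5, 6, 7])]⟩
def nB_5 : Nd := ⟨[((0, 5), (4, 6))], [9, 0, 1, 9, 3, 4, 5, 9, 2], [1, 2, 8, 4, 5, 6],
  [],
  [(1, 4), (1, 5), (1, 6), (2, 4), (2, 5), (2, 6), (8, 4), (8, 5), (8, 6)],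
  [(21, [1, 0, 4, 2, 3, 6, 7, 5]), (22, [1, 0, 4, 2, 3, 6, 7, 5]), (23, [1, 0, 2, 3, 4, 5, 6, 7]), (24, [1, 0, 2, 3, 4, 5, 6, 7]), (25, [1, 0, 2, 4, 3, 6, 5, 7]), (26, [1, 0, 2, 4, 3, 6, 5, 7])]⟩
def nB_6 : Nd := ⟨[((0, 2), (1, 3)), ((0, 5), (1, 7))], [0, 1, 9, 2, 3, 9, 9, 5, 4, 5], [0, 1, 3, 4, 8, 7],
  [(7, 9)],
  [(0, 4), (0, 8), (0, 9), (1, 4), (1, 8), (1, 9), (3, 4), (3, 8), (3, 7)],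
  [(26, [0, 1, 2, 3, 4, 5, 6, 7]), (27, [1, 0, 3, 2, 4, 5, 7, 6])]⟩
def nB_7 : Nd := ⟨[((0, 2), (3, 5)), ((0, 6), (1, 5))], [0, 5, 3, 1, 3, 2, 9, 9, 4, 5], [0, 3, 5, 2, 8, 1],
  [(2, 4), (1, 9)],
  [(0, 4), (0, 8), (0, 9), (3, 2), (3, 8), (3, 1), (5, 2), (5, 8), (5, 9)],
  [(27, [0, 1, 4, 3, 2, 7, 6, 5]), (28, [1, 0, 3, 2, 4, 5, 7, 6]), (29, [1, 0, 3, 2, 4, 5, 7, 6])]⟩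
def nB_8 : Nd := ⟨[((0, 2), (1, 3)), ((0, 5), (1, 6))], [0, 1, 9, 2, 9, 5, 9, 3, 4, 5], [0, 1, 3, 7, 8, 5],
  [(5, 9)],
  [(0, 7), (0, 8), (0, 9), (1, 7), (1, 8), (1, 9), (3, 7), (3, 8), (3, 5)],
  [(29, [0, 1, 2, 3, 4, 5, 6, 7]), (30, [0, 1, 2, 3, 4, 5, 6, 7])]⟩
def nB_9 : Nd := ⟨[((0, 2), (3, 5)), ((0, 7), (1, 5))], [0, 5, 3, 1, 3, 2, 9, 9, 4, 5], [0, 3, 5, 2, 8, 1],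
  [(2, 4), (1, 9)],
  [(0, 4), (0, 8), (0, 9), (3, 2), (3, 8), (3, 1), (5, 2), (5, 8), (5, 9)],
  [(23, [0, 1, 4, 3, 2, 7, 6, 5]), (30, [1, 0, 3, 2, 4, 5, 7, 6]), (31, [1, 0, 3, 2, 4, 5, 7, 6])]⟩
def nB_10 : Nd := ⟨[((0, 2), (3, 5)), ((0, 5), (1, 6))], [0, 3, 1, 9, 9, 2, 4, 9, 5, 2], [0, 2, 5, 1, 6, 8],
  [(5, 9)],
  [(0, 1), (0, 6), (0, 8), (2, 1), (2, 6), (2, 8), (9, 1), (9, 6), (5, 8)],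
  [(31, [0, 1, 2, 4, 3, 6, 5, 7]), (32, [1, 0, 2, 4, 3, 6, 5, 7])]⟩
def nB_11 : Nd := ⟨[((0, 2), (3, 5)), ((0, 5), (1, 7))], [0, 3, 9, 1, 9, 2, 9, 4, 5, 2], [0, 3, 5, 1, 7, 8],
  [(5, 9)],
  [(0, 1), (0, 7), (0, 8), (3, 1), (3, 7), (3, 8), (9, 1), (9, 7), (5, 8)],
  [(32, [0, 1, 3, 4, 2, 7, 5, 6]), (33, [1, 0, 3, 4, 2, 7, 5, 6])]⟩
def nB_12 : Nd := ⟨[((0, 1), (2, 3)), ((0, 6), (2, 4))], [0, 1, 2, 9, 9, 3, 5, 9, 4, 5], [0, 1, 2, 5, 8, 6],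
  [(6, 9)],
  [(0, 5), (0, 8), (0, 9), (1, 5), (1, 8), (1, 6), (2, 5), (2, 8), (2, 9)],
  [(33, [0, 1, 2, 3, 4, 5, 6, 7]), (34, [0, 1, 2, 3, 4, 5, 6, 7])]⟩
def nB_13 : Nd := ⟨[((0, 2), (1, 3)), ((0, 7), (3, 4))], [0, 9, 1, 2, 5, 3, 9, 9, 4, 5], [0, 2, 3, 5, 8, 4],
  [(4, 9)],
  [(0, 5), (0, 8), (0, 9), (2, 5), (2, 8), (2, 4), (3, 5), (3, 8), (3, 9)],
  [(34, [0, 1, 2, 3, 4, 5, 6, 7]), (35, [0, 1, 2, 3, 4, 5, 6, 7])]⟩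
def nB_14 : Nd := ⟨[((0, 2), (3, 4)), ((1, 5), (2, 3))], [0, 3, 2, 1, 9, 4, 9, 9, 5, 2], [0, 3, 2, 1, 5, 8],
  [(2, 9)],
  [(0, 1), (0, 5), (0, 8), (3, 1), (3, 5), (3, 8), (9, 1), (9, 5), (2, 8)],
  [(35, [0, 1, 3, 2, 4, 5, 7, 6]), (36, [1, 0, 3, 2, 4, 5, 7, 6])]⟩
def nB_15 : Nd := ⟨[((0, 1), (2, 3)), ((0, 6), (2, 5))], [0, 1, 2, 9, 3, 9, 5, 9, 4, 5], [0, 1, 2, 4, 8, 6],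
  [(6, 9)],
  [(0, 4), (0, 8), (0, 9), (1, 4), (1, 8), (1, 6), (2, 4), (2, 8), (2, 9)],
  [(36, [0, 1, 2, 3, 4, 5, 6, 7]), (31, [1, 0, 2, 3, 4, 5, 6, 7])]⟩
def nB_16 : Nd := ⟨[((0, 1), (2, 5)), ((0, 7), (3, 5))], [0, 3, 4, 1, 3, 2, 9, 9, 4, 5], [0, 3, 5, 1, 2, 9],
  [(1, 4), (2, 8)],
  [(0, 4), (0, 8), (0, 9), (3, 4), (3, 2), (3, 9), (5, 1), (5, 8), (5, 9)],
  [(36, [0, 1, 2, 3, 4, 5, 6, 7]), (37, [1, 0, 2, 3, 4, 5, 6, 7]), (38, [1, 0, 2, 3, 4, 5, 6, 7])]⟩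
def nB_17 : Nd := ⟨[((0, 2), (1, 3)), ((0, 7), (3, 5))], [0, 9, 1, 2, 3, 5, 9, 9, 4, 5], [0, 2, 3, 4, 8, 5],
  [(5, 9)],
  [(0, 4), (0, 8), (0, 9), (2, 4), (2, 8), (2, 5), (3, 4), (3, 8), (3, 9)],
  [(38, [0, 1, 2, 3, 4, 5, 6, 7]), (39, [0, 1, 2, 3, 4, 5, 6, 7])]⟩
def nB_18 : Nd := ⟨[((0, 2), (1, 5)), ((0, 7), (3, 5))], [0, 1, 3, 5, 9, 2, 3, 9, 4, 5], [0, 1, 5, 2, 8, 3],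
  [(2, 6), (3, 9)],
  [(0, 6), (0, 8), (0, 9), (1, 2), (1, 8), (1, 3), (5, 2), (5, 8), (5, 9)],
  [(39, [0, 1, 2, 3, 4, 5, 6, 7]), (40, [0, 1, 2, 3, 4, 5, 6, 7]), (41, [0, 1, 2, 3, 4, 5, 6, 7])]⟩
def nB_19 : Nd := ⟨[((0, 2), (3, 5)), ((1, 6), (2, 5))], [0, 3, 1, 9, 9, 2, 4, 9, 5, 2], [0, 2, 5, 1, 6, 8],
  [(5, 9)],
  [(0, 1), (0, 6), (0, 8), (2, 1), (2, 6), (2, 8), (9, 1), (9, 6), (5, 8)],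
  [(41, [0, 1, 2, 4, 3, 6, 5, 7]), (42, [1, 0, 2, 4, 3, 6, 5, 7])]⟩
def nB_20 : Nd := ⟨[((0, 5), (2, 3)), ((1, 6), (2, 5))], [0, 3, 1, 9, 9, 2, 5, 9, 4, 5], [0, 2, 5, 1, 8, 6],
  [(6, 9)],
  [(0, 1), (0, 8), (0, 6), (2, 1), (2, 8), (2, 9), (5, 1), (5, 8), (5, 9)],
  [(42, [1, 0, 2, 4, 3, 6, 5, 7]), (43, [0, 1, 2, 4, 3, 6, 5, 7])]⟩
def nB_21 : Nd := ⟨[((0, 1), (2, 3)), ((0, 6), (3, 4))], [0, 1, 9, 2, 9, 9, 5, 3, 4, 5], [0, 1, 3, 7, 8, 6],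
  [(6, 9)],
  [(0, 7), (0, 8), (0, 9), (1, 7), (1, 8), (1, 6), (3, 7), (3, 8), (3, 9)],
  [(43, [0, 1, 3, 2, 4, 5, 7, 6]), (44, [0, 1, 2, 3, 4, 5, 6, 7])]⟩
def nB_22 : Nd := ⟨[((0, 1), (2, 5)), ((0, 5), (3, 4))], [0, 9, 1, 3, 5, 2, 9, 9, 4, 5], [0, 2, 5, 3, 8, 4],
  [(4, 9)],
  [(0, 3), (0, 8), (0, 9), (2, 3), (2, 8), (2, 4), (5, 3), (5, 8), (5, 9)],
  [(44, [0, 1, 2, 3, 4, 5, 6, 7]), (45, [0, 1, 2, 3, 4, 5, 6, 7])]⟩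
def nB_23 : Nd := ⟨[((0, 2), (1, 3)), ((0, 6), (3, 4))], [0, 1, 9, 2, 9, 9, 5, 3, 4, 5], [0, 1, 3, 7, 8, 6],
  [(6, 9)],
  [(0, 7), (0, 8), (0, 9), (1, 7), (1, 8), (1, 6), (3, 7), (3, 8), (3, 9)],
  [(45, [0, 1, 2, 3, 4, 5, 6, 7]), (46, [0, 1, 2, 3, 4, 5, 6, 7])]⟩
def nB_24 : Nd := ⟨[((0, 2), (1, 5)), ((0, 5), (3, 4))], [0, 9, 1, 3, 4, 2, 9, 9, 5, 2], [0, 2, 5, 3, 4, 8],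
  [(5, 9)],
  [(0, 3), (0, 4), (0, 8), (2, 3), (2, 4), (2, 8), (9, 3), (9, 4), (5, 8)],
  [(46, [0, 1, 2, 3, 4, 5, 6, 7]), (47, [0, 1, 2, 3, 4, 5, 6, 7])]⟩
def nB_25 : Nd := ⟨[((0, 2), (3, 7)), ((1, 7), (2, 4))], [0, 3, 9, 1, 4, 9, 9, 2, 5, 2], [0, 3, 7, 1, 4, 8],
  [(7, 9)],
  [(0, 1), (0, 4), (0, 8), (3, 1), (3, 4), (3, 8), (9, 1), (9, 4), (7, 8)],
  [(47, [0, 1, 3, 4, 2, 7, 5, 6]), (48, [0, 1, 4, 3, 2, 7, 6, 5])]⟩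
def nB_26 : Nd := ⟨[((0, 5), (2, 4)), ((1, 5), (3, 4))], [0, 3, 1, 4, 2, 9, 9, 9, 5, 2], [0, 2, 4, 1, 3, 8],
  [(4, 9)],
  [(0, 1), (0, 3), (0, 8), (2, 1), (2, 3), (2, 8), (9, 1), (9, 3), (4, 8)],
  [(48, [0, 1, 2, 3, 4, 5, 6, 7]), (49, [0, 1, 3, 2, 4, 5, 7, 6])]⟩
def nB_27 : Nd := ⟨[((0, 2), (3, 7)), ((1, 7), (2, 5))], [0, 3, 9, 1, 9, 4, 9, 2, 5, 2], [0, 3, 7, 1, 5, 8],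
  [(7, 9)],
  [(0, 1), (0, 5), (0, 8), (3, 1), (3, 5), (3, 8), (9, 1), (9, 5), (7, 8)],
  [(49, [0, 1, 3, 2, 4, 5, 7, 6]), (50, [1, 0, 3, 2, 4, 5, 7, 6])]⟩
def nB_28 : Nd := ⟨[((0, 2), (3, 5)), ((1, 7), (2, 5))], [0, 3, 9, 1, 9, 2, 9, 4, 5, 2], [0, 3, 5, 1, 7, 8],
  [(5, 9)],
  [(0, 1), (0, 7), (0, 8), (3, 1), (3, 7), (3, 8), (9, 1), (9, 7), (5, 8)],
  [(50, [0, 1, 3, 4, 2, 7, 5, 6]), (51, [1, 0, 3, 4, 2, 7, 5, 6])]⟩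
def nB_29 : Nd := ⟨[((0, 5), (2, 4)), ((1, 5), (4, 6))], [0, 5, 9, 3, 1, 2, 9, 9, 4, 5], [0, 4, 5, 3, 8, 1],
  [(1, 9)],
  [(0, 3), (0, 8), (0, 1), (4, 3), (4, 8), (4, 9), (5, 3), (5, 8), (5, 9)],
  [(36, [0, 1, 3, 4, 2, 7, 5, 6]), (51, [0, 1, 3, 2, 4, 5, 7, 6])]⟩
def nB_30 : Nd := ⟨[((0, 5), (2, 6)), ((1, 5), (4, 6))], [0, 3, 1, 9, 4, 2, 9, 9, 5, 2], [0, 2, 5, 1, 4, 8],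
  [(5, 9)],
  [(0, 1), (0, 4), (0, 8), (2, 1), (2, 4), (2, 8), (9, 1), (9, 4), (5, 8)],
  [(51, [0, 1, 2, 4, 3, 6, 5, 7]), (52, [1, 0, 2, 4, 3, 6, 5, 7])]⟩
def nB_31 : Nd := ⟨[((0, 5), (2, 3)), ((1, 6), (3, 5))], [0, 3, 1, 9, 9, 2, 4, 9, 5, 2], [0, 2, 5, 1, 6, 8],
  [(5, 9)],
  [(0, 1), (0, 6), (0, 8), (2, 1), (2, 6), (2, 8), (9, 1), (9, 6), (5, 8)],
  [(52, [1, 0, 2, 4, 3, 6, 5, 7]), (53, [1, 0, 2, 4, 3, 6, 5, 7])]⟩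
def nB_32 : Nd := ⟨[((0, 5), (2, 6)), ((1, 6), (3, 5))], [0, 3, 1, 4, 9, 9, 2, 9, 5, 2], [0, 2, 6, 1, 3, 8],
  [(6, 9)],
  [(0, 1), (0, 3), (0, 8), (2, 1), (2, 3), (2, 8), (9, 1), (9, 3), (6, 8)],
  [(53, [0, 1, 2, 3, 4, 5, 6, 7]), (54, [0, 1, 3, 2, 4, 5, 7, 6])]⟩
def nB_33 : Nd := ⟨[((0, 2), (1, 3)), ((0, 4), (3, 7)), ((0, 5), (1, 7))], [0, 1, 9, 2, 3, 9, 3, 5, 4, 2, 5], [0, 1, 3, 4, 8, 7],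
  [(3, 9), (4, 6), (7, 10)],
  [(0, 6), (0, 8), (0, 10), (1, 4), (1, 8), (1, 10), (9, 4), (3, 8), (9, 7)],
  []⟩
def nB_34 : Nd := ⟨[((0, 2), (1, 3)), ((0, 4), (2, 6)), ((0, 6), (1, 5))], [0, 2, 1, 9, 9, 3, 2, 9, 4, 5, 2], [0, 2, 1, 5, 8, 9],
  [(1, 10), (10, 6)],
  [(0, 5), (0, 8), (0, 9), (2, 5), (2, 8), (2, 9), (10, 5), (1, 8), (6, 9)],
  []⟩
def nB_35 : Nd := ⟨[((0, 2), (1, 3)), ((0, 4), (3, 7)), ((0, 6), (1, 7))], [0, 1, 9, 2, 9, 3, 9, 5, 4, 5, 5], [0, 1, 3, 5, 8, 7],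
  [(7, 10), (7, 9)],
  [(0, 5), (0, 8), (0, 9), (1, 5), (1, 8), (1, 10), (3, 5), (3, 8), (3, 9)],
  []⟩
def nB_36 : Nd := ⟨[((0, 2), (3, 4)), ((0, 5), (1, 7)), ((1, 3), (2, 5))], [2, 9, 0, 1, 3, 5, 9, 3, 4, 2, 5], [2, 3, 0, 4, 8, 5],
  [(0, 9), (4, 7), (5, 10)],
  [(2, 4), (2, 8), (2, 10), (3, 7), (3, 8), (3, 10), (9, 7), (0, 8), (9, 5)],
  []⟩
def nB_37 : Nd := ⟨[((0, 2), (3, 5)), ((0, 5), (1, 7)), ((1, 3), (2, 5))], [4, 4, 0, 1, 9, 2, 9, 9, 3, 4, 5], [2, 3, 5, 8, 0, 10],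
  [(0, 9), (9, 1)],
  [(2, 8), (2, 1), (2, 10), (3, 8), (3, 0), (3, 10), (5, 8), (5, 9), (5, 10)],
  []⟩
def nB_38 : Nd := ⟨[((0, 2), (1, 3)), ((0, 5), (1, 6)), ((0, 7), (3, 5))], [0, 2, 9, 1, 3, 5, 2, 9, 4, 2, 5], [0, 3, 1, 4, 8, 5],
  [(1, 9), (9, 6), (5, 10)],
  [(0, 4), (0, 8), (0, 10), (3, 4), (3, 8), (3, 10), (6, 4), (1, 8), (9, 5)],
  []⟩
def nB_39 : Nd := ⟨[((0, 2), (1, 3)), ((0, 5), (1, 6)), ((1, 7), (3, 5))], [0, 1, 3, 2, 3, 5, 9, 9, 4, 5, 5], [0, 1, 3, 2, 8, 5],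
  [(2, 4), (5, 10), (5, 9)],
  [(0, 4), (0, 8), (0, 9), (1, 4), (1, 8), (1, 9), (3, 2), (3, 8), (3, 10)],
  []⟩
def nB_40 : Nd := ⟨[((0, 2), (3, 4)), ((0, 5), (1, 6)), ((1, 3), (2, 5))], [0, 5, 1, 2, 3, 9, 9, 3, 4, 5, 5], [0, 2, 3, 4, 8, 1],
  [(4, 7), (1, 9), (1, 10)],
  [(0, 4), (0, 8), (0, 9), (2, 4), (2, 8), (2, 10), (3, 7), (3, 8), (3, 10)],
  []⟩
def nB_41 : Nd := ⟨[((0, 2), (3, 5)), ((0, 5), (1, 6)), ((1, 3), (2, 5))], [9, 4, 0, 1, 4, 2, 4, 9, 3, 4, 5], [2, 3, 5, 8, 1, 10],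
  [(1, 9), (9, 6), (6, 4)],
  [(2, 8), (2, 1), (2, 10), (3, 8), (3, 4), (3, 10), (5, 8), (5, 9), (5, 10)],
  []⟩
def nB_42 : Nd := ⟨[((0, 1), (2, 5)), ((0, 2), (4, 6)), ((0, 6), (1, 5))], [0, 2, 1, 3, 9, 3, 2, 9, 4, 5, 2], [0, 2, 1, 3, 8, 9],
  [(1, 10), (10, 6), (3, 5)],
  [(0, 5), (0, 8), (0, 9), (2, 3), (2, 8), (2, 9), (10, 5), (1, 8), (6, 9)],
  []⟩
def nB_43 : Nd := ⟨[((0, 2), (1, 5)), ((0, 5), (1, 6)), ((1, 2), (4, 6))], [0, 1, 5, 9, 5, 2, 9, 9, 3, 4, 5], [0, 1, 5, 8, 9, 2],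
  [(2, 10), (10, 4)],
  [(0, 8), (0, 9), (0, 4), (1, 8), (1, 9), (1, 10), (5, 8), (5, 9), (5, 2)],
  []⟩
def nB_44 : Nd := ⟨[((0, 1), (2, 5)), ((0, 4), (2, 6)), ((0, 6), (1, 5))], [0, 1, 9, 3, 3, 2, 9, 9, 4, 3, 5], [0, 1, 5, 3, 8, 10],
  [(3, 4), (4, 9)],
  [(0, 9), (0, 8), (0, 10), (1, 3), (1, 8), (1, 10), (5, 3), (5, 8), (5, 10)],
  []⟩
def nB_45 : Nd := ⟨[((0, 2), (1, 5)), ((0, 5), (1, 6)), ((1, 4), (2, 6))], [0, 1, 2, 3, 3, 9, 2, 9, 4, 5, 2], [0, 1, 2, 3, 8, 9],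
  [(2, 10), (10, 6), (3, 4)],
  [(0, 4), (0, 8), (0, 9), (1, 3), (1, 8), (1, 9), (10, 4), (2, 8), (6, 9)],
  []⟩
def nB_46 : Nd := ⟨[((0, 1), (2, 3)), ((0, 5), (1, 6)), ((0, 6), (2, 4))], [0, 1, 2, 9, 3, 9, 2, 9, 4, 5, 2], [0, 1, 2, 4, 8, 9],
  [(2, 10), (10, 6)],
  [(0, 4), (0, 8), (0, 9), (1, 4), (1, 8), (1, 9), (10, 4), (2, 8), (6, 9)],
  []⟩
def nB_47 : Nd := ⟨[((0, 1), (2, 3)), ((0, 6), (2, 4)), ((1, 6), (2, 5))], [0, 9, 1, 2, 5, 3, 9, 9, 4, 5, 3], [0, 2, 3, 5, 8, 4],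
  [(5, 10), (4, 9)],
  [(0, 5), (0, 8), (0, 9), (2, 10), (2, 8), (2, 9), (3, 5), (3, 8), (3, 4)],
  [(40, [0, 1, 3, 2, 4, 5, 7, 6])]⟩
def nB_48 : Nd := ⟨[((0, 2), (1, 3)), ((0, 5), (2, 4)), ((0, 7), (3, 4))], [0, 3, 4, 5, 1, 9, 9, 9, 2, 4, 5], [0, 4, 8, 1, 2, 3],
  [(2, 9), (3, 10)],
  [(0, 1), (0, 9), (0, 10), (4, 1), (4, 9), (4, 10), (8, 1), (8, 2), (8, 3)],
  []⟩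
def nB_49 : Nd := ⟨[((0, 2), (1, 3)), ((0, 7), (3, 4)), ((2, 4), (3, 5))], [4, 2, 5, 0, 1, 9, 9, 3, 2, 4, 5], [3, 4, 1, 7, 0, 2],
  [(1, 8), (0, 9), (2, 10)],
  [(3, 7), (3, 9), (3, 10), (4, 7), (4, 9), (4, 10), (1, 7), (8, 0), (8, 2)],
  []⟩
def nB_50 : Nd := ⟨[((0, 1), (2, 5)), ((0, 3), (2, 4)), ((1, 5), (2, 3))], [9, 0, 1, 3, 9, 2, 9, 9, 4, 3, 5], [1, 2, 5, 3, 8, 10],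
  [(3, 9)],
  [(1, 3), (1, 8), (1, 10), (2, 9), (2, 8), (2, 10), (5, 3), (5, 8), (5, 10)],
  []⟩
def nB_51 : Nd := ⟨[((0, 2), (1, 5)), ((0, 5), (2, 3)), ((1, 3), (2, 4))], [4, 0, 1, 2, 3, 9, 3, 9, 4, 4, 5], [1, 2, 3, 4, 0, 10],
  [(4, 6), (0, 9), (0, 8)],
  [(1, 6), (1, 8), (1, 10), (2, 6), (2, 8), (2, 10), (3, 4), (3, 9), (3, 10)],
  []⟩
def nB_52 : Nd := ⟨[((0, 1), (2, 3)), ((0, 4), (1, 6)), ((0, 6), (2, 5))], [0, 4, 5, 3, 3, 9, 1, 3, 2, 4, 5], [0, 6, 8, 3, 1, 2],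
  [(3, 7), (3, 4), (1, 9), (2, 10)],
  [(0, 7), (0, 9), (0, 10), (6, 4), (6, 9), (6, 10), (8, 3), (8, 1), (8, 2)],
  []⟩
def nB_53 : Nd := ⟨[((0, 1), (2, 5)), ((0, 4), (2, 3)), ((0, 7), (3, 5))], [0, 3, 4, 1, 9, 5, 3, 9, 2, 4, 5], [0, 3, 8, 1, 2, 5],
  [(1, 6), (2, 9), (5, 10)],
  [(0, 6), (0, 9), (0, 10), (3, 1), (3, 9), (3, 10), (8, 1), (8, 2), (8, 5)],
  []⟩
def nB_54 : Nd := ⟨[((0, 1), (2, 5)), ((0, 4), (2, 3)), ((1, 7), (3, 5))], [0, 3, 5, 2, 9, 4, 0, 9, 1, 5, 2], [0, 8, 3, 1, 5, 2],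
  [(0, 6), (3, 10), (2, 9)],
  [(6, 1), (0, 5), (0, 9), (8, 1), (8, 5), (8, 2), (10, 1), (10, 5), (3, 9)],
  []⟩
def nB_55 : Nd := ⟨[((0, 1), (2, 5)), ((0, 5), (2, 3)), ((1, 7), (3, 5))], [0, 2, 1, 9, 3, 2, 9, 9, 4, 5, 2], [0, 2, 1, 4, 8, 9],
  [(1, 10), (10, 5)],
  [(0, 4), (0, 8), (0, 9), (2, 4), (2, 8), (2, 9), (1, 4), (5, 8), (5, 9)],
  []⟩
def nB_56 : Nd := ⟨[((0, 2), (1, 3)), ((0, 4), (2, 5)), ((0, 7), (3, 5))], [0, 9, 2, 1, 3, 5, 3, 9, 4, 2, 5], [0, 3, 2, 4, 8, 5],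
  [(2, 9), (4, 6), (5, 10)],
  [(0, 6), (0, 8), (0, 10), (3, 4), (3, 8), (3, 10), (9, 4), (2, 8), (9, 5)],
  []⟩
def nB_57 : Nd := ⟨[((0, 2), (1, 3)), ((0, 7), (3, 5)), ((2, 5), (3, 4))], [2, 9, 0, 1, 3, 5, 9, 3, 4, 2, 5], [2, 3, 0, 4, 8, 5],
  [(0, 9), (4, 7), (5, 10)],
  [(2, 4), (2, 8), (2, 10), (3, 7), (3, 8), (3, 10), (9, 7), (0, 8), (9, 5)],
  []⟩
def nB_58 : Nd := ⟨[((0, 2), (1, 5)), ((0, 6), (1, 3)), ((0, 7), (3, 5))], [0, 1, 9, 2, 3, 2, 9, 2, 4, 5, 2], [0, 1, 3, 4, 8, 9],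
  [(3, 10), (10, 7), (10, 5)],
  [(0, 4), (0, 8), (0, 9), (1, 4), (1, 8), (1, 9), (7, 4), (5, 8), (3, 9)],
  []⟩
def nB_59 : Nd := ⟨[((0, 2), (1, 5)), ((0, 7), (3, 5)), ((1, 3), (2, 6))], [4, 0, 1, 2, 3, 9, 9, 9, 4, 4, 5], [1, 2, 3, 4, 0, 10],
  [(0, 9), (0, 8)],
  [(1, 4), (1, 8), (1, 10), (2, 4), (2, 8), (2, 10), (3, 4), (3, 9), (3, 10)],
  []⟩
def nB_60 : Nd := ⟨[((0, 2), (1, 5)), ((0, 7), (3, 5)), ((1, 3), (2, 5))], [4, 0, 1, 9, 9, 2, 4, 4, 3, 4, 5], [1, 2, 5, 8, 0, 10],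
  [(0, 6), (0, 9), (9, 7)],
  [(1, 8), (1, 7), (1, 10), (2, 8), (2, 6), (2, 10), (5, 8), (5, 9), (5, 10)],
  []⟩
def nB_61 : Nd := ⟨[((0, 1), (2, 5)), ((0, 2), (4, 6)), ((1, 5), (2, 6))], [2, 0, 1, 9, 3, 9, 5, 9, 4, 2, 5], [1, 2, 0, 4, 8, 6],
  [(0, 9), (6, 10)],
  [(1, 4), (1, 8), (1, 10), (2, 4), (2, 8), (2, 10), (9, 4), (0, 8), (9, 6)],
  []⟩
def nB_62 : Nd := ⟨[((0, 2), (1, 5)), ((0, 5), (2, 6)), ((1, 2), (4, 6))], [0, 2, 1, 3, 3, 9, 2, 9, 4, 5, 2], [0, 2, 1, 3, 8, 9],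
  [(1, 10), (10, 6), (3, 4)],
  [(0, 3), (0, 8), (0, 9), (2, 4), (2, 8), (2, 9), (10, 4), (1, 8), (6, 9)],
  []⟩
def nB_63 : Nd := ⟨[((0, 2), (1, 5)), ((0, 5), (2, 6)), ((1, 6), (2, 4))], [0, 9, 1, 3, 3, 2, 9, 9, 4, 5, 3], [0, 2, 5, 3, 8, 9],
  [(3, 4), (4, 10)],
  [(0, 4), (0, 8), (0, 9), (2, 10), (2, 8), (2, 9), (5, 3), (5, 8), (5, 9)],
  []⟩
def nB_64 : Nd := ⟨[((0, 5), (1, 6)), ((0, 6), (2, 4)), ((1, 5), (2, 6))], [3, 0, 3, 9, 3, 1, 2, 9, 4, 3, 5], [1, 5, 6, 0, 8, 10],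
  [(0, 9), (0, 4), (9, 2)],
  [(1, 2), (1, 8), (1, 10), (5, 2), (5, 8), (5, 10), (6, 4), (6, 8), (6, 10)],
  []⟩
def nB_65 : Nd := ⟨[((0, 1), (2, 3)), ((0, 6), (1, 7)), ((0, 7), (2, 4))], [0, 4, 5, 3, 3, 9, 9, 1, 2, 4, 5], [0, 7, 8, 3, 1, 2],
  [(3, 4), (1, 9), (2, 10)],
  [(0, 3), (0, 9), (0, 10), (7, 4), (7, 9), (7, 10), (8, 3), (8, 1), (8, 2)],
  []⟩
def nB_66 : Nd := ⟨[((0, 1), (2, 3)), ((0, 6), (3, 4)), ((1, 6), (3, 7))], [0, 1, 9, 2, 9, 3, 5, 9, 4, 5, 5], [0, 1, 3, 5, 8, 6],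
  [(6, 9), (6, 10)],
  [(0, 5), (0, 8), (0, 9), (1, 5), (1, 8), (1, 10), (3, 5), (3, 8), (3, 10)],
  []⟩
def nB_67 : Nd := ⟨[((0, 1), (2, 5)), ((0, 3), (2, 4)), ((0, 5), (3, 4))], [0, 3, 4, 1, 9, 5, 9, 3, 2, 4, 5], [0, 3, 8, 1, 2, 5],
  [(1, 7), (2, 9), (5, 10)],
  [(0, 7), (0, 9), (0, 10), (3, 1), (3, 9), (3, 10), (8, 1), (8, 2), (8, 5)],
  []⟩
def nB_68 : Nd := ⟨[((0, 1), (2, 5)), ((0, 5), (3, 4)), ((2, 4), (3, 5))], [4, 2, 5, 0, 1, 9, 9, 3, 2, 4, 5], [3, 4, 1, 7, 0, 2],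
  [(1, 8), (0, 9), (2, 10)],
  [(3, 7), (3, 9), (3, 10), (4, 7), (4, 9), (4, 10), (1, 7), (8, 0), (8, 2)],
  []⟩
def nB_69 : Nd := ⟨[((0, 2), (1, 3)), ((0, 6), (3, 4)), ((0, 7), (1, 6))], [0, 1, 9, 2, 3, 9, 5, 9, 4, 2, 5], [0, 1, 3, 4, 8, 6],
  [(3, 9), (6, 10)],
  [(0, 4), (0, 8), (0, 10), (1, 4), (1, 8), (1, 10), (9, 4), (3, 8), (9, 6)],
  []⟩
def nB_70 : Nd := ⟨[((0, 2), (1, 3)), ((0, 6), (3, 4)), ((1, 6), (3, 7))], [0, 1, 9, 2, 9, 3, 5, 9, 4, 5, 5], [0, 1, 3, 5, 8, 6],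
  [(6, 9), (6, 10)],
  [(0, 5), (0, 8), (0, 9), (1, 5), (1, 8), (1, 10), (3, 5), (3, 8), (3, 10)],
  []⟩
def nB_71 : Nd := ⟨[((0, 2), (1, 5)), ((0, 3), (2, 4)), ((0, 5), (3, 4))], [0, 3, 9, 1, 2, 3, 9, 9, 3, 4, 5], [0, 3, 4, 1, 9, 10],
  [(1, 8), (8, 5)],
  [(0, 8), (0, 9), (0, 10), (3, 5), (3, 9), (3, 10), (4, 1), (4, 9), (4, 10)],
  []⟩
def nB_72 : Nd := ⟨[((0, 2), (1, 5)), ((0, 4), (2, 3)), ((0, 5), (3, 4))], [0, 3, 4, 9, 1, 5, 9, 9, 2, 4, 5], [0, 4, 8, 1, 2, 5],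
  [(2, 9), (5, 10)],
  [(0, 1), (0, 9), (0, 10), (4, 1), (4, 9), (4, 10), (8, 1), (8, 2), (8, 5)],
  []⟩
def nB_73 : Nd := ⟨[((0, 1), (2, 3)), ((0, 4), (2, 5)), ((1, 5), (3, 4))], [0, 9, 1, 2, 3, 2, 9, 3, 4, 5, 2], [0, 2, 3, 4, 8, 9],
  [(3, 10), (10, 5), (4, 7)],
  [(0, 7), (0, 8), (0, 9), (2, 4), (2, 8), (2, 9), (10, 4), (3, 8), (5, 9)],
  []⟩
def nB_74 : Nd := ⟨[((0, 2), (1, 3)), ((0, 4), (3, 5)), ((1, 5), (2, 4))], [0, 3, 2, 1, 9, 2, 9, 3, 4, 5, 2], [0, 3, 2, 1, 8, 9],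
  [(2, 10), (10, 5), (1, 7)],
  [(0, 1), (0, 8), (0, 9), (3, 7), (3, 8), (3, 9), (10, 1), (2, 8), (5, 9)],
  []⟩
def nB_75 : Nd := ⟨[((0, 1), (2, 3)), ((0, 5), (2, 4)), ((1, 5), (3, 4))], [0, 3, 1, 2, 9, 2, 9, 3, 4, 5, 2], [0, 2, 3, 1, 8, 9],
  [(3, 10), (10, 5), (1, 7)],
  [(0, 7), (0, 8), (0, 9), (2, 1), (2, 8), (2, 9), (10, 1), (3, 8), (5, 9)],
  []⟩
def nB_76 : Nd := ⟨[((0, 2), (1, 3)), ((0, 5), (3, 4)), ((1, 5), (2, 4))], [2, 0, 1, 3, 9, 5, 9, 3, 4, 2, 5], [1, 2, 0, 3, 8, 5],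
  [(0, 9), (3, 7), (5, 10)],
  [(1, 7), (1, 8), (1, 10), (2, 3), (2, 8), (2, 10), (9, 3), (0, 8), (9, 5)],
  []⟩
def nB_77 : Nd := ⟨[((0, 1), (2, 5)), ((0, 3), (2, 6)), ((1, 6), (3, 5))], [0, 2, 1, 2, 3, 2, 9, 9, 4, 5, 2], [0, 2, 1, 4, 8, 9],
  [(1, 10), (10, 5), (10, 3)],
  [(0, 4), (0, 8), (0, 9), (2, 4), (2, 8), (2, 9), (1, 4), (5, 8), (3, 9)],
  []⟩
def nB_78 : Nd := ⟨[((0, 2), (1, 5)), ((0, 6), (3, 5)), ((1, 3), (2, 6))], [0, 2, 3, 9, 3, 1, 2, 9, 4, 5, 2], [0, 5, 1, 2, 8, 9],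
  [(1, 10), (10, 6), (2, 4)],
  [(0, 4), (0, 8), (0, 9), (5, 2), (5, 8), (5, 9), (10, 2), (1, 8), (6, 9)],
  []⟩
def nB_79 : Nd := ⟨[((0, 1), (2, 5)), ((0, 4), (2, 6)), ((1, 5), (4, 6))], [0, 2, 1, 3, 2, 3, 9, 9, 4, 5, 2], [0, 2, 1, 3, 8, 9],
  [(1, 10), (10, 4), (3, 5)],
  [(0, 5), (0, 8), (0, 9), (2, 3), (2, 8), (2, 9), (10, 5), (1, 8), (4, 9)],
  []⟩
def nB_80 : Nd := ⟨[((0, 2), (1, 5)), ((0, 5), (4, 6)), ((1, 4), (2, 6))], [9, 0, 2, 9, 3, 1, 4, 0, 5, 1, 2], [1, 5, 2, 4, 6, 8],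
  [(1, 7), (5, 9), (2, 10)],
  [(7, 4), (1, 6), (1, 8), (9, 4), (9, 6), (5, 8), (10, 4), (10, 6), (2, 8)],
  []⟩
def nB_81 : Nd := ⟨[((0, 1), (2, 5)), ((0, 5), (3, 4)), ((1, 5), (4, 7))], [0, 2, 9, 3, 2, 1, 9, 2, 4, 5, 2], [0, 5, 1, 3, 8, 9],
  [(1, 10), (10, 4), (10, 7)],
  [(0, 3), (0, 8), (0, 9), (5, 3), (5, 8), (5, 9), (7, 3), (1, 8), (4, 9)],
  []⟩
def nB_82 : Nd := ⟨[((0, 1), (2, 3)), ((0, 6), (2, 5)), ((1, 6), (3, 5))], [2, 0, 2, 1, 9, 5, 9, 3, 4, 2, 5], [1, 3, 0, 7, 8, 5],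
  [(0, 9), (9, 2), (5, 10)],
  [(1, 7), (1, 8), (1, 10), (3, 7), (3, 8), (3, 10), (0, 7), (2, 8), (9, 5)],
  []⟩
def nB_83 : Nd := ⟨[((0, 2), (1, 3)), ((0, 6), (3, 5)), ((1, 6), (2, 5))], [0, 2, 9, 1, 0, 3, 4, 9, 5, 1, 2], [0, 3, 1, 5, 6, 8],
  [(0, 4), (3, 9), (1, 10)],
  [(0, 5), (4, 6), (0, 8), (9, 5), (9, 6), (3, 8), (10, 5), (10, 6), (1, 8)],
  []⟩
def nB_84 : Nd := ⟨[((0, 1), (2, 5)), ((0, 5), (4, 6)), ((1, 6), (2, 4))], [2, 0, 1, 3, 3, 9, 5, 3, 4, 2, 5], [1, 2, 0, 3, 8, 6],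
  [(0, 9), (3, 7), (7, 4), (6, 10)],
  [(1, 4), (1, 8), (1, 10), (2, 3), (2, 8), (2, 10), (9, 4), (0, 8), (9, 6)],
  []⟩
def nB_85 : Nd := ⟨[((0, 2), (1, 5)), ((0, 5), (4, 6)), ((1, 6), (2, 4))], [0, 9, 2, 9, 3, 1, 4, 9, 5, 1, 2], [0, 5, 2, 4, 6, 8],
  [(5, 9), (2, 10)],
  [(0, 4), (0, 6), (0, 8), (9, 4), (9, 6), (5, 8), (10, 4), (10, 6), (2, 8)],
  []⟩
def nB_86 : Nd := ⟨[((0, 1), (2, 3)), ((0, 5), (2, 6)), ((1, 6), (3, 5))], [1, 2, 0, 9, 0, 3, 4, 9, 5, 1, 2], [2, 0, 1, 5, 6, 8],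
  [(2, 4), (0, 9), (1, 10)],
  [(2, 5), (4, 6), (2, 8), (9, 5), (9, 6), (0, 8), (10, 5), (10, 6), (1, 8)],
  []⟩
def nB_87 : Nd := ⟨[((0, 2), (1, 3)), ((0, 5), (3, 7)), ((1, 7), (2, 5))], [9, 0, 1, 4, 3, 9, 9, 2, 4, 4, 5], [1, 2, 7, 4, 3, 10],
  [(3, 9), (3, 8)],
  [(1, 4), (1, 8), (1, 10), (2, 4), (2, 8), (2, 10), (7, 4), (7, 9), (7, 10)],
  []⟩
def nB_88 : Nd := ⟨[((0, 1), (2, 3)), ((0, 5), (2, 4)), ((0, 7), (3, 4)), ((1, 7), (3, 5))], [0, 3, 9, 9, 1, 2, 9, 2, 3, 4, 5, 2], [0, 4, 5, 1, 9, 10],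
  [(5, 11), (11, 7), (1, 8)],
  [(0, 8), (0, 9), (0, 10), (4, 1), (4, 9), (4, 10), (11, 1), (5, 9), (7, 10)],
  []⟩

/-- all nodes -/
def nBl : List Nd := [nB_0, nB_1, nB_2, nB_3, nB_4, nB_5, nB_6, nB_7, nB_8, nB_9, nB_10, nB_11, nB_12, nB_13, nB_14, nB_15, nB_16, nB_17, nB_18, nB_19, nB_20, nB_21, nB_22, nB_23, nB_24, nB_25, nB_26, nB_27, nB_28, nB_29, nB_30, nB_31, nB_32, nB_33, nB_34, nB_35, nB_36, nB_37, nB_38, nB_39, nB_40, nB_41, nB_42, nB_43, nB_44, nB_45, nB_46, nB_47, nB_48, nB_49, nB_50, nB_51, nB_52, nB_53, nB_54, nB_55, nB_56, nB_57, nB_58, nB_59, nB_60, nB_61, nB_62, nB_63, nB_64, nB_65, nB_66, nB_67, nB_68, nB_69, nB_70, nB_71, nB_72, nB_73, nB_74, nB_75, nB_76, nB_77, nB_78, nB_79, nB_80, nB_81, nB_82, nB_83, nB_84,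 nB_85, nB_86, nB_87, nB_88]

set_option maxRecDepth 100000 in
theorem chkA : chkAll 7 eA nAl = true := by decide +kernel

set_option maxRecDepth 100000 in
theorem chkB : chkAll 8 eB nBl = true := by decide +kernel

end Pool.Agent.Helper81.OP
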