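import Pool.Agent.Helper81.OP.Cert

/-!
# MP_ec87e6_co: soundness of the certificates
-/

set_option autoImplicit false

open SimpleGraph

namespace Pool.Agent.Helper81.OP

theorem eqE_iff {a b : ℕ × ℕ} : eqE a b = true ↔
    (a.1 = b.1 ∧ a.2 = b.2) ∨ (a.1 = b.2 ∧ a.2 = b.1) := by
  simp [eqE]

theorem em_of_eqE {V : Type} (φ : ℕ → V) {a b : ℕ × ℕ} (h : eqE a b = true) :
    em φ a = em φ b := by
  rcases eqE_iff.1 h with ⟨h1, h2⟩ | ⟨h1, h2⟩
  · simp [em, h1, h2]
  · simp [em, h1, h2, Sym2.eq_swap]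

theorem eqE_of_em {V : Type} {φ : ℕ → V} {n : ℕ}
    (hφ : ∀ i < n, ∀ j < n, φ i = φ j → i = j) {a b : ℕ × ℕ} (ha1 : a.1 < n) (ha2 : a.2 < n)
    (hb1 : b.1 < n) (hb2 : b.2 < n) (h : em φ a = em φ b) : eqE a b = true := by
  rw [eqE_iff]
  rw [em, em, Sym2.eq_iff] at h
  rcases h with ⟨h1, h2⟩ | ⟨h1, h2⟩
  · exact Or.inl ⟨hφ _ ha1 _ hb1 h1, hφ _ ha2 _ hb2 h2⟩
  · exact Or.inr ⟨hφ _ ha1 _ hb2 h1, hφ _ ha2 _ hb1 h2⟩

theorem mem_em {V : Type} {φ : ℕ → V} {a : ℕ × ℕ} {v : V} :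
    v ∈ em φ a ↔ v = φ a.1 ∨ v = φ a.2 := by
  simp [em]

theorem Cr_symm {V ι : Type} {e : ι → Bool → Sym2 V} {φ : ℕ → V} {a b : ℕ × ℕ}
    (h : Cr e φ (a, b)) : Cr e φ (b, a) := by
  obtain ⟨i, c, h1, h2⟩ := h
  exact ⟨i, !c, h2, by simpa using h1⟩

theorem Cr_of_eqP {V ι : Type} {e : ι → Bool → Sym2 V} {φ : ℕ → V}
    {p q : (ℕ × ℕ) × (ℕ × ℕ)} (h : Cr e φ p) (hpq : eqP p q = true) : Cr e φ q := by
  rw [eqP, Bool.or_eq_true, Bool.and_eq_true, Bool.and_eq_true] at hpq
  rcases hpq with ⟨h1, h2⟩ | ⟨h1, h2⟩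
  · obtain ⟨i, c, g1, g2⟩ := h
    exact ⟨i, c, g1.trans (em_of_eqE φ h1), g2.trans (em_of_eqE φ h2)⟩
  · obtain ⟨i, c, g1, g2⟩ := h
    refine ⟨i, !c, g2.trans (em_of_eqE φ h2), ?_⟩
    rw [Bool.not_not]
    exact g1.trans (em_of_eqE φ h1)

/-- reachability inside a set -/
def RR {W : Type} (H : SimpleGraph W) (F : Set W) (x y : W) : Prop :=
  ∃ (hx : x ∈ F) (hy : y ∈ F), (H.induce F).Reachable ⟨x, hx⟩ ⟨y, hy⟩

theorem RR.refl {W : Type} {H : SimpleGraph W} {F : Set W} {x : W} (hx : x ∈ F) : RR H F x x :=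
  ⟨hx, hx, Reachable.refl _⟩

theorem RR.trans {W : Type} {H : SimpleGraph W} {F : Set W} {x y z : W} (h1 : RR H F x y)
    (h2 : RR H F y z) : RR H F x z := by
  obtain ⟨hx, hy, h1⟩ := h1
  obtain ⟨hy', hz, h2⟩ := h2
  exact ⟨hx, hz, h1.trans h2⟩

theorem RR.symm {W : Type} {H : SimpleGraph W} {F : Set W} {x y : W} (h1 : RR H F x y) :
    RR H F y x := by
  obtain ⟨hx, hy, h1⟩ := h1
  exact ⟨hy, hx, h1.symm⟩

theorem RR.adj {W : Type} {H : SimpleGraph W} {F : Set W} {x y : W} (hx : x ∈ F) (hy : y ∈ F)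
    (h : H.Adj x y) : RR H F x y := by
  refine ⟨hx, hy, Adj.reachable ?_⟩
  simpa using h

theorem conn_of_RR {W : Type} {H : SimpleGraph W} {F : Set W} {r : W} (hr : r ∈ F)
    (h : ∀ x ∈ F, RR H F r x) : (H.induce F).Connected := by
  have : Nonempty F := ⟨⟨r, hr⟩⟩
  refine ⟨fun x y => ?_⟩
  obtain ⟨h1, h2, h3⟩ := h x.1 x.2
  obtain ⟨h4, h5, h6⟩ := h y.1 y.2
  exact h3.symm.trans h6

/-- the data of a node in the planarization -/
structure NodeEnv (n : ℕ) (E : List (ℕ × ℕ)) (N : Nd) (V ι : Type) (G : SimpleGraph V)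
    (e : ι → Bool → Sym2 V) (φ : ℕ → V) (cr : Fin N.P.length → ι) (own : ι → ℕ) : Prop where
  cro : Crossings G ι e
  inj : ∀ i < n, ∀ j < n, φ i = φ j → i = j
  adj : ∀ a ∈ E, G.Adj (φ a.1) (φ a.2)
  bd : ∀ p ∈ N.P, p.1.1 < n ∧ p.1.2 < n ∧ p.2.1 < n ∧ p.2.2 < n
  ne : ∀ i < N.P.length, ∀ j < N.P.length, i ≠ j →
    eqE (N.P.getD i ((0, 0), (0, 0))).1 (N.P.getD j ((0, 0), (0, 0))).1 = false ∧
    eqE (N.P.getD i ((0, 0), (0, 0))).1 (N.P.getD j ((0, 0), (0, 0))).2 = false
  cr : ∀ k : Fin N.P.length, ∃ c, e (cr k) c = em φ (N.P.get k).1 ∧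
    e (cr k) (!c) = em φ (N.P.get k).2
  own : ∀ a ∈ used n N, ∀ i c, e i c = em φ a → own i = N.bt a.1 ∨ own i = N.bt a.2
  us : ∀ a ∈ used n N, hadj n E N.P a.1 a.2 = true

section
variable {n : ℕ} {E : List (ℕ × ℕ)} {N : Nd} {V ι : Type} {G : SimpleGraph V}
  {e : ι → Bool → Sym2 V} {φ : ℕ → V} {cr : Fin N.P.length → ι} {own : ι → ℕ}

/-- vertices of the partial planarization in the planarization -/
def nu (n : ℕ) (N : Nd) (φ : ℕ → V) (cr : Fin N.P.length → ι) (y : ℕ) : V ⊕ ι :=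
  if y < n then Sum.inl (φ y) else
    if h : y - n < N.P.length then Sum.inr (cr ⟨y - n, h⟩) else Sum.inl (φ 0)

theorem nu_lt {y : ℕ} (h : y < n) : nu n N φ cr y = Sum.inl (φ y) := by
  simp [nu, h]

theorem nu_ge {y : ℕ} (h : ¬ y < n) (h2 : y - n < N.P.length) :
    nu n N φ cr y = Sum.inr (cr ⟨y - n, h2⟩) := by
  simp [nu, h, h2]

/-- the branch set -/
def FF (n : ℕ) (N : Nd) (e : ι → Bool → Sym2 V) (φ : ℕ → V) (cr : Fin N.P.length → ι)
    (own : ι → ℕ) (t : ℕ) : Set (V ⊕ ι) :=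
  {x | (∃ y < n + N.P.length, N.bt y = t ∧ x = nu n N φ cr y) ∨
    (∃ i, x = Sum.inr i ∧ own i = t ∧ ∃ a ∈ used n N, ∃ c, e i c = em φ a)}

theorem mem_used {a : ℕ × ℕ} : a ∈ used n N ↔ (a ∈ N.steps ∨ a ∈ N.conns) ∧ a.1 < n ∧ a.2 < n := by
  simp only [used, List.mem_filter, List.mem_append, Bool.and_eq_true, decide_eq_true_eq]

theorem not_P (hE : NodeEnv n E N V ι G e φ cr own) {a : ℕ × ℕ} (ha : a ∈ used n N)
    (k : Fin N.P.length) (c : Bool) : e (cr k) c ≠ em φ a := by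
  intro h
  obtain ⟨c', h1, h2⟩ := hE.cr k
  have hu := hE.us a ha
  obtain ⟨-, ha1, ha2⟩ := mem_used.1 ha
  have hk : N.P.get k ∈ N.P := List.get_mem _ _
  obtain ⟨b1, b2, b3, b4⟩ := hE.bd _ hk
  simp only [hadj, if_pos ha1, if_pos ha2, Bool.and_eq_true, List.all_eq_true,
    Bool.not_eq_true'] at hu
  have := hu.2 _ hk
  by_cases hc : c = c'
  · subst hc
    have : eqE (N.P.get k).1 (a.1, a.2) = true := eqE_of_em hE.inj b1 b2 ha1 ha2 (h1.symm.trans h)
    simp_all
  · have hc' : c = !c' := by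
      cases c <;> cases c' <;> simp_all
    subst hc'
    have : eqE (N.P.get k).2 (a.1, a.2) = true := eqE_of_em hE.inj b3 b4 ha1 ha2 (h2.symm.trans h)
    simp_all

theorem cr_inj (hE : NodeEnv n E N V ι G e φ cr own) (k l : Fin N.P.length)
    (h : cr k = cr l) : k = l := by
  by_contra hkl
  obtain ⟨c, h1, h2⟩ := hE.cr k
  obtain ⟨d, g1, g2⟩ := hE.cr l
  have hk : N.P.get k ∈ N.P := List.get_mem _ _
  have hl : N.P.get l ∈ N.P := List.get_mem _ _
  obtain ⟨b1, b2, b3, b4⟩ := hE.bd _ hk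
  obtain ⟨d1, d2, d3, d4⟩ := hE.bd _ hl
  have hne := hE.ne k k.2 l l.2 (fun h => hkl (Fin.ext h))
  rw [List.getD_eq_getElem _ _ k.2, List.getD_eq_getElem _ _ l.2] at hne
  rw [h] at h1 h2
  by_cases hc : c = d
  · subst hc
    have : eqE (N.P.get k).1 (N.P.get l).1 = true :=
      eqE_of_em hE.inj b1 b2 d1 d2 (h1.symm.trans g1)
    simp_all
  · have hc' : c = !d := by
      cases c <;> cases d <;> simp_all
    subst hc'
    have : eqE (N.P.get k).1 (N.P.get l).2 = true :=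
      eqE_of_em hE.inj b1 b2 d3 d4 (h1.symm.trans g2)
    simp_all

theorem nu_inj (hE : NodeEnv n E N V ι G e φ cr own) {x y : ℕ} (hx : x < n + N.P.length)
    (hy : y < n + N.P.length) (h : nu n N φ cr x = nu n N φ cr y) : x = y := by
  by_cases h1 : x < n <;> by_cases h2 : y < n
  · rw [nu_lt h1, nu_lt h2] at h
    exact hE.inj _ h1 _ h2 (Sum.inl.inj h)
  · rw [nu_lt h1, nu_ge h2 (by omega)] at h
    exact absurd h (by simp)
  · rw [nu_lt h2, nu_ge h1 (by omega)] at h
    exact absurd h (by simp)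
  · rw [nu_ge h2 (by omega), nu_ge h1 (by omega)] at h
    have := cr_inj hE _ _ (Sum.inr.inj h)
    have := Fin.mk.inj_iff.1 this
    omega

theorem FF_disj (hE : NodeEnv n E N V ι G e φ cr own) {s t : ℕ} (hst : s ≠ t) :
    Disjoint (FF n N e φ cr own s) (FF n N e φ cr own t) := by
  rw [Set.disjoint_left]
  rintro x (⟨y, hy, hys, rfl⟩ | ⟨i, rfl, hi, a, ha, c, hc⟩) (⟨z, hz, hzt, h⟩ | ⟨j, h, hj, b, hb, d, hd⟩)
  · have := nu_inj hE hy hz h
    subst this
    exact hst (hys.symm.trans hzt)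
  · by_cases h1 : y < n
    · rw [nu_lt h1] at h
      exact absurd h (by simp)
    · rw [nu_ge h1 (by omega)] at h
      rw [← Sum.inr.inj h] at hd
      exact not_P hE hb _ _ hd
  · by_cases h1 : z < n
    · rw [nu_lt h1] at h
      exact absurd h (by simp)
    · rw [nu_ge h1 (by omega)] at h
      rw [Sum.inr.inj h] at hc
      exact not_P hE ha _ _ hc
  · have := Sum.inr.inj h
    subst this
    exact hst (hi.symm.trans hj)

theorem nu_mem {y : ℕ} (hy : y < n + N.P.length) :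
    nu n N φ cr y ∈ FF n N e φ cr own (N.bt y) := Or.inl ⟨y, hy, rfl, rfl⟩

/-- adjacency with a crossing vertex of `P` -/
theorem adj_cr (hE : NodeEnv n E N V ι G e φ cr own) {x : ℕ} (hx : x < n) (k : Fin N.P.length)
    (h : memP x (N.P.get k) = true) :
    (planarization G ι e).Adj (Sum.inl (φ x)) (Sum.inr (cr k)) := by
  obtain ⟨c, h1, h2⟩ := hE.cr k
  have hor : φ x ∈ e (cr k) c ∨ φ x ∈ e (cr k) (!c) := by
    rw [h1, h2, mem_em, mem_em]
    simp only [memP, Bool.or_eq_true, beq_iff_eq] at h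
    rcases h with ((h | h) | h) | h
    · exact Or.inl (Or.inl (by rw [h]))
    · exact Or.inl (Or.inr (by rw [h]))
    · exact Or.inr (Or.inl (by rw [h]))
    · exact Or.inr (Or.inr (by rw [h]))
  show φ x ∈ e (cr k) false ∨ φ x ∈ e (cr k) true
  cases c
  · simpa using hor
  · simpa using hor.symm

/-- the edge `(x, y)` of the partial planarization: either direct, or through a crossing -/
theorem edge_cases (hE : NodeEnv n E N V ι G e φ cr own) {x y : ℕ} (hx : x < n + N.P.length)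
    (hy : y < n + N.P.length) (hm : (x, y) ∈ N.steps ∨ (x, y) ∈ N.conns)
    (h : hadj n E N.P x y = true) :
    (planarization G ι e).Adj (nu n N φ cr x) (nu n N φ cr y) ∨
    ∃ i, (own i = N.bt x ∨ own i = N.bt y) ∧ (Sum.inr i : V ⊕ ι) ∈ FF n N e φ cr own (own i) ∧
      (planarization G ι e).Adj (nu n N φ cr x) (Sum.inr i) ∧
      (planarization G ι e).Adj (Sum.inr i) (nu n N φ cr y) := by
  by_cases h1 : x < n <;> by_cases h2 : y < n
  · have hu : (x, y) ∈ used n N := mem_used.2 ⟨hm, h1, h2⟩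
    simp only [hadj, if_pos h1, if_pos h2, Bool.and_eq_true, List.any_eq_true] at h
    obtain ⟨⟨a, ha, hae⟩, -⟩ := h
    have hadj : G.Adj (φ x) (φ y) := by
      have := hE.adj a ha
      rcases eqE_iff.1 hae with ⟨g1, g2⟩ | ⟨g1, g2⟩
      · simpa [g1, g2] using this
      · simpa [g1, g2] using this.symm
    rw [nu_lt h1, nu_lt h2]
    by_cases hc : ∃ i b, e i b = s(φ x, φ y)
    · obtain ⟨i, b, hib⟩ := hc
      right
      have ho := hE.own (x, y) hu i b hib
      refine ⟨i, ho, Or.inr ⟨i, rfl, rfl, (x, y), hu, b, hib⟩, ?_, ?_⟩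
      · show φ x ∈ e i false ∨ φ x ∈ e i true
        cases b
        · left; rw [hib]; simp
        · right; rw [hib]; simp
      · show φ y ∈ e i false ∨ φ y ∈ e i true
        cases b
        · left; rw [hib]; simp
        · right; rw [hib]; simp
    · left
      push Not at hc
      exact ⟨hadj, hc⟩
  · left
    rw [hadj, if_pos h1, if_neg h2] at h
    rw [nu_lt h1, nu_ge h2 (by omega)]
    refine adj_cr hE h1 _ ?_
    rw [List.getD_eq_getElem _ _ (by omega)] at h
    exact h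
  · left
    rw [hadj, if_neg h1, if_pos h2] at h
    rw [nu_lt h2, nu_ge h1 (by omega)]
    refine (adj_cr hE h2 _ ?_).symm
    rw [List.getD_eq_getElem _ _ (by omega)] at h
    exact h
  · rw [hadj, if_neg h1, if_neg h2] at h
    exact absurd h (by simp)

/-- steps connect -/
theorem step_RR (hE : NodeEnv n E N V ι G e φ cr own) {x y : ℕ} (hx : x < n + N.P.length)
    (hy : y < n + N.P.length) (hm : (x, y) ∈ N.steps) (hb : N.bt x = N.bt y)
    (h : hadj n E N.P x y = true) :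
    RR (planarization G ι e) (FF n N e φ cr own (N.bt x)) (nu n N φ cr x) (nu n N φ cr y) := by
  rcases edge_cases hE hx hy (Or.inl hm) h with h' | ⟨i, ho, hi, h1, h2⟩
  · exact RR.adj (nu_mem hx) (hb ▸ nu_mem hy) h'
  · have ho' : own i = N.bt x := by
      rcases ho with h | h
      · exact h
      · rw [h, hb]
    rw [ho'] at hi
    exact (RR.adj (nu_mem hx) hi h1).trans (RR.adj hi (hb ▸ nu_mem hy) h2)

theorem run_RR (hE : NodeEnv n E N V ι G e φ cr own) (l : List (ℕ × ℕ)) :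
    ∀ seen : List ℕ, (∀ s ∈ l, s ∈ N.steps) →
    (∀ y ∈ seen, y < n + N.P.length ∧ RR (planarization G ι e) (FF n N e φ cr own (N.bt y))
      (nu n N φ cr (N.roots.getD (N.bt y) 99)) (nu n N φ cr y)) →
    run n E N l seen = true → ∀ y < n + N.P.length, N.bt y < 6 →
      RR (planarization G ι e) (FF n N e φ cr own (N.bt y))
      (nu n N φ cr (N.roots.getD (N.bt y) 99)) (nu n N φ cr y) := by
  induction l with
  | nil =>
    intro seen _ hs hr y hy hy6
    simp only [run, List.all_eq_true, List.mem_range, Bool.or_eq_true, decide_eq_true_eq,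
      List.contains_iff_mem] at hr
    rcases hr y hy with h | h
    · omega
    · exact (hs y h).2
  | cons s l ih =>
    intro seen hl hs hr
    simp only [run, Bool.and_eq_true, decide_eq_true_eq, List.contains_iff_mem] at hr
    obtain ⟨⟨⟨⟨h1, h2⟩, h3⟩, h4⟩, h5⟩ := hr
    refine ih (s.2 :: seen) (fun x hx => hl x (List.mem_cons_of_mem _ hx)) ?_ h5
    intro y hy
    rcases List.mem_cons.1 hy with rfl | hy
    · refine ⟨h3, ?_⟩
      obtain ⟨g1, g2⟩ := hs _ h1
      have := step_RR hE g1 h3 (hl s (List.mem_cons_self)) h4 h2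
      rw [h4] at g2 this
      exact g2.trans this
    · exact hs y hy

theorem FF_conn (hE : NodeEnv n E N V ι G e φ cr own)
    (hroot : ∀ t < 6, N.roots.getD t 99 < n + N.P.length ∧ N.bt (N.roots.getD t 99) = t)
    (hrun : run n E N N.steps ((List.range 6).map fun t => N.roots.getD t 99) = true)
    (t : ℕ) (ht : t < 6) : ((planarization G ι e).induce (FF n N e φ cr own t)).Connected := by
  have hall := run_RR hE N.steps _ (fun s hs => hs) (by
    intro y hy
    obtain ⟨s, hs, rfl⟩ := List.mem_map.1 hy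
    obtain ⟨g1, g2⟩ := hroot s (List.mem_range.1 hs)
    refine ⟨g1, ?_⟩
    rw [g2]
    have : nu n N φ cr (N.roots.getD s 99) ∈ FF n N e φ cr own s := Or.inl ⟨_, g1, g2, rfl⟩
    exact RR.refl this) hrun
  obtain ⟨g1, g2⟩ := hroot t ht
  refine conn_of_RR (r := nu n N φ cr (N.roots.getD t 99)) (Or.inl ⟨_, g1, g2, rfl⟩) ?_
  have key : ∀ y < n + N.P.length, N.bt y = t → RR (planarization G ι e) (FF n N e φ cr own t)
      (nu n N φ cr (N.roots.getD t 99)) (nu n N φ cr y) := by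
    intro y hy hyt
    have := hall y hy (by omega)
    rw [hyt] at this
    exact this
  rintro x (⟨y, hy, hyt, rfl⟩ | ⟨i, rfl, hi, a, ha, c, hc⟩)
  · exact key y hy hyt
  · have hmem : (Sum.inr i : V ⊕ ι) ∈ FF n N e φ cr own t := Or.inr ⟨i, rfl, hi, a, ha, c, hc⟩
    obtain ⟨-, ha1, ha2⟩ := mem_used.1 ha
    have hend : ∀ y < n, φ y ∈ em φ a → N.bt y = t →
        RR (planarization G ι e) (FF n N e φ cr own t)
          (nu n N φ cr (N.roots.getD t 99)) (Sum.inr i) := by
      intro y hy hya hyt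
      have h1 := key y (by omega) hyt
      refine h1.trans (RR.adj (Or.inl ⟨y, by omega, hyt, rfl⟩) hmem ?_)
      rw [nu_lt hy]
      show φ y ∈ e i false ∨ φ y ∈ e i true
      cases c
      · left; rw [hc]; exact hya
      · right; rw [hc]; exact hya
    rcases hE.own a ha i c hc with h | h
    · exact hend a.1 ha1 (by simp [em]) (by rw [← h, hi])
    · exact hend a.2 ha2 (by simp [em]) (by rw [← h, hi])

theorem FF_adj (hE : NodeEnv n E N V ι G e φ cr own) {x y s t : ℕ} (hx : x < n + N.P.length)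
    (hy : y < n + N.P.length) (hm : (x, y) ∈ N.conns) (hs : N.bt x = s) (ht : N.bt y = t)
    (h : hadj n E N.P x y = true) :
    ∃ a ∈ FF n N e φ cr own s, ∃ b ∈ FF n N e φ cr own t, (planarization G ι e).Adj a b := by
  rcases edge_cases hE hx hy (Or.inr hm) h with h' | ⟨i, ho, hi, h1, h2⟩
  · exact ⟨_, hs ▸ nu_mem hx, _, ht ▸ nu_mem hy, h'⟩
  · rcases ho with ho | ho
    · exact ⟨Sum.inr i, by rw [ho, hs] at hi; exact hi, _, ht ▸ nu_mem hy, h2⟩
    · exact ⟨_, hs ▸ nu_mem hx, Sum.inr i, by rw [ho, ht] at hi; exact hi, h1⟩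

end

/-- the children claims exclude dangerous crossings -/
theorem kid_sound {n : ℕ} {E : List (ℕ × ℕ)} {N : Nd} {rest : List Nd} {a b : ℕ × ℕ}
    (hk : kid n E N rest a b = true) (hrest : ∀ M ∈ rest, Claim n E M.P)
    {V : Type} {G : SimpleGraph V} {ι : Type} {e : ι → Bool → Sym2 V} {φ : ℕ → V}
    (hC : Crossings G ι e) (hinj : ∀ i < n, ∀ j < n, φ i = φ j → i = j)
    (hadj' : ∀ a ∈ E, G.Adj (φ a.1) (φ a.2)) (hP : ∀ p ∈ N.P, Cr e φ p)
    (hab : Cr e φ (a, b)) : ¬ Planar (planarization G ι e) := by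
  rw [kid, List.any_eq_true] at hk
  obtain ⟨k, -, hk⟩ := hk
  rw [Bool.and_eq_true] at hk
  obtain ⟨hp, hk⟩ := hk
  rcases hM : rest[k.1]? with _ | M
  · rw [hM] at hk
    exact absurd hk (by simp)
  rw [hM] at hk
  have hMr : M ∈ rest := List.mem_of_getElem? hM
  simp only [perm, Bool.and_eq_true, decide_eq_true_eq, List.all_eq_true, List.any_eq_true] at hp
  obtain ⟨⟨⟨hl, hlt⟩, hnd⟩, hEE⟩ := hp
  simp only [List.all_eq_true, List.any_eq_true] at hk
  refine hrest M hMr V G ι e (fun i => φ (k.2.getD i 0)) hC ?_ ?_ ?_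
  · intro i hi j hj hij
    have hi' : i < k.2.length := by omega
    have hj' : j < k.2.length := by omega
    simp only [List.getD_eq_getElem _ _ hi', List.getD_eq_getElem _ _ hj'] at hij
    have := hinj _ (hlt _ (List.getElem_mem hi')) _ (hlt _ (List.getElem_mem hj')) hij
    exact (hnd.getElem_inj_iff).1 this
  · intro x hx
    obtain ⟨y, hy, hxy⟩ := hEE x hx
    have := hadj' y hy
    rcases eqE_iff.1 hxy with ⟨g1, g2⟩ | ⟨g1, g2⟩
    · simp only at g1 g2
      rw [g1, g2] at this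
      exact this
    · simp only at g1 g2
      rw [g1, g2] at this
      exact this.symm
  · intro p hp
    obtain ⟨q, hq, hqp⟩ := hk p hp
    have hcq : Cr e φ q := by
      rcases List.mem_cons.1 hq with rfl | hq
      · exact hab
      · exact hP q hq
    have := Cr_of_eqP hcq hqp
    exact this

theorem node_sound {n : ℕ} {E : List (ℕ × ℕ)} {N : Nd} {rest : List Nd}
    (h : chkNode n E N rest = true) (hrest : ∀ M ∈ rest, Claim n E M.P) : Claim n E N.P := by
  intro V G ι e φ hC hinj hadj' hP hpl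
  simp only [chkNode, Bool.and_eq_true] at h
  obtain ⟨⟨⟨⟨⟨⟨c1, c2⟩, c3⟩, c4⟩, c5⟩, c6⟩, c7⟩ := h
  -- crossing vertices
  have hcr : ∀ k : Fin N.P.length, ∃ i, ∃ c, e i c = em φ (N.P.get k).1 ∧
      e i (!c) = em φ (N.P.get k).2 := fun k => hP _ (List.get_mem _ _)
  choose cr hcr using hcr
  -- owners
  have hown : ∀ i, ∃ t, ∀ a ∈ used n N, ∀ c, e i c = em φ a → t = N.bt a.1 ∨ t = N.bt a.2 := by
    intro i
    have same : ∀ a ∈ used n N, ∀ b ∈ used n N, ∀ c, e i c = em φ a → e i c = em φ b →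
        ∀ t, (t = N.bt a.1 ∨ t = N.bt a.2) → (t = N.bt b.1 ∨ t = N.bt b.2) := by
      intro a ha b hb c hac hbc t ht
      obtain ⟨-, ha1, ha2⟩ := mem_used.1 ha
      obtain ⟨-, hb1, hb2⟩ := mem_used.1 hb
      rcases eqE_iff.1 (eqE_of_em hinj ha1 ha2 hb1 hb2 (hac.symm.trans hbc)) with ⟨g1, g2⟩ | ⟨g1, g2⟩
      · rw [g1, g2] at ht; exact ht
      · rw [g1, g2] at ht; exact ht.symm
    by_cases h0 : ∃ a ∈ used n N, e i false = em φ a
    · obtain ⟨a, ha, hia⟩ := h0
      by_cases h1 : ∃ b ∈ used n N, e i true = em φ b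
      · obtain ⟨b, hb, hib⟩ := h1
        have hs := c7
        simp only [List.all_eq_true, Bool.or_eq_true] at hs
        rcases hs a ha b hb with hs | hs
        · simp only [share, Bool.or_eq_true, decide_eq_true_eq] at hs
          have : ∃ t, (t = N.bt a.1 ∨ t = N.bt a.2) ∧ (t = N.bt b.1 ∨ t = N.bt b.2) := by
            rcases hs with ((hs | hs) | hs) | hs
            · exact ⟨_, Or.inl rfl, Or.inl hs⟩
            · exact ⟨_, Or.inl rfl, Or.inr hs⟩
            · exact ⟨_, Or.inr rfl, Or.inl hs⟩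
            · exact ⟨_, Or.inr rfl, Or.inr hs⟩
          obtain ⟨t, ht1, ht2⟩ := this
          refine ⟨t, fun x hx c hxc => ?_⟩
          cases c
          · exact same a ha x hx false hia hxc t ht1
          · exact same b hb x hx true hib hxc t ht2
        · exact absurd hpl (kid_sound hs hrest hC hinj hadj' hP ⟨i, false, hia, hib⟩)
      · push Not at h1
        refine ⟨N.bt a.1, fun x hx c hxc => ?_⟩
        cases c
        · exact same a ha x hx false hia hxc _ (Or.inl rfl)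
        · exact absurd hxc (h1 x hx)
    · push Not at h0
      by_cases h1 : ∃ b ∈ used n N, e i true = em φ b
      · obtain ⟨b, hb, hib⟩ := h1
        refine ⟨N.bt b.1, fun x hx c hxc => ?_⟩
        cases c
        · exact absurd hxc (h0 x hx)
        · exact same b hb x hx true hib hxc _ (Or.inl rfl)
      · push Not at h1
        refine ⟨0, fun x hx c hxc => ?_⟩
        cases c
        · exact absurd hxc (h0 x hx)
        · exact absurd hxc (h1 x hx)
  choose own hown using hown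
  have hE : NodeEnv n E N V ι G e φ cr own := by
    refine ⟨hC, hinj, hadj', ?_, ?_, hcr, fun a ha i c h => hown i a ha c h, ?_⟩
    · intro p hp
      simp only [List.all_eq_true, Bool.and_eq_true, decide_eq_true_eq] at c1
      obtain ⟨⟨⟨h1, h2⟩, h3⟩, h4⟩ := c1 p hp
      exact ⟨h1, h2, h3, h4⟩
    · intro i hi j hj hij
      simp only [List.all_eq_true, List.mem_range, Bool.or_eq_true, decide_eq_true_eq,
        Bool.and_eq_true, Bool.not_eq_true'] at c2
      rcases c2 i hi j hj with h | h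
      · exact absurd h hij
      · exact h
    · intro a ha
      simp only [List.all_eq_true] at c6
      exact c6 a ha
  have hroot : ∀ t < 6, N.roots.getD t 99 < n + N.P.length ∧ N.bt (N.roots.getD t 99) = t := by
    intro t ht
    simp only [List.all_eq_true, List.mem_range, Bool.and_eq_true, decide_eq_true_eq] at c3
    exact c3 t ht
  have hcon := FF_conn hE hroot c4
  refine hpl.2 ⟨fun i => FF n N e φ cr own i, fun i => FF n N e φ cr own (3 + i), ?_, ?_, ?_, ?_,
    ?_, ?_⟩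
  · intro i
    exact hcon i (by omega)
  · intro i
    exact hcon (3 + i) (by omega)
  · intro i j hij
    exact FF_disj hE (fun h => hij (Fin.ext h))
  · intro i j hij
    exact FF_disj hE (fun h => hij (Fin.ext (by omega)))
  · intro i j
    exact FF_disj hE (by omega)
  · intro i j
    simp only [List.all_eq_true, List.mem_range, List.any_eq_true, Bool.and_eq_true,
      decide_eq_true_eq] at c5
    obtain ⟨c, hc, ⟨⟨⟨h1, h2⟩, h3⟩, h4⟩, h5⟩ := c5 i i.2 j j.2
    exact FF_adj hE h2 h3 hc h4 h5 h1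

theorem chkAll_sound (n : ℕ) (E : List (ℕ × ℕ)) : ∀ l : List Nd, chkAll n E l = true →
    ∀ M ∈ l, Claim n E M.P := by
  intro l
  induction l with
  | nil =>
    intro _ M hM
    exact absurd hM (by simp)
  | cons N rest ih =>
    intro h M hM
    rw [chkAll, Bool.and_eq_true] at h
    rcases List.mem_cons.1 hM with rfl | hM
    · exact node_sound h.1 (ih h.2)
    · exact ih h.2 M hM

end Pool.Agent.Helper81.OP
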