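import Mathlib

/-!
# MP_ec87e6_co: the finite check

Subsets of a clique with at most six vertices are coded by bit masks.
-/

set_option autoImplicit false

namespace Pool.Agent.Helper81.OP

/-- the data of an attachment: mask of the attachment, types `(a, b, U)` (there is a path from
`a` to `b` through the whole branch and the vertices of the mask `U`), and the profile `h`
(digits in base 32 indexed by masks) -/
structure St where
  S : ℕ
  T : List (ℕ × ℕ × ℕ)
  h : ℕ
  deriving DecidableEq

/-- digit -/
def dig (h W : ℕ) : ℕ := (h >>> (5 * W)) % 32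

/-- number of elements of a mask -/
def pc (m : ℕ) : ℕ := ((List.range 6).filter fun i => m.testBit i).length

/-- both directions -/
def both (l : List (ℕ × ℕ × ℕ)) : List (ℕ × ℕ × ℕ) := l ++ l.map fun t => (t.2.1, t.1, t.2.2)

def st3 : St := ⟨7, both [(0, 1, 0), (0, 2, 0), (1, 2, 0)], 3 <<< 35⟩

def stA : St := ⟨15, both [(0, 1, 4), (0, 2, 2), (0, 3, 2), (0, 3, 4), (1, 2, 1), (1, 3, 1),
  (1, 3, 4), (2, 3, 1), (2, 3, 2)], 2 <<< 35 + 5 <<< 75⟩

def stB : St := ⟨15, both [(0, 1, 0), (0, 1, 4), (0, 2, 0), (0, 2, 2), (0, 3, 2), (1, 2, 0),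
  (2, 3, 2)], 2 <<< 35 + 3 <<< 75⟩

def stC : St := ⟨15, both [(0, 2, 0), (0, 3, 0), (1, 2, 0), (1, 3, 0)], 3 <<< 75⟩

def stD : St := ⟨15, both [(0, 1, 0), (0, 1, 4), (0, 1, 8), (0, 2, 2), (0, 3, 0), (0, 3, 4),
  (1, 2, 1), (1, 3, 0), (1, 3, 1), (1, 3, 4), (2, 3, 1), (2, 3, 2)],
  1 <<< 35 + 1 <<< 45 + 1 <<< 55 + 1 <<< 65 + 4 <<< 75⟩

def fours : List St := [stC, stB, stA, stD]

/-- image of a mask under a list of positions -/
def mmap (g : List ℕ) (m : ℕ) : ℕ :=
  ((List.range g.length).filter fun i => m.testBit i).foldr (fun i s => s ||| 2 ^ g.getD i 0) 0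

/-- preimage of a mask -/
def mpre (g : List ℕ) (W : ℕ) : ℕ :=
  ((List.range g.length).filter fun i => W.testBit (g.getD i 0)).foldr (fun i s => s ||| 2 ^ i) 0

/-- the state `σ` placed along the injection `g` into a clique with `q` vertices -/
def place (q : ℕ) (g : List ℕ) (σ : St) : St where
  S := mmap g σ.S
  T := σ.T.map fun t => (g.getD t.1 0, g.getD t.2.1 0, mmap g t.2.2)
  h := ((List.range (2 ^ q)).map fun W => dig σ.h (mpre g W) <<< (5 * W)).sum

/-- injective lists of length `s` with entries `< q` -/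
def injs (q : ℕ) : ℕ → List (List ℕ)
  | 0 => [[]]
  | s + 1 => (injs q s).flatMap fun l => ((List.range q).filter fun x => !l.contains x).map
      fun x => l ++ [x]

/-- increasing lists -/
def incs (q : ℕ) (s : ℕ) : List (List ℕ) := (injs q s).filter fun l => decide (l.Pairwise (· < ·))

def pl3 (q : ℕ) : List St := (incs q 3).map fun g => place q g st3
def pl4 (q : ℕ) : List St := fours.flatMap fun σ => (injs q 4).map fun g => place q g σ

/-- sum of the profiles -/
def hsum (bs : List St) (W : ℕ) : ℕ := (bs.map fun σ => dig σ.h W).sum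

/-- toughness inequalities; `R` is the mask of the root attachment (rooted case) -/
def validR (q R : ℕ) (bs : List St) : Bool :=
  (List.range (2 ^ q)).all fun W =>
    let v := hsum bs W
    let i₁ := if W + 1 = 2 ^ q then 0 else 1
    let i₂ := if R &&& W = R then 1 else 0
    let i₀ := if v = 0 then 0 else 1
    decide (i₀ + i₁ + i₂ ≤ 1) || decide (v + 3 * (i₁ + i₂) ≤ 2 * pc W)

/-- toughness inequalities, unrooted case -/
def validU (q : ℕ) (bs : List St) : Bool :=
  (List.range (2 ^ q)).all fun W =>
    let v := hsum bs W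
    if W + 1 = 2 ^ q then decide (v ≤ 2 * pc W) else
      decide (v = 0) || decide (v + 3 ≤ 2 * pc W)

/-- ways of removing one element from a list -/
def splits {α : Type} : List α → List (α × List α)
  | [] => []
  | x :: l => (x, l) :: (splits l).map fun p => (p.1, x :: p.2)

/-- is there a path from `c` to `b` which uses exactly the vertices of `rem` (`c ∉ rem`,
`b ∈ rem`) and all branches? -/
def search : ℕ → ℕ → ℕ → ℕ → List St → Bool
  | 0, _, _, _, _ => false
  | n + 1, b, c, rem, bs =>
    (decide (rem = 2 ^ b) && bs.isEmpty) ||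
    ((splits bs).any fun p => p.1.T.any fun t =>
      decide (t.1 = c) && rem.testBit t.2.1 && decide (t.2.2 &&& rem = t.2.2) &&
      !(t.2.2.testBit t.2.1) &&
      (if t.2.1 = b then decide (rem = t.2.2 ||| 2 ^ b) && p.2.isEmpty
        else search n b t.2.1 (rem ^^^ (t.2.2 ||| 2 ^ t.2.1)) p.2)) ||
    ((List.range 6).any fun y => !(decide (y = b)) && rem.testBit y &&
      search n b y (rem ^^^ 2 ^ y) bs)

/-- type `(a, b, U)` for the root mask `R` -/
def hasTy (q R : ℕ) (bs : List St) (a b U : ℕ) : Bool :=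
  search 7 b a (((2 ^ q - 1) ^^^ R) ||| U ||| 2 ^ b) bs

/-- masks below -/
def subm (R : ℕ) : List ℕ := (List.range 64).filter fun Z => decide (Z &&& R = Z)

/-- the new profile at `Y ⊆ R` -/
def newh (q R : ℕ) (bs : List St) (Y : ℕ) : ℕ :=
  ((subm ((2 ^ q - 1) ^^^ R)).map fun Z =>
    (hsum bs (Y ||| Z) + (if Y = R ∧ Z ≠ (2 ^ q - 1) ^^^ R then 3 else 0)) - 2 * pc Z).foldr max 0

/-- the piece with root mask `R` dominates the state `σ` placed along `g` -/
def domi (q R : ℕ) (bs : List St) (g : List ℕ) (σ : St) : Bool :=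
  ((List.range (2 ^ g.length)).all fun Y =>
    decide (dig σ.h Y = 0) || decide (dig σ.h Y ≤ newh q R bs (mmap g Y))) &&
  σ.T.all fun t => hasTy q R bs (g.getD t.1 0) (g.getD t.2.1 0) (mmap g t.2.2)

/-- elements of a mask -/
def elems (R : ℕ) : List ℕ := (List.range 6).filter fun i => R.testBit i

/-- root of size 3: the piece has all types -/
def ok3 (q R : ℕ) (bs : List St) : Bool := domi q R bs (elems R) st3

/-- root of size 4: the piece dominates one of the four states -/
def ok4 (q R : ℕ) (bs : List St) : Bool :=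
  fours.any fun σ => (injs q 4).any fun g => decide (mmap g 15 = R) && domi q R bs g σ

def okR (q R : ℕ) (bs : List St) : Bool := if pc R = 3 then ok3 q R bs else ok4 q R bs

/-- all placements with `q = 5` -/
def pls (q : ℕ) : List St := pl3 q ++ pl4 q

/-- all lists of branches obtained by adding at most `n` 3-branches satisfy `P` -/
def ext3 (valid P : List St → Bool) (pool3 : List St) : ℕ → List St → Bool
  | 0, bs => P bs
  | n + 1, bs => P bs && pool3.all fun σ => !(valid (σ :: bs)) ||
      ext3 valid P pool3 n (σ :: bs)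

/-- the same, with one more 4-branch -/
def ext4 (valid P : List St → Bool) (pool3 pool4 : List St) : ℕ → List St → Bool
  | 0, bs => P bs
  | n + 1, bs => ext3 valid P pool3 (n + 1) bs && pool4.all fun σ => !(valid (σ :: bs)) ||
      ext3 valid P pool3 n (σ :: bs)

/-- rooted check, root `R` of size 3, first branch of size 3 -/
def chk33 (q R : ℕ) (pool3 : List St) (σ : St) : Bool :=
  !(validR q R [σ]) || ext3 (validR q R) (ok3 q R) pool3 (2 * q / 3 - 2) [σ]

/-- rooted check, root of size 3, first branch of size 4, `q = 5` -/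
def chk34 (R : ℕ) (pool3 pool4 : List St) (σ : St) : Bool :=
  !(validR 5 R [σ]) || ext4 (validR 5 R) (ok3 5 R) pool3 pool4 1 [σ]

/-- rooted check, root of size 4, first branch of size 3 or 4, `q = 5` -/
def chk4 (R : ℕ) (pool3 : List St) (σ : St) : Bool :=
  !(validR 5 R [σ]) || ext3 (validR 5 R) (ok4 5 R) pool3 1 [σ]

/-- Hamiltonian path with adjacent ends -/
def okU (q : ℕ) (bs : List St) : Bool :=
  (List.range q).any fun a => (List.range q).any fun b =>
    decide (a ≠ b) && search 7 b a ((2 ^ q - 1) ^^^ 2 ^ a) bs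

/-- unrooted check, all branches of size 3 -/
def chkU3 (q : ℕ) (pool3 : List St) (σ : St) : Bool :=
  ext3 (validU q) (okU q) pool3 (2 * q / 3 - 1) [σ]

/-- unrooted check, first branch of size 4, `q = 5` -/
def chkU4 (pool3 pool4 : List St) (σ : St) : Bool :=
  ext4 (validU 5) (okU 5) pool3 pool4 2 [σ]

/-- masks with `s` elements -/
def masks (q s : ℕ) : List ℕ := (List.range (2 ^ q)).filter fun R => decide (pc R = s)

end Pool.Agent.Helper81.OP
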