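import Mathlib

/-!
# MP_ec87e6_co: definitions of the final statement
-/

set_option autoImplicit false

open SimpleGraph
open scoped ENNReal

namespace Pool.Agent.Helper81.OP

/-- chordal: every cycle of length at least four has a chord -/
def Chordal {V : Type} (G : SimpleGraph V) : Prop :=
  ∀ (u : V) (c : G.Walk u u), c.IsCycle → 4 ≤ c.length →
    ∃ x ∈ c.support, ∃ y ∈ c.support, G.Adj x y ∧ s(x, y) ∉ c.edges

/-- number of components of `G - X` -/
noncomputable def comps {V : Type} (G : SimpleGraph V) (X : Finset V) : ℕ :=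
  Nat.card (G.induce {v | v ∉ X}).ConnectedComponent

/-- toughness (`∞` if there is no cutset) -/
noncomputable def toughness {V : Type} (G : SimpleGraph V) : ℝ≥0∞ :=
  ⨅ (X : Finset V) (_ : X.Nonempty ∧ 1 < comps G X), (X.card : ℝ≥0∞) / (comps G X : ℝ≥0∞)

/-- planar: no `K₅` minor and no `K_{3,3}` minor -/
def Planar {W : Type} (H : SimpleGraph W) : Prop :=
  (¬ ∃ f : Fin 5 → Set W, (∀ i, (H.induce (f i)).Connected) ∧
      (∀ i j, i ≠ j → Disjoint (f i) (f j)) ∧
      (∀ i j, i ≠ j → ∃ a ∈ f i, ∃ b ∈ f j, H.Adj a b)) ∧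
  (¬ ∃ f g : Fin 3 → Set W, (∀ i, (H.induce (f i)).Connected) ∧
      (∀ i, (H.induce (g i)).Connected) ∧
      (∀ i j, i ≠ j → Disjoint (f i) (f j)) ∧ (∀ i j, i ≠ j → Disjoint (g i) (g j)) ∧
      (∀ i j, Disjoint (f i) (g j)) ∧ (∀ i j, ∃ a ∈ f i, ∃ b ∈ g j, H.Adj a b))

/-- `e i false` and `e i true` (`i : ι`) are the crossing pairs of edges of `G`: two edges of a
pair have no common end, and no edge occurs twice -/
structure Crossings {V : Type} (G : SimpleGraph V) (ι : Type) (e : ι → Bool → Sym2 V) :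
    Prop where
  edge : ∀ i b, e i b ∈ G.edgeSet
  inj : ∀ i b j c, e i b = e j c → i = j ∧ b = c
  disj : ∀ i v, ¬ (v ∈ e i false ∧ v ∈ e i true)

/-- the planarization: each crossing becomes a new vertex (of degree four) -/
def planarization {V : Type} (G : SimpleGraph V) (ι : Type) (e : ι → Bool → Sym2 V) :
    SimpleGraph (V ⊕ ι) where
  Adj x y := match x, y with
    | Sum.inl u, Sum.inl v => G.Adj u v ∧ ∀ i b, e i b ≠ s(u, v)
    | Sum.inl u, Sum.inr i => u ∈ e i false ∨ u ∈ e i true
    | Sum.inr i, Sum.inl u => u ∈ e i false ∨ u ∈ e i true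
    | Sum.inr _, Sum.inr _ => False
  symm := ⟨by
    intro x y h
    rcases x with u | i <;> rcases y with v | j
    · exact ⟨h.1.symm, fun i b => by rw [Sym2.eq_swap]; exact h.2 i b⟩
    · exact h
    · exact h
    · exact h⟩
  loopless := ⟨by
    intro x h
    rcases x with u | i
    · exact G.loopless.irrefl u h.1
    · exact h⟩

/-- 1-planar: some choice of crossing pairs has a planar planarization -/
def OnePlanar {V : Type} (G : SimpleGraph V) : Prop :=
  ∃ (ι : Type) (e : ι → Bool → Sym2 V), Crossings G ι e ∧ Planar (planarization G ι e)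

end Pool.Agent.Helper81.OP
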