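import Pool.Agent.Helper81.OP.Chk
import Pool.Agent.Helper81.OP.GDefs

/-!
# MP_ec87e6_co: definitions and statements of the modules
-/

set_option autoImplicit false

open SimpleGraph
open scoped Classical ENNReal

namespace Pool.Agent.Helper81.OP

/-! ### Families of closed sets -/

section
variable {V : Type}

/-- a family of disjoint non-empty sets without edges leaving them except to `X` -/
structure Fam (G : SimpleGraph V) (X : Finset V) (𝒜 : Finset (Finset V)) : Prop where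
  ne : ∀ A ∈ 𝒜, A.Nonempty
  dj : ∀ A ∈ 𝒜, ∀ B ∈ 𝒜, A ≠ B → Disjoint A B
  off : ∀ A ∈ 𝒜, Disjoint A X
  cl : ∀ A ∈ 𝒜, ∀ x ∈ A, ∀ y, G.Adj x y → y ∈ A ∨ y ∈ X

/-- `3/2`-tough, in terms of families -/
def Tough (G : SimpleGraph V) : Prop :=
  ∀ (X : Finset V) (𝒜 : Finset (Finset V)), Fam G X 𝒜 → 2 ≤ 𝒜.card → 3 * 𝒜.card ≤ 2 * X.card

/-- a path from `a` to `b` with vertex set exactly `X` -/
def HP (G : SimpleGraph V) (a b : V) (X : Finset V) : Prop :=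
  ∃ p : G.Walk a b, p.IsPath ∧ ∀ v, v ∈ p.support ↔ v ∈ X

/-- inside `B` one can cut off, after deleting `Y`, families with `3 |𝒜| - 2 |X| ≥ v` -/
def D (G : SimpleGraph V) (B Y : Finset V) (v : ℕ) : Prop :=
  ∃ (X : Finset V) (𝒜 : Finset (Finset V)), X ⊆ B ∧ Fam G (X ∪ Y) 𝒜 ∧ (∀ A ∈ 𝒜, A ⊆ B) ∧
    v + 2 * X.card ≤ 3 * 𝒜.card

/-- `B` is connected, `S` is a clique and the neighbourhood of `B` -/
structure Piece (G : SimpleGraph V) (B S : Finset V) : Prop where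
  conn : (G.induce (B : Set V)).Connected
  dj : Disjoint B S
  cl : ∀ s ∈ S, ∀ t ∈ S, s ≠ t → G.Adj s t
  nb : ∀ x ∈ B, ∀ y, G.Adj x y → y ∈ B ∨ y ∈ S
  fu : ∀ s ∈ S, ∃ x ∈ B, G.Adj s x

/-- image of a mask -/
noncomputable def fm (f : ℕ → V) (m : ℕ) : Finset V :=
  ((Finset.range 6).filter fun i => m.testBit i = true).image f

/-- the branch `C` realises the state `σ` along `f` -/
structure Real (G : SimpleGraph V) (f : ℕ → V) (C : Finset V) (σ : St) : Prop where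
  pc : Piece G C (fm f σ.S)
  ty : ∀ t ∈ σ.T, HP G (f t.1) (f t.2.1) (C ∪ {f t.1, f t.2.1} ∪ fm f t.2.2)
  pr : ∀ W < 64, D G C (fm f W) (dig σ.h W)

/-- union of a list -/
noncomputable def un (Cs : List (Finset V)) : Finset V := Cs.foldr (· ∪ ·) ∅

/-- a clique `f 0, ..., f (q-1)` with branches `Cs` realising the states `bs` -/
structure Conf (G : SimpleGraph V) (f : ℕ → V) (q : ℕ) (bs : List St)
    (Cs : List (Finset V)) : Prop where
  inj : ∀ i < q, ∀ j < q, f i = f j → i = j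
  adj : ∀ i < q, ∀ j < q, i ≠ j → G.Adj (f i) (f j)
  real : List.Forall₂ (fun σ C => Real G f C σ) bs Cs
  dj : Cs.Pairwise Disjoint
  off : ∀ C ∈ Cs, Disjoint C (fm f (2 ^ q - 1))

end

/-! ### Statements of the modules -/

/-- CHOR: a vertex of `B` adjacent to the whole attachment -/
def ST_CHOR : Prop := ∀ (V : Type) [Fintype V] (G : SimpleGraph V), Chordal G →
  ∀ B S : Finset V, Piece G B S → ∃ w ∈ B, ∀ s ∈ S, G.Adj w s

/-- DEC: components -/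
def ST_DEC : Prop := ∀ (V : Type) [Fintype V] (G : SimpleGraph V) (Q U : Finset V),
  (∀ s ∈ Q, ∀ t ∈ Q, s ≠ t → G.Adj s t) → Disjoint U Q →
  (∀ x ∈ U, ∀ y, G.Adj x y → y ∈ U ∨ y ∈ Q) →
  ∃ Cs : List (Finset V), un Cs = U ∧ Cs.Pairwise Disjoint ∧ ∀ C ∈ Cs, ∃ S ⊆ Q, Piece G C S

/-- TGH: toughness in terms of families -/
def ST_TGH : Prop := ∀ (V : Type) [Fintype V] (G : SimpleGraph V), 3 / 2 ≤ toughness G →
  3 ≤ Fintype.card V → Tough G

/-- SRCH: soundness of the path search -/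
def ST_SRCH : Prop := ∀ (V : Type) (G : SimpleGraph V) (f : ℕ → V) (q n b c rem : ℕ)
  (bs : List St) (Cs : List (Finset V)), q ≤ 6 → Conf G f q bs Cs → b < q → c < q →
  rem < 2 ^ q → rem.testBit c = false → search n b c rem bs = true →
  HP G (f c) (f b) (insert (f c) (fm f rem) ∪ un Cs)

/-- PROF: the profiles add up -/
def ST_PROF : Prop := ∀ (V : Type) (G : SimpleGraph V) (f : ℕ → V) (q : ℕ)
  (bs : List St) (Cs : List (Finset V)), q ≤ 6 → Conf G f q bs Cs → ∀ W < 2 ^ q,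
  D G (un Cs) (fm f W) (hsum bs W)

/-- NEWH: the new profile -/
def ST_NEWH : Prop := ∀ (V : Type) (G : SimpleGraph V) (f : ℕ → V) (q R : ℕ)
  (bs : List St) (Cs : List (Finset V)), q ≤ 6 → Conf G f q bs Cs → R < 2 ^ q →
  (∀ x ∈ fm f ((2 ^ q - 1) ^^^ R) ∪ un Cs, ∀ y, G.Adj x y →
    y ∈ fm f ((2 ^ q - 1) ^^^ R) ∪ un Cs ∨ y ∈ fm f R) →
  ∀ Y, Y &&& R = Y → D G (fm f ((2 ^ q - 1) ^^^ R) ∪ un Cs) (fm f Y) (newh q R bs Y)

/-- VAL: toughness inequalities, rooted case and unrooted case -/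
def ST_VAL : Prop := (∀ (V : Type) [Fintype V] (G : SimpleGraph V) (f : ℕ → V) (q R : ℕ)
  (bs : List St) (Cs : List (Finset V)), Tough G → q ≤ 6 → Conf G f q bs Cs → R < 2 ^ q →
  (∀ x ∈ fm f ((2 ^ q - 1) ^^^ R) ∪ un Cs, ∀ y, G.Adj x y →
    y ∈ fm f ((2 ^ q - 1) ^^^ R) ∪ un Cs ∨ y ∈ fm f R) →
  (∃ w, w ∉ fm f (2 ^ q - 1) ∪ un Cs) → validR q R bs = true) ∧
  (∀ (V : Type) [Fintype V] (G : SimpleGraph V) (f : ℕ → V) (q : ℕ)
  (bs : List St) (Cs : List (Finset V)), Tough G → 2 ≤ q → q ≤ 6 → Conf G f q bs Cs →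
  (∀ w, w ∈ fm f (2 ^ q - 1) ∪ un Cs) → validU q bs = true)

/-- PLC: placement of a 4-branch, placement of a 3-branch -/
def ST_PLC : Prop := (∀ (V : Type) (G : SimpleGraph V) (f g : ℕ → V) (C : Finset V) (σ : St),
  σ ∈ fours → (∀ i < 5, ∀ j < 5, f i = f j → i = j) → (∀ i < 4, ∀ j < 4, g i = g j → i = j) →
  fm g 15 ⊆ fm f 31 → Disjoint C (fm f 31) → Real G g C σ →
  (∃ σ' ∈ pl4 5, Real G f C σ') ∧
  ((∀ i < 4, f i = g i) → Real G f C (place 5 [0, 1, 2, 3] σ))) ∧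
  (∀ (V : Type) (G : SimpleGraph V) (f g : ℕ → V) (q : ℕ) (C : Finset V),
  4 ≤ q → q ≤ 6 → (∀ i < q, ∀ j < q, f i = f j → i = j) →
  (∀ i < 3, ∀ j < 3, g i = g j → i = j) → fm g 7 ⊆ fm f (2 ^ q - 1) →
  Disjoint C (fm f (2 ^ q - 1)) → Real G g C st3 →
  (∃ σ' ∈ pl3 q, Real G f C σ') ∧
  ((∀ i < 3, f i = g i) → Real G f C (place q [0, 1, 2] st3)))

/-- DOM: the piece realises the dominated state -/
def ST_DOM : Prop := ∀ (V : Type) (G : SimpleGraph V) (f : ℕ → V) (q R : ℕ)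
  (bs : List St) (Cs : List (Finset V)) (g : List ℕ) (σ : St), q ≤ 6 → Conf G f q bs Cs →
  R < 2 ^ q → Piece G (fm f ((2 ^ q - 1) ^^^ R) ∪ un Cs) (fm f R) →
  (σ = st3 ∧ g.length = 3 ∨ σ ∈ fours ∧ g.length = 4) → g.Nodup → (∀ x ∈ g, x < q) →
  mmap g σ.S = R → domi q R bs g σ = true →
  Real G (fun i => f (g.getD i 0)) (fm f ((2 ^ q - 1) ^^^ R) ∪ un Cs) σ

end Pool.Agent.Helper81.OP
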