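import Pool.Agent.Helper81.OP.MainD
import Pool.Agent.Helper84.OPC.Defs

/-!
# MP_ec87e6_co: the final theorem
-/

set_option autoImplicit false

open SimpleGraph
open scoped ENNReal

namespace Pool.Agent.Helper81.OP

theorem comps_le {V : Type} [Fintype V] [DecidableEq V] (G : SimpleGraph V) (X : Finset V) :
    comps G X ≤ Fintype.card V - X.card := by
  have h1 : comps G X ≤ Nat.card {v | v ∉ X} :=
    Nat.card_le_card_of_surjective (G.induce {v | v ∉ X}).connectedComponentMk
      Quot.mk_surjective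
  refine h1.trans ?_
  rw [Nat.card_coe_set_eq]
  have h2 : {v | v ∉ X} = ((Xᶜ : Finset V) : Set V) := by
    ext v
    simp
  rw [h2, Set.ncard_coe_finset, Finset.card_compl]

theorem card_of_toughness {V : Type} [Fintype V] (G : SimpleGraph V)
    (h : toughness G ≠ ⊤) : 3 ≤ Fintype.card V := by
  classical
  by_contra hc
  apply h
  rw [toughness, iInf_eq_top]
  intro X
  rw [iInf_eq_top]
  rintro ⟨h1, h2⟩
  have := comps_le G X
  have := Finset.card_pos.2 h1
  omega

/-- the main theorem, with the forbidden subgraphs as hypotheses -/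
theorem ham_of_no (hM : Mods) (hT : ST_TGH) (V : Type) [Fintype V] [DecidableEq V]
    (G : SimpleGraph V) (hA : NoA G) (hB : NoB G) (h2 : Chordal G) (h3 : 3 / 2 ≤ toughness G)
    (hn : 3 ≤ Fintype.card V) : G.IsHamiltonian := by
  have hE : Env G := ⟨h2, hT V G h3 hn, hA, hB⟩
  intro _
  obtain ⟨a, p, hp⟩ := main_ham hM hE hn
  refine ⟨a, p, ?_⟩
  have e : ∀ i j : DecidableEq V, @Walk.IsHamiltonianCycle V i G a p →
      @Walk.IsHamiltonianCycle V j G a p := fun i j h => Subsingleton.elim i j ▸ h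
  exact e _ _ hp

theorem noA_of_NoK {V : Type} [Fintype V] [DecidableEq V] {G : SimpleGraph V}
    (h : OPC.NoK G) : NoA G := by
  intro φ hφ ha
  have c1 : ∀ i j : Fin 4, i ≠ j → ((i.1, j.1) ∈ eA ∨ (j.1, i.1) ∈ eA) := by decide
  have c2 : ∀ (i : Fin 3) (j : Fin 4), (j.1, 4 + i.1) ∈ eA := by decide
  refine h (fun i => φ i.1) (fun i => φ (4 + i.1)) ?_ ?_ ?_ ?_
  · intro i j hij
    exact Fin.ext (hφ _ (by omega) _ (by omega) hij)
  · intro i j hij
    have := hφ _ (by omega) _ (by omega) hij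
    exact Fin.ext (by omega)
  · intro i j hij
    rcases c1 i j hij with hh | hh
    · exact ha _ hh
    · exact (ha _ hh).symm
  · intro i j
    exact (ha _ (c2 i j)).symm

theorem noB_of_NoW {V : Type} [Fintype V] [DecidableEq V] {G : SimpleGraph V}
    (h : OPC.NoW G) : NoB G := by
  intro φ hφ ha
  have c1 : ∀ i j : Fin 5, i ≠ j → ((i.1, j.1) ∈ eB ∨ (j.1, i.1) ∈ eB) := by decide
  have c2 : ∀ (i : Fin 3) (j : Fin 5), j ≠ ![4, 3, 2] i → (j.1, 5 + i.1) ∈ eB := by decide
  refine h (fun i => φ i.1) (fun i => φ (5 + i.1)) ![4, 3, 2] ?_ ?_ ?_ ?_ ?_ ?_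
  · intro i j hij
    exact Fin.ext (hφ _ (by omega) _ (by omega) hij)
  · intro i j hij
    have := hφ _ (by omega) _ (by omega) hij
    exact Fin.ext (by omega)
  · decide
  · intro i j hij
    rcases c1 i j hij with hh | hh
    · exact ha _ hh
    · exact (ha _ hh).symm
  · intro i j hij
    have := hφ _ (by omega) _ (by omega) hij
    omega
  · intro i j hij
    exact (ha _ (c2 i j hij)).symm

theorem ham_OPC_of (hM : Mods) (hT : ST_TGH) (V : Type) [Fintype V] [DecidableEq V]
    (G : SimpleGraph V) (h1 : OPC.Chordal G) (h2 : 3 / 2 ≤ OPC.toughness G)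
    (h3 : 3 ≤ Fintype.card V) (h4 : OPC.NoK G) (h5 : OPC.NoW G) : G.IsHamiltonian :=
  ham_of_no hM hT V G (noA_of_NoK h4) (noB_of_NoW h5) h1 h2 h3

end Pool.Agent.Helper81.OP
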