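import Pool.Agent.Helper81.OP.Lit

/-!
# MP_ec87e6_co: kernel checks, part KerA
-/

set_option autoImplicit false
set_option maxRecDepth 100000

namespace Pool.Agent.Helper81.OP

theorem k1_4 : ((masks 4 3).all fun R => ok3 4 R []) = true := by decide +kernel
theorem k1_5 : ((masks 5 3).all fun R => ok3 5 R []) = true := by decide +kernel
theorem k1_6 : ((masks 6 3).all fun R => ok3 6 R []) = true := by decide +kernel
theorem k2 : ((masks 5 4).all fun R => ok4 5 R []) = true := by decide +kernel
theorem k3_4 : ((masks 4 3).all fun R => chk33 4 R (pl3 4) (place 4 [0, 1, 2] st3)) = true := by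
  decide +kernel
theorem k6_4 : chkU3 4 (pl3 4) (place 4 [0, 1, 2] st3) = true := by decide +kernel
theorem k3_5 : ((masks 5 3).all fun R => chk33 5 R (pl3 5) (place 5 [0, 1, 2] st3)) = true := by
  decide +kernel
theorem k6_5 : chkU3 5 (pl3 5) (place 5 [0, 1, 2] st3) = true := by decide +kernel
theorem k3_6_0 : (((masks 6 3).drop (5 * 0)).take 5).all (fun R =>
    chk33 6 R (pl3 6) (place 6 [0, 1, 2] st3)) = true := by
  decide +kernel
theorem k3_6_1 : (((masks 6 3).drop (5 * 1)).take 5).all (fun R =>
    chk33 6 R (pl3 6) (place 6 [0, 1, 2] st3)) = true := by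
  decide +kernel
theorem k3_6_2 : (((masks 6 3).drop (5 * 2)).take 5).all (fun R =>
    chk33 6 R (pl3 6) (place 6 [0, 1, 2] st3)) = true := by
  decide +kernel
theorem k3_6_3 : (((masks 6 3).drop (5 * 3)).take 5).all (fun R =>
    chk33 6 R (pl3 6) (place 6 [0, 1, 2] st3)) = true := by
  decide +kernel

end Pool.Agent.Helper81.OP
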