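import Pool.Agent.Helper81.OP.Lit

/-!
# MP_ec87e6_co: kernel checks, part KerA6
-/

set_option autoImplicit false
set_option maxRecDepth 100000

namespace Pool.Agent.Helper81.OP

theorem k6_6_x : okU 6 [place 6 [0, 1, 2] st3] = true := by decide +kernel
theorem k6_6_0 : (((pl3 6).drop (5 * 0)).take 5).all (fun τ =>
    !(validU 6 (τ :: [place 6 [0, 1, 2] st3])) ||
    ext3 (validU 6) (okU 6) (pl3 6) 2 (τ :: [place 6 [0, 1, 2] st3])) = true := by
  decide +kernel
theorem k6_6_1 : (((pl3 6).drop (5 * 1)).take 5).all (fun τ =>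
    !(validU 6 (τ :: [place 6 [0, 1, 2] st3])) ||
    ext3 (validU 6) (okU 6) (pl3 6) 2 (τ :: [place 6 [0, 1, 2] st3])) = true := by
  decide +kernel
theorem k6_6_2 : (((pl3 6).drop (5 * 2)).take 5).all (fun τ =>
    !(validU 6 (τ :: [place 6 [0, 1, 2] st3])) ||
    ext3 (validU 6) (okU 6) (pl3 6) 2 (τ :: [place 6 [0, 1, 2] st3])) = true := by
  decide +kernel
theorem k6_6_3 : (((pl3 6).drop (5 * 3)).take 5).all (fun τ =>
    !(validU 6 (τ :: [place 6 [0, 1, 2] st3])) ||
    ext3 (validU 6) (okU 6) (pl3 6) 2 (τ :: [place 6 [0, 1, 2] st3])) = true := by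
  decide +kernel

end Pool.Agent.Helper81.OP
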