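import Pool.Agent.Helper81.OP.Lit

/-!
# MP_ec87e6_co: kernel checks, part KerB
-/

set_option autoImplicit false
set_option maxRecDepth 100000

namespace Pool.Agent.Helper81.OP

theorem k5_stC : ((masks 5 4).all fun R => chk4 R lit3 (place 5 [0, 1, 2, 3] stC)) = true := by
  decide +kernel
theorem k5_stB : ((masks 5 4).all fun R => chk4 R lit3 (place 5 [0, 1, 2, 3] stB)) = true := by
  decide +kernel
theorem k5_stA : ((masks 5 4).all fun R => chk4 R lit3 (place 5 [0, 1, 2, 3] stA)) = true := by
  decide +kernel
theorem k5_stD : ((masks 5 4).all fun R => chk4 R lit3 (place 5 [0, 1, 2, 3] stD)) = true := by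
  decide +kernel
theorem k5_st3 : ((masks 5 4).all fun R => chk4 R lit3 (place 5 [0, 1, 2] st3)) = true := by
  decide +kernel

end Pool.Agent.Helper81.OP
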