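import Pool.Agent.Helper81.OP.Lit

/-!
# MP_ec87e6_co: kernel checks, part KerC14
-/

set_option autoImplicit false
set_option maxRecDepth 100000

namespace Pool.Agent.Helper81.OP

theorem k4_stB_26_x : ext3 (validR 5 26) (ok3 5 26) lit3 1 [place 5 [0, 1, 2, 3] stB] = true := by
  decide +kernel
theorem k4_stB_26_0 : chunk (validR 5 26) (ok3 5 26) lit3 lit4 0 (place 5 [0, 1, 2, 3] stB) 0 120 = true := by
  decide +kernel
theorem k4_stB_26_1 : chunk (validR 5 26) (ok3 5 26) lit3 lit4 0 (place 5 [0, 1, 2, 3] stB) 1 120 = true := by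
  decide +kernel
theorem k4_stB_26_2 : chunk (validR 5 26) (ok3 5 26) lit3 lit4 0 (place 5 [0, 1, 2, 3] stB) 2 120 = true := by
  decide +kernel
theorem k4_stB_26_3 : chunk (validR 5 26) (ok3 5 26) lit3 lit4 0 (place 5 [0, 1, 2, 3] stB) 3 120 = true := by
  decide +kernel
theorem k4_stB_28_x : ext3 (validR 5 28) (ok3 5 28) lit3 1 [place 5 [0, 1, 2, 3] stB] = true := by
  decide +kernel
theorem k4_stB_28_0 : chunk (validR 5 28) (ok3 5 28) lit3 lit4 0 (place 5 [0, 1, 2, 3] stB) 0 120 = true := by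
  decide +kernel
theorem k4_stB_28_1 : chunk (validR 5 28) (ok3 5 28) lit3 lit4 0 (place 5 [0, 1, 2, 3] stB) 1 120 = true := by
  decide +kernel
theorem k4_stB_28_2 : chunk (validR 5 28) (ok3 5 28) lit3 lit4 0 (place 5 [0, 1, 2, 3] stB) 2 120 = true := by
  decide +kernel
theorem k4_stB_28_3 : chunk (validR 5 28) (ok3 5 28) lit3 lit4 0 (place 5 [0, 1, 2, 3] stB) 3 120 = true := by
  decide +kernel

end Pool.Agent.Helper81.OP
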