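import Pool.Agent.Helper81.OP.Lit

/-!
# MP_ec87e6_co: kernel checks, part KerC30
-/

set_option autoImplicit false
set_option maxRecDepth 100000

namespace Pool.Agent.Helper81.OP

theorem k4_stD_7_v : validR 5 7 [place 5 [0, 1, 2, 3] stD] = false := by
  decide +kernel
theorem k4_stD_11_v : validR 5 11 [place 5 [0, 1, 2, 3] stD] = false := by
  decide +kernel

end Pool.Agent.Helper81.OP
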