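import Pool.Agent.Helper81.OP.Lit

/-!
# MP_ec87e6_co: kernel checks, part KerC32
-/

set_option autoImplicit false
set_option maxRecDepth 100000

namespace Pool.Agent.Helper81.OP

theorem k4_stD_19_x : ext3 (validR 5 19) (ok3 5 19) lit3 1 [place 5 [0, 1, 2, 3] stD] = true := by
  decide +kernel
theorem k4_stD_19_0 : chunk (validR 5 19) (ok3 5 19) lit3 lit4 0 (place 5 [0, 1, 2, 3] stD) 0 120 = true := by
  decide +kernel
theorem k4_stD_19_1 : chunk (validR 5 19) (ok3 5 19) lit3 lit4 0 (place 5 [0, 1, 2, 3] stD) 1 120 = true := by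
  decide +kernel
theorem k4_stD_19_2 : chunk (validR 5 19) (ok3 5 19) lit3 lit4 0 (place 5 [0, 1, 2, 3] stD) 2 120 = true := by
  decide +kernel
theorem k4_stD_19_3 : chunk (validR 5 19) (ok3 5 19) lit3 lit4 0 (place 5 [0, 1, 2, 3] stD) 3 120 = true := by
  decide +kernel
theorem k4_stD_21_x : ext3 (validR 5 21) (ok3 5 21) lit3 1 [place 5 [0, 1, 2, 3] stD] = true := by
  decide +kernel
theorem k4_stD_21_0 : chunk (validR 5 21) (ok3 5 21) lit3 lit4 0 (place 5 [0, 1, 2, 3] stD) 0 120 = true := by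
  decide +kernel
theorem k4_stD_21_1 : chunk (validR 5 21) (ok3 5 21) lit3 lit4 0 (place 5 [0, 1, 2, 3] stD) 1 120 = true := by
  decide +kernel
theorem k4_stD_21_2 : chunk (validR 5 21) (ok3 5 21) lit3 lit4 0 (place 5 [0, 1, 2, 3] stD) 2 120 = true := by
  decide +kernel
theorem k4_stD_21_3 : chunk (validR 5 21) (ok3 5 21) lit3 lit4 0 (place 5 [0, 1, 2, 3] stD) 3 120 = true := by
  decide +kernel

end Pool.Agent.Helper81.OP
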