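import Pool.Agent.Helper81.OP.Lit

/-!
# MP_ec87e6_co: kernel checks, part KerU22
-/

set_option autoImplicit false
set_option maxRecDepth 100000

namespace Pool.Agent.Helper81.OP

theorem k7_stA_8 : chunk (validU 5) (okU 5) lit3 lit4 1 (place 5 [0, 1, 2, 3] stA) 8 30 = true := by
  decide +kernel
theorem k7_stA_9 : chunk (validU 5) (okU 5) lit3 lit4 1 (place 5 [0, 1, 2, 3] stA) 9 30 = true := by
  decide +kernel
theorem k7_stA_10 : chunk (validU 5) (okU 5) lit3 lit4 1 (place 5 [0, 1, 2, 3] stA) 10 30 = true := by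
  decide +kernel
theorem k7_stA_11 : chunk (validU 5) (okU 5) lit3 lit4 1 (place 5 [0, 1, 2, 3] stA) 11 30 = true := by
  decide +kernel

end Pool.Agent.Helper81.OP
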