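import Pool.Agent.Helper81.OP.Lit
import Pool.Agent.Helper81.OP.KerA
import Pool.Agent.Helper81.OP.KerA6
import Pool.Agent.Helper81.OP.KerC00
import Pool.Agent.Helper81.OP.KerC01
import Pool.Agent.Helper81.OP.KerC02
import Pool.Agent.Helper81.OP.KerC03
import Pool.Agent.Helper81.OP.KerC04
import Pool.Agent.Helper81.OP.KerC10
import Pool.Agent.Helper81.OP.KerC11
import Pool.Agent.Helper81.OP.KerC12
import Pool.Agent.Helper81.OP.KerC13
import Pool.Agent.Helper81.OP.KerC14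
import Pool.Agent.Helper81.OP.KerC20
import Pool.Agent.Helper81.OP.KerC21
import Pool.Agent.Helper81.OP.KerC22
import Pool.Agent.Helper81.OP.KerC23
import Pool.Agent.Helper81.OP.KerC24
import Pool.Agent.Helper81.OP.KerC30
import Pool.Agent.Helper81.OP.KerC31
import Pool.Agent.Helper81.OP.KerC32
import Pool.Agent.Helper81.OP.KerC33
import Pool.Agent.Helper81.OP.KerC34
import Pool.Agent.Helper81.OP.KerU00
import Pool.Agent.Helper81.OP.KerU01
import Pool.Agent.Helper81.OP.KerU02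
import Pool.Agent.Helper81.OP.KerU03
import Pool.Agent.Helper81.OP.KerU10
import Pool.Agent.Helper81.OP.KerU11
import Pool.Agent.Helper81.OP.KerU12
import Pool.Agent.Helper81.OP.KerU13
import Pool.Agent.Helper81.OP.KerU20
import Pool.Agent.Helper81.OP.KerU21
import Pool.Agent.Helper81.OP.KerU22
import Pool.Agent.Helper81.OP.KerU23
import Pool.Agent.Helper81.OP.KerU30
import Pool.Agent.Helper81.OP.KerU31
import Pool.Agent.Helper81.OP.KerU32
import Pool.Agent.Helper81.OP.KerU33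

/-!
# MP_ec87e6_co: kernel checks, assembly
-/

set_option autoImplicit false

namespace Pool.Agent.Helper81.OP

theorem chunks {α : Type} {l : List α} {p : α → Bool} (k n : ℕ) (hk : 0 < k)
    (hl : l.length ≤ k * n) (h : ∀ i < n, ((l.drop (k * i)).take k).all p = true) :
    l.all p = true := by
  rw [List.all_eq_true]
  intro x hx
  obtain ⟨j, hj, rfl⟩ := List.getElem_of_mem hx
  have h0 : j / k < n := by
    rw [Nat.div_lt_iff_lt_mul hk, Nat.mul_comm]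
    omega
  have hi := List.all_eq_true.1 (h (j / k) h0)
  apply hi
  rw [List.mem_iff_getElem]
  have h1 : j % k < k := Nat.mod_lt _ hk
  have h2 : k * (j / k) + j % k = j := Nat.div_add_mod _ _
  refine ⟨j % k, by rw [List.length_take, List.length_drop]; omega, ?_⟩
  rw [List.getElem_take, List.getElem_drop]
  congr 1

theorem lit4_len : lit4.length ≤ 480 := by decide +kernel

theorem mk34 {R : ℕ} {σ : St} (h0 : ext3 (validR 5 R) (ok3 5 R) lit3 1 [σ] = true)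
    (h1 : chunk (validR 5 R) (ok3 5 R) lit3 lit4 0 σ 0 120 = true)
    (h2 : chunk (validR 5 R) (ok3 5 R) lit3 lit4 0 σ 1 120 = true)
    (h3 : chunk (validR 5 R) (ok3 5 R) lit3 lit4 0 σ 2 120 = true)
    (h4 : chunk (validR 5 R) (ok3 5 R) lit3 lit4 0 σ 3 120 = true) :
    chk34 R lit3 lit4 σ = true := by
  rw [chk34, Bool.or_eq_true]
  right
  rw [ext4, Bool.and_eq_true]
  refine ⟨h0, chunks 120 4 (by norm_num) lit4_len ?_⟩
  intro i hi
  interval_cases i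
  · exact h1
  · exact h2
  · exact h3
  · exact h4

theorem mk34v {R : ℕ} {σ : St} (h : validR 5 R [σ] = false) :
    chk34 R lit3 lit4 σ = true := by
  rw [chk34, h]
  rfl

theorem mkU4 {σ : St} (h0 : ext3 (validU 5) (okU 5) lit3 2 [σ] = true)
    (h : ∀ i < 16, chunk (validU 5) (okU 5) lit3 lit4 1 σ i 30 = true) :
    chkU4 lit3 lit4 σ = true := by
  rw [chkU4, ext4, Bool.and_eq_true]
  exact ⟨h0, chunks 30 16 (by norm_num) lit4_len h⟩

theorem k3_6 : ((masks 6 3).all fun R => chk33 6 R (pl3 6) (place 6 [0, 1, 2] st3)) = true := by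
  refine chunks 5 4 (by norm_num) (by decide +kernel) ?_
  intro i hi
  interval_cases i
  · exact k3_6_0
  · exact k3_6_1
  · exact k3_6_2
  · exact k3_6_3

theorem k6_6 : chkU3 6 (pl3 6) (place 6 [0, 1, 2] st3) = true := by
  show ext3 (validU 6) (okU 6) (pl3 6) 3 [place 6 [0, 1, 2] st3] = true
  rw [ext3, Bool.and_eq_true]
  refine ⟨k6_6_x, chunks 5 4 (by norm_num) (by decide +kernel) ?_⟩
  intro i hi
  interval_cases i
  · exact k6_6_0
  · exact k6_6_1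
  · exact k6_6_2
  · exact k6_6_3

theorem k4_stC_7 : chk34 7 lit3 lit4 (place 5 [0, 1, 2, 3] stC) = true :=
  mk34v k4_stC_7_v
theorem k4_stC_11 : chk34 11 lit3 lit4 (place 5 [0, 1, 2, 3] stC) = true :=
  mk34v k4_stC_11_v
theorem k4_stC_13 : chk34 13 lit3 lit4 (place 5 [0, 1, 2, 3] stC) = true :=
  mk34v k4_stC_13_v
theorem k4_stC_14 : chk34 14 lit3 lit4 (place 5 [0, 1, 2, 3] stC) = true :=
  mk34v k4_stC_14_v
theorem k4_stC_19 : chk34 19 lit3 lit4 (place 5 [0, 1, 2, 3] stC) = true :=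
  mk34 k4_stC_19_x k4_stC_19_0 k4_stC_19_1 k4_stC_19_2 k4_stC_19_3
theorem k4_stC_21 : chk34 21 lit3 lit4 (place 5 [0, 1, 2, 3] stC) = true :=
  mk34 k4_stC_21_x k4_stC_21_0 k4_stC_21_1 k4_stC_21_2 k4_stC_21_3
theorem k4_stC_22 : chk34 22 lit3 lit4 (place 5 [0, 1, 2, 3] stC) = true :=
  mk34 k4_stC_22_x k4_stC_22_0 k4_stC_22_1 k4_stC_22_2 k4_stC_22_3
theorem k4_stC_25 : chk34 25 lit3 lit4 (place 5 [0, 1, 2, 3] stC) = true :=
  mk34 k4_stC_25_x k4_stC_25_0 k4_stC_25_1 k4_stC_25_2 k4_stC_25_3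
theorem k4_stC_26 : chk34 26 lit3 lit4 (place 5 [0, 1, 2, 3] stC) = true :=
  mk34 k4_stC_26_x k4_stC_26_0 k4_stC_26_1 k4_stC_26_2 k4_stC_26_3
theorem k4_stC_28 : chk34 28 lit3 lit4 (place 5 [0, 1, 2, 3] stC) = true :=
  mk34 k4_stC_28_x k4_stC_28_0 k4_stC_28_1 k4_stC_28_2 k4_stC_28_3
theorem k4_stB_7 : chk34 7 lit3 lit4 (place 5 [0, 1, 2, 3] stB) = true :=
  mk34v k4_stB_7_v
theorem k4_stB_11 : chk34 11 lit3 lit4 (place 5 [0, 1, 2, 3] stB) = true :=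
  mk34v k4_stB_11_v
theorem k4_stB_13 : chk34 13 lit3 lit4 (place 5 [0, 1, 2, 3] stB) = true :=
  mk34v k4_stB_13_v
theorem k4_stB_14 : chk34 14 lit3 lit4 (place 5 [0, 1, 2, 3] stB) = true :=
  mk34v k4_stB_14_v
theorem k4_stB_19 : chk34 19 lit3 lit4 (place 5 [0, 1, 2, 3] stB) = true :=
  mk34 k4_stB_19_x k4_stB_19_0 k4_stB_19_1 k4_stB_19_2 k4_stB_19_3
theorem k4_stB_21 : chk34 21 lit3 lit4 (place 5 [0, 1, 2, 3] stB) = true :=
  mk34 k4_stB_21_x k4_stB_21_0 k4_stB_21_1 k4_stB_21_2 k4_stB_21_3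
theorem k4_stB_22 : chk34 22 lit3 lit4 (place 5 [0, 1, 2, 3] stB) = true :=
  mk34 k4_stB_22_x k4_stB_22_0 k4_stB_22_1 k4_stB_22_2 k4_stB_22_3
theorem k4_stB_25 : chk34 25 lit3 lit4 (place 5 [0, 1, 2, 3] stB) = true :=
  mk34 k4_stB_25_x k4_stB_25_0 k4_stB_25_1 k4_stB_25_2 k4_stB_25_3
theorem k4_stB_26 : chk34 26 lit3 lit4 (place 5 [0, 1, 2, 3] stB) = true :=
  mk34 k4_stB_26_x k4_stB_26_0 k4_stB_26_1 k4_stB_26_2 k4_stB_26_3
theorem k4_stB_28 : chk34 28 lit3 lit4 (place 5 [0, 1, 2, 3] stB) = true :=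
  mk34 k4_stB_28_x k4_stB_28_0 k4_stB_28_1 k4_stB_28_2 k4_stB_28_3
theorem k4_stA_7 : chk34 7 lit3 lit4 (place 5 [0, 1, 2, 3] stA) = true :=
  mk34v k4_stA_7_v
theorem k4_stA_11 : chk34 11 lit3 lit4 (place 5 [0, 1, 2, 3] stA) = true :=
  mk34v k4_stA_11_v
theorem k4_stA_13 : chk34 13 lit3 lit4 (place 5 [0, 1, 2, 3] stA) = true :=
  mk34v k4_stA_13_v
theorem k4_stA_14 : chk34 14 lit3 lit4 (place 5 [0, 1, 2, 3] stA) = true :=
  mk34v k4_stA_14_v
theorem k4_stA_19 : chk34 19 lit3 lit4 (place 5 [0, 1, 2, 3] stA) = true :=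
  mk34 k4_stA_19_x k4_stA_19_0 k4_stA_19_1 k4_stA_19_2 k4_stA_19_3
theorem k4_stA_21 : chk34 21 lit3 lit4 (place 5 [0, 1, 2, 3] stA) = true :=
  mk34 k4_stA_21_x k4_stA_21_0 k4_stA_21_1 k4_stA_21_2 k4_stA_21_3
theorem k4_stA_22 : chk34 22 lit3 lit4 (place 5 [0, 1, 2, 3] stA) = true :=
  mk34 k4_stA_22_x k4_stA_22_0 k4_stA_22_1 k4_stA_22_2 k4_stA_22_3
theorem k4_stA_25 : chk34 25 lit3 lit4 (place 5 [0, 1, 2, 3] stA) = true :=
  mk34 k4_stA_25_x k4_stA_25_0 k4_stA_25_1 k4_stA_25_2 k4_stA_25_3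
theorem k4_stA_26 : chk34 26 lit3 lit4 (place 5 [0, 1, 2, 3] stA) = true :=
  mk34 k4_stA_26_x k4_stA_26_0 k4_stA_26_1 k4_stA_26_2 k4_stA_26_3
theorem k4_stA_28 : chk34 28 lit3 lit4 (place 5 [0, 1, 2, 3] stA) = true :=
  mk34 k4_stA_28_x k4_stA_28_0 k4_stA_28_1 k4_stA_28_2 k4_stA_28_3
theorem k4_stD_7 : chk34 7 lit3 lit4 (place 5 [0, 1, 2, 3] stD) = true :=
  mk34v k4_stD_7_v
theorem k4_stD_11 : chk34 11 lit3 lit4 (place 5 [0, 1, 2, 3] stD) = true :=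
  mk34v k4_stD_11_v
theorem k4_stD_13 : chk34 13 lit3 lit4 (place 5 [0, 1, 2, 3] stD) = true :=
  mk34v k4_stD_13_v
theorem k4_stD_14 : chk34 14 lit3 lit4 (place 5 [0, 1, 2, 3] stD) = true :=
  mk34v k4_stD_14_v
theorem k4_stD_19 : chk34 19 lit3 lit4 (place 5 [0, 1, 2, 3] stD) = true :=
  mk34 k4_stD_19_x k4_stD_19_0 k4_stD_19_1 k4_stD_19_2 k4_stD_19_3
theorem k4_stD_21 : chk34 21 lit3 lit4 (place 5 [0, 1, 2, 3] stD) = true :=
  mk34 k4_stD_21_x k4_stD_21_0 k4_stD_21_1 k4_stD_21_2 k4_stD_21_3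
theorem k4_stD_22 : chk34 22 lit3 lit4 (place 5 [0, 1, 2, 3] stD) = true :=
  mk34 k4_stD_22_x k4_stD_22_0 k4_stD_22_1 k4_stD_22_2 k4_stD_22_3
theorem k4_stD_25 : chk34 25 lit3 lit4 (place 5 [0, 1, 2, 3] stD) = true :=
  mk34v k4_stD_25_v
theorem k4_stD_26 : chk34 26 lit3 lit4 (place 5 [0, 1, 2, 3] stD) = true :=
  mk34 k4_stD_26_x k4_stD_26_0 k4_stD_26_1 k4_stD_26_2 k4_stD_26_3
theorem k4_stD_28 : chk34 28 lit3 lit4 (place 5 [0, 1, 2, 3] stD) = true :=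
  mk34 k4_stD_28_x k4_stD_28_0 k4_stD_28_1 k4_stD_28_2 k4_stD_28_3
theorem k7_stC : chkU4 lit3 lit4 (place 5 [0, 1, 2, 3] stC) = true := by
  refine mkU4 k7_stC_x ?_
  intro i hi
  interval_cases i
  · exact k7_stC_0
  · exact k7_stC_1
  · exact k7_stC_2
  · exact k7_stC_3
  · exact k7_stC_4
  · exact k7_stC_5
  · exact k7_stC_6
  · exact k7_stC_7
  · exact k7_stC_8
  · exact k7_stC_9
  · exact k7_stC_10
  · exact k7_stC_11
  · exact k7_stC_12
  · exact k7_stC_13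
  · exact k7_stC_14
  · exact k7_stC_15
theorem k7_stB : chkU4 lit3 lit4 (place 5 [0, 1, 2, 3] stB) = true := by
  refine mkU4 k7_stB_x ?_
  intro i hi
  interval_cases i
  · exact k7_stB_0
  · exact k7_stB_1
  · exact k7_stB_2
  · exact k7_stB_3
  · exact k7_stB_4
  · exact k7_stB_5
  · exact k7_stB_6
  · exact k7_stB_7
  · exact k7_stB_8
  · exact k7_stB_9
  · exact k7_stB_10
  · exact k7_stB_11
  · exact k7_stB_12
  · exact k7_stB_13
  · exact k7_stB_14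
  · exact k7_stB_15
theorem k7_stA : chkU4 lit3 lit4 (place 5 [0, 1, 2, 3] stA) = true := by
  refine mkU4 k7_stA_x ?_
  intro i hi
  interval_cases i
  · exact k7_stA_0
  · exact k7_stA_1
  · exact k7_stA_2
  · exact k7_stA_3
  · exact k7_stA_4
  · exact k7_stA_5
  · exact k7_stA_6
  · exact k7_stA_7
  · exact k7_stA_8
  · exact k7_stA_9
  · exact k7_stA_10
  · exact k7_stA_11
  · exact k7_stA_12
  · exact k7_stA_13
  · exact k7_stA_14
  · exact k7_stA_15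
theorem k7_stD : chkU4 lit3 lit4 (place 5 [0, 1, 2, 3] stD) = true := by
  refine mkU4 k7_stD_x ?_
  intro i hi
  interval_cases i
  · exact k7_stD_0
  · exact k7_stD_1
  · exact k7_stD_2
  · exact k7_stD_3
  · exact k7_stD_4
  · exact k7_stD_5
  · exact k7_stD_6
  · exact k7_stD_7
  · exact k7_stD_8
  · exact k7_stD_9
  · exact k7_stD_10
  · exact k7_stD_11
  · exact k7_stD_12
  · exact k7_stD_13
  · exact k7_stD_14
  · exact k7_stD_15

end Pool.Agent.Helper81.OP
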