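import Pool.Agent.Helper81.OP.CertS
import Pool.Agent.Helper81.OP.CertD
import Pool.Agent.Helper30.OP.VAL
import Pool.Agent.Helper38.OP.DOM
import Pool.Agent.Helper95.OP.SRCH

/-!
# MP_ec87e6_co: main proof, tools
-/

set_option autoImplicit false

open SimpleGraph
open scoped Classical

namespace Pool.Agent.Helper81.OP

/-! ### Validity is monotone -/

theorem hsum_cons (σ : St) (bs : List St) (W : ℕ) : hsum (σ :: bs) W = dig σ.h W + hsum bs W := by
  simp [hsum]

theorem validR_mono_aux (v v' a b p : ℕ) (hv : v' ≤ v)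
    (h : (if v = 0 then 0 else 1) + a + b ≤ 1 ∨ v + 3 * (a + b) ≤ p) :
    (if v' = 0 then 0 else 1) + a + b ≤ 1 ∨ v' + 3 * (a + b) ≤ p := by
  split_ifs at h ⊢ <;> omega

theorem validR_mono {q R : ℕ} {σ : St} {bs : List St} (h : validR q R (σ :: bs) = true) :
    validR q R bs = true := by
  rw [validR, List.all_eq_true] at h ⊢
  intro W hW
  have := h W hW
  simp only [Bool.or_eq_true, decide_eq_true_eq, hsum_cons] at this ⊢
  exact validR_mono_aux _ _ _ _ _ (by omega) this

theorem validU_mono {q : ℕ} {σ : St} {bs : List St} (h : validU q (σ :: bs) = true) :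
    validU q bs = true := by
  rw [validU, List.all_eq_true] at h ⊢
  intro W hW
  have := h W hW
  simp only [hsum_cons] at this ⊢
  split_ifs with h1
  · rw [if_pos h1, decide_eq_true_eq] at this
    rw [decide_eq_true_eq]
    omega
  · rw [if_neg h1, Bool.or_eq_true, decide_eq_true_eq, decide_eq_true_eq] at this
    rw [Bool.or_eq_true, decide_eq_true_eq, decide_eq_true_eq]
    omega

theorem mono_append {valid : List St → Bool}
    (hm : ∀ σ bs, valid (σ :: bs) = true → valid bs = true) (L bs : List St)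
    (h : valid (L ++ bs) = true) : valid bs = true := by
  induction L with
  | nil => simpa using h
  | cons σ L ih => exact ih (hm _ _ (by simpa using h))

theorem ext3_sound {valid P : List St → Bool}
    (hm : ∀ σ bs, valid (σ :: bs) = true → valid bs = true) {pool3 : List St} (n : ℕ) :
    ∀ (L bs : List St), ext3 valid P pool3 n bs = true → L.length ≤ n → (∀ σ ∈ L, σ ∈ pool3) →
    valid (L ++ bs) = true → P (L ++ bs) = true := by
  induction n with
  | zero =>
    intro L bs h hL _ _
    have : L = [] := List.length_eq_zero_iff.1 (by omega)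
    subst this
    simpa [ext3] using h
  | succ n ih =>
    intro L bs h hL hp hv
    rw [ext3, Bool.and_eq_true, List.all_eq_true] at h
    rcases List.eq_nil_or_concat L with rfl | ⟨L', σ, rfl⟩
    · simpa using h.1
    · have hσ := h.2 σ (hp σ (by simp))
      rw [List.concat_eq_append] at *
      have e : L' ++ [σ] ++ bs = L' ++ (σ :: bs) := by simp
      rw [e] at hv ⊢
      have hv' : valid (σ :: bs) = true := mono_append hm _ _ hv
      rw [hv'] at hσ
      refine ih L' (σ :: bs) (by simpa using hσ) (by simp at hL; omega)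
        (fun τ hτ => hp τ (by simp [hτ])) hv

theorem ext4_sound {valid P : List St → Bool}
    (hm : ∀ σ bs, valid (σ :: bs) = true → valid bs = true) {pool3 pool4 : List St} (n : ℕ)
    (L3 L4 bs : List St) (h : ext4 valid P pool3 pool4 n bs = true) (h4 : L4.length ≤ 1)
    (hl : L3.length + L4.length ≤ n) (hp3 : ∀ σ ∈ L3, σ ∈ pool3) (hp4 : ∀ σ ∈ L4, σ ∈ pool4)
    (hv : valid (L3 ++ (L4 ++ bs)) = true) : P (L3 ++ (L4 ++ bs)) = true := by
  cases n with
  | zero =>
    have h3 : L3 = [] := List.length_eq_zero_iff.1 (by omega)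
    have h4 : L4 = [] := List.length_eq_zero_iff.1 (by omega)
    subst h3 h4
    simpa [ext4] using h
  | succ n =>
    rw [ext4, Bool.and_eq_true, List.all_eq_true] at h
    rcases L4 with _ | ⟨σ, L4⟩
    · refine ext3_sound hm (n + 1) L3 _ h.1 (by simpa using hl) hp3 (by simpa using hv)
    · have : L4 = [] := List.length_eq_zero_iff.1 (by rw [List.length_cons] at h4; omega)
      subst this
      have hσ := h.2 σ (hp4 σ (by simp))
      have hv' : valid (σ :: bs) = true := mono_append hm _ _ hv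
      rw [hv'] at hσ
      exact ext3_sound hm n L3 _ (by simpa using hσ) (by simp at hl; omega) hp3 (by simpa using hv)

/-! ### Masks -/

theorem mask_of (p : ℕ → Prop) (q : ℕ) :
    ∃ R < 2 ^ q, ∀ i, R.testBit i = true ↔ i < q ∧ p i := by
  induction q with
  | zero => exact ⟨0, by simp, by simp⟩
  | succ q ih =>
    obtain ⟨R, hR, h⟩ := ih
    by_cases hp : p q
    · refine ⟨R ||| 2 ^ q, ?_, fun i => ?_⟩
      · exact Nat.or_lt_two_pow (by rw [pow_succ]; omega) (Nat.pow_lt_pow_right (by norm_num) (by omega))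
      · rw [Nat.testBit_or, Bool.or_eq_true, h, Nat.testBit_two_pow, decide_eq_true_eq]
        constructor
        · rintro (⟨h1, h2⟩ | rfl)
          · exact ⟨by omega, h2⟩
          · exact ⟨by omega, hp⟩
        · rintro ⟨h1, h2⟩
          by_cases hiq : q = i
          · exact Or.inr hiq
          · exact Or.inl ⟨by omega, h2⟩
    · refine ⟨R, by rw [pow_succ]; omega, fun i => ?_⟩
      rw [h]
      constructor
      · rintro ⟨h1, h2⟩
        exact ⟨by omega, h2⟩
      · rintro ⟨h1, h2⟩
        refine ⟨?_, h2⟩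
        by_contra hc
        have : i = q := by omega
        subst this
        exact hp h2

section
variable {V : Type}

theorem mem_full {f : ℕ → V} {q : ℕ} (hq : q ≤ 6) {v : V} :
    v ∈ fm f (2 ^ q - 1) ↔ ∃ i < q, f i = v := by
  rw [dom_mem_fm]
  constructor
  · rintro ⟨i, h1, h2, h3⟩
    rw [Nat.testBit_two_pow_sub_one, decide_eq_true_eq] at h2
    exact ⟨i, h2, h3⟩
  · rintro ⟨i, h1, h2⟩
    refine ⟨i, by omega, ?_, h2⟩
    rw [Nat.testBit_two_pow_sub_one, decide_eq_true_eq]
    exact h1

/-- an enumeration of a finite set which extends a given one -/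
theorem enum_ext (Q : Finset V) (k : ℕ) (g : ℕ → V) (hinj : ∀ i < k, ∀ j < k, g i = g j → i = j)
    (hg : ∀ i < k, g i ∈ Q) : ∃ f : ℕ → V, (∀ i < k, f i = g i) ∧
      (∀ i < Q.card, ∀ j < Q.card, f i = f j → i = j) ∧
      (∀ v, v ∈ Q ↔ ∃ i < Q.card, f i = v) ∧ k ≤ Q.card := by
  set A := (Finset.range k).image g with hA
  have hAc : A.card = k := by
    rw [hA, Finset.card_image_of_injOn, Finset.card_range]
    intro i hi j hj h
    simp only [Finset.coe_range, Set.mem_Iio] at hi hj
    exact hinj i hi j hj h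
  have hAQ : A ⊆ Q := by
    intro x hx
    obtain ⟨i, hi, rfl⟩ := Finset.mem_image.1 hx
    exact hg i (Finset.mem_range.1 hi)
  set L := (Q \ A).toList with hL
  have hLl : L.length = Q.card - k := by
    rw [hL, Finset.length_toList, Finset.card_sdiff_of_subset hAQ, hAc]
  have hkQ : k ≤ Q.card := by rw [← hAc]; exact Finset.card_le_card hAQ
  have hLn : L.Nodup := Finset.nodup_toList _
  have hLm : ∀ x, x ∈ L ↔ x ∈ Q ∧ x ∉ A := by
    intro x
    rw [hL, Finset.mem_toList, Finset.mem_sdiff]
  refine ⟨fun i => if i < k then g i else L.getD (i - k) (g 0), ?_, ?_, ?_, hkQ⟩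
  · intro i hi
    simp [hi]
  · have key : ∀ i < Q.card, ∀ j < Q.card, i < k → ¬ j < k → g i ≠ L.getD (j - k) (g 0) := by
      intro i hi j hj h1 h2 h
      rw [List.getD_eq_getElem _ _ (by omega)] at h
      have : L[j - k]'(by omega) ∈ L := List.getElem_mem _
      rw [← h] at this
      exact ((hLm _).1 this).2 (Finset.mem_image.2 ⟨i, Finset.mem_range.2 h1, rfl⟩)
    intro i hi j hj h
    by_cases h1 : i < k <;> by_cases h2 : j < k
    · simp only [h1, h2, if_true] at h
      exact hinj i h1 j h2 h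
    · simp only [h1, h2, if_true, if_false] at h
      exact absurd h (key i hi j hj h1 h2)
    · simp only [h1, h2, if_true, if_false] at h
      exact absurd h.symm (key j hj i hi h2 h1)
    · simp only [h1, h2, if_false] at h
      rw [List.getD_eq_getElem _ _ (by omega), List.getD_eq_getElem _ _ (by omega)] at h
      have := (hLn.getElem_inj_iff).1 h
      omega
  · intro v
    constructor
    · intro hv
      by_cases hvA : v ∈ A
      · obtain ⟨i, hi, rfl⟩ := Finset.mem_image.1 hvA
        have hi' := Finset.mem_range.1 hi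
        exact ⟨i, by omega, by simp [hi']⟩
      · have hvL : v ∈ L := (hLm v).2 ⟨hv, hvA⟩
        obtain ⟨j, hj, rfl⟩ := List.getElem_of_mem hvL
        refine ⟨k + j, by omega, ?_⟩
        have h1 : ¬ k + j < k := by omega
        simp only [h1, if_false]
        rw [List.getD_eq_getElem _ _ (by omega)]
        simp
    · rintro ⟨i, hi, rfl⟩
      by_cases h1 : i < k
      · simp only [h1, if_true]
        exact hg i h1
      · simp only [h1, if_false]
        rw [List.getD_eq_getElem _ _ (by omega)]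
        exact ((hLm _).1 (List.getElem_mem _)).1

end

/-! ### The two forbidden subgraphs -/

theorem claimA : Claim 7 eA [] := by
  have := chkAll_sound 7 eA nAl chkA nA_0 (by simp [nAl])
  exact this

theorem claimB : Claim 8 eB [] := by
  have := chkAll_sound 8 eB nBl chkB nB_0 (by simp [nBl])
  exact this

theorem onePlanar_noA {V : Type} {G : SimpleGraph V} (h : OnePlanar G) (φ : ℕ → V)
    (hφ : ∀ i < 7, ∀ j < 7, φ i = φ j → i = j) (ha : ∀ a ∈ eA, G.Adj (φ a.1) (φ a.2)) : False := by
  obtain ⟨ι, e, h1, h2⟩ := h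
  exact claimA V G ι e φ h1 hφ ha (by simp) h2

theorem onePlanar_noB {V : Type} {G : SimpleGraph V} (h : OnePlanar G) (φ : ℕ → V)
    (hφ : ∀ i < 8, ∀ j < 8, φ i = φ j → i = j) (ha : ∀ a ∈ eB, G.Adj (φ a.1) (φ a.2)) : False := by
  obtain ⟨ι, e, h1, h2⟩ := h
  exact claimB V G ι e φ h1 hφ ha (by simp) h2

/-- no `K₇ - K₃` -/
def NoA {V : Type} (G : SimpleGraph V) : Prop := ∀ φ : ℕ → V,
  (∀ i < 7, ∀ j < 7, φ i = φ j → i = j) → (∀ a ∈ eA, G.Adj (φ a.1) (φ a.2)) → False

/-- no `X₈` -/
def NoB {V : Type} (G : SimpleGraph V) : Prop := ∀ φ : ℕ → V,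
  (∀ i < 8, ∀ j < 8, φ i = φ j → i = j) → (∀ a ∈ eB, G.Adj (φ a.1) (φ a.2)) → False

theorem noA_use {V : Type} {G : SimpleGraph V} (hA : NoA G) (K T : Finset V) (hK : K.card = 4)
    (hcl : ∀ s ∈ K, ∀ t ∈ K, s ≠ t → G.Adj s t) (hT : 3 ≤ T.card) (hd : Disjoint K T)
    (hadj : ∀ t ∈ T, ∀ k ∈ K, G.Adj t k) : False := by
  obtain ⟨v0, hv0⟩ : K.Nonempty := Finset.card_pos.1 (by omega)
  obtain ⟨f, -, hfi, hfm, -⟩ := enum_ext K 0 (fun _ => v0) (by simp) (by simp)
  obtain ⟨T', hT', hT'c⟩ := Finset.exists_subset_card_eq hT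
  obtain ⟨a, b, c, hab, hac, hbc, rfl⟩ := Finset.card_eq_three.1 hT'c
  rw [hK] at hfi hfm
  have ha : a ∈ T := hT' (by simp)
  have hb : b ∈ T := hT' (by simp)
  have hc : c ∈ T := hT' (by simp)
  have hf : ∀ i < 4, f i ∈ K := fun i hi => (hfm _).2 ⟨i, hi, rfl⟩
  have hnt : ∀ i < 4, ∀ t ∈ T, f i ≠ t := by
    intro i hi t ht h
    exact Finset.disjoint_left.1 hd (hf i hi) (h ▸ ht)
  let φ : ℕ → V := fun i => if i < 4 then f i else if i = 4 then a else if i = 5 then b else c
  have h4 : φ 4 = a := by simp [φ]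
  have h5 : φ 5 = b := by simp [φ]
  have h6 : φ 6 = c := by simp [φ]
  have hlt : ∀ i < 4, φ i = f i := by
    intro i hi; simp [φ, hi]
  have hT3 : ∀ i, 4 ≤ i → i < 7 → φ i ∈ T := by
    intro i h1 h2
    interval_cases i
    · rw [h4]; exact ha
    · rw [h5]; exact hb
    · rw [h6]; exact hc
  refine hA φ ?_ ?_
  · intro i hi j hj h
    by_cases h1 : i < 4 <;> by_cases h2 : j < 4
    · rw [hlt i h1, hlt j h2] at h
      exact hfi i h1 j h2 h
    · rw [hlt i h1] at h
      exact absurd h (hnt i h1 _ (hT3 j (by omega) hj))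
    · rw [hlt j h2] at h
      exact absurd h.symm (hnt j h2 _ (hT3 i (by omega) hi))
    · have hi' : i = 4 ∨ i = 5 ∨ i = 6 := by omega
      have hj' : j = 4 ∨ j = 5 ∨ j = 6 := by omega
      rcases hi' with rfl | rfl | rfl <;> rcases hj' with rfl | rfl | rfl <;>
        simp_all
  · have hk : ∀ i < 4, ∀ j < 4, i ≠ j → G.Adj (φ i) (φ j) := by
      intro i hi j hj hij
      rw [hlt i hi, hlt j hj]
      exact hcl _ (hf i hi) _ (hf j hj) (fun h => hij (hfi i hi j hj h))
    have ht : ∀ i < 4, ∀ j, 4 ≤ j → j < 7 → G.Adj (φ i) (φ j) := by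
      intro i hi j h1 h2
      rw [hlt i hi]
      exact (hadj _ (hT3 j h1 h2) _ (hf i hi)).symm
    intro x hx
    simp only [eA, List.mem_cons, List.not_mem_nil, or_false] at hx
    rcases hx with rfl | rfl | rfl | rfl | rfl | rfl | rfl | rfl | rfl | rfl | rfl | rfl | rfl |
      rfl | rfl | rfl | rfl | rfl
    all_goals first
      | exact hk _ (by omega) _ (by omega) (by omega)
      | exact ht _ (by omega) _ (by omega) (by omega)

theorem noB_use {V : Type} {G : SimpleGraph V} (hA : NoA G) (hB : NoB G) (Q : Finset V)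
    (hQ : Q.card = 5) (hcl : ∀ s ∈ Q, ∀ t ∈ Q, s ≠ t → G.Adj s t) (w m : ℕ → V)
    (hw : ∀ i < 3, ∀ j < 3, w i = w j → i = j) (hwQ : ∀ i < 3, w i ∉ Q)
    (hm : ∀ i < 3, m i ∈ Q) (hadj : ∀ i < 3, ∀ x ∈ Q, x ≠ m i → G.Adj (w i) x) : False := by
  -- the missing vertices are distinct
  have hmi : ∀ i < 3, ∀ j < 3, m i = m j → i = j := by
    intro i hi j hj hij
    by_contra hne
    refine noA_use hA (Q.erase (m i)) {w i, w j, m i} ?_ ?_ ?_ ?_ ?_
    · rw [Finset.card_erase_of_mem (hm i hi), hQ]
    · intro s hs t ht hst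
      exact hcl s (Finset.mem_of_mem_erase hs) t (Finset.mem_of_mem_erase ht) hst
    · have h1 : w i ≠ w j := fun h => hne (hw i hi j hj h)
      have h2 : w i ≠ m i := fun h => hwQ i hi (h ▸ hm i hi)
      have h3 : w j ≠ m i := fun h => hwQ j hj (h ▸ hm i hi)
      rw [Finset.card_eq_three.2 ⟨w i, w j, m i, h1, h2, h3, rfl⟩]
    · rw [Finset.disjoint_left]
      intro x hx hx'
      simp only [Finset.mem_insert, Finset.mem_singleton] at hx'
      rcases hx' with rfl | rfl | rfl
      · exact hwQ i hi (Finset.mem_of_mem_erase hx)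
      · exact hwQ j hj (Finset.mem_of_mem_erase hx)
      · exact Finset.ne_of_mem_erase hx rfl
    · intro t ht k hk
      have hkQ := Finset.mem_of_mem_erase hk
      have hkm := Finset.ne_of_mem_erase hk
      simp only [Finset.mem_insert, Finset.mem_singleton] at ht
      rcases ht with rfl | rfl | rfl
      · exact hadj i hi k hkQ hkm
      · exact hadj j hj k hkQ (hij ▸ hkm)
      · exact hcl _ (hm i hi) _ hkQ hkm.symm
  -- enumeration of the clique beginning with the missing vertices
  obtain ⟨f, hfm', hfi, hfm, -⟩ := enum_ext Q 3 m hmi hm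
  rw [hQ] at hfi hfm
  have hf : ∀ i < 5, f i ∈ Q := fun i hi => (hfm _).2 ⟨i, hi, rfl⟩
  -- positions: 0, 1 = f 3, f 4; 2 = m 2; 3 = m 1; 4 = m 0; 5, 6, 7 = w 0, w 1, w 2
  let φ : ℕ → V := fun i => if i < 5 then f (4 - i) else w (i - 5)
  have hlt : ∀ i < 5, φ i = f (4 - i) := by
    intro i hi; simp [φ, hi]
  have hge : ∀ i, 5 ≤ i → φ i = w (i - 5) := by
    intro i hi
    have : ¬ i < 5 := by omega
    simp [φ, this]
  refine hB φ ?_ ?_
  · intro i hi j hj h
    by_cases h1 : i < 5 <;> by_cases h2 : j < 5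
    · rw [hlt i h1, hlt j h2] at h
      have := hfi _ (by omega) _ (by omega) h
      omega
    · rw [hlt i h1, hge j (by omega)] at h
      exact absurd (h ▸ hf (4 - i) (by omega)) (hwQ _ (by omega))
    · rw [hlt j h2, hge i (by omega)] at h
      exact absurd (h.symm ▸ hf (4 - j) (by omega)) (hwQ _ (by omega))
    · rw [hge i (by omega), hge j (by omega)] at h
      have := hw _ (by omega) _ (by omega) h
      omega
  · have hk : ∀ i < 5, ∀ j < 5, i ≠ j → G.Adj (φ i) (φ j) := by
      intro i hi j hj hij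
      rw [hlt i hi, hlt j hj]
      refine hcl _ (hf _ (by omega)) _ (hf _ (by omega)) (fun h => hij ?_)
      have := hfi _ (by omega) _ (by omega) h
      omega
    have ht : ∀ i < 5, ∀ j < 3, 4 - i ≠ j → G.Adj (φ i) (φ (5 + j)) := by
      intro i hi j hj hij
      rw [hlt i hi, hge (5 + j) (by omega)]
      have e : 5 + j - 5 = j := by omega
      rw [e]
      refine (hadj j hj _ (hf _ (by omega)) (fun h => hij ?_)).symm
      rw [← hfm' j hj] at h
      exact hfi _ (by omega) _ (by omega) h
    intro x hx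
    simp only [eB, List.mem_cons, List.not_mem_nil, or_false] at hx
    rcases hx with rfl | rfl | rfl | rfl | rfl | rfl | rfl | rfl | rfl | rfl | rfl | rfl | rfl |
      rfl | rfl | rfl | rfl | rfl | rfl | rfl | rfl | rfl
    all_goals first
      | exact hk _ (by omega) _ (by omega) (by omega)
      | exact ht _ (by omega) 0 (by omega) (by omega)
      | exact ht _ (by omega) 1 (by omega) (by omega)
      | exact ht _ (by omega) 2 (by omega) (by omega)

end Pool.Agent.Helper81.OP
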