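import Pool.Agent.Helper81.OP.MainA

/-!
# MP_ec87e6_co: main proof, configurations
-/

set_option autoImplicit false

open SimpleGraph
open scoped Classical

namespace Pool.Agent.Helper81.OP

/-- the modules -/
structure Mods : Prop where
  chor : ST_CHOR
  dec : ST_DEC
  plc : ST_PLC
  val : ST_VAL
  dom : ST_DOM
  srch : ST_SRCH

/-- the properties of the graph which are used -/
structure Env {V : Type} (G : SimpleGraph V) : Prop where
  ch : Chordal G
  tg : Tough G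
  nA : NoA G
  nB : NoB G

/-- outcome for a piece -/
def Out {V : Type} (G : SimpleGraph V) (B S : Finset V) : Prop :=
  (∃ g : ℕ → V, (∀ i < 3, ∀ j < 3, g i = g j → i = j) ∧ fm g 7 = S ∧ Real G g B st3) ∨
  (∃ σ ∈ fours, ∃ g : ℕ → V, (∀ i < 4, ∀ j < 4, g i = g j → i = j) ∧ fm g 15 = S ∧
    Real G g B σ)

theorem fours_S {σ : St} (h : σ ∈ fours) : σ.S = 15 := by
  simp only [fours, List.mem_cons, List.not_mem_nil, or_false] at h
  rcases h with rfl | rfl | rfl | rfl <;> rfl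

theorem forall2_pool {V : Type} {G : SimpleGraph V} {f : ℕ → V} {pool : List St}
    (Cs : List (Finset V)) (h : ∀ C ∈ Cs, ∃ σ ∈ pool, Real G f C σ) :
    ∃ bs, List.Forall₂ (fun σ C => Real G f C σ) bs Cs ∧ ∀ σ ∈ bs, σ ∈ pool := by
  induction Cs with
  | nil => exact ⟨[], List.Forall₂.nil, by simp⟩
  | cons C Cs ih =>
    obtain ⟨bs, h1, h2⟩ := ih (fun D hD => h D (List.mem_cons_of_mem _ hD))
    obtain ⟨σ, h3, h4⟩ := h C (List.mem_cons_self)
    refine ⟨σ :: bs, List.Forall₂.cons h4 h1, ?_⟩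
    intro τ hτ
    rcases List.mem_cons.1 hτ with rfl | hτ
    · exact h3
    · exact h2 τ hτ

/-- the configuration of a clique with its branches -/
structure Cfg {V : Type} (G : SimpleGraph V) (Q : Finset V) (q : ℕ) (Cs : List (Finset V))
    (f : ℕ → V) (bs : List St) (Cs' : List (Finset V)) : Prop where
  perm : Cs'.Perm Cs
  inj : ∀ i < q, ∀ j < q, f i = f j → i = j
  mem : ∀ v, v ∈ Q ↔ ∃ i < q, f i = v
  conf : Conf G f q bs Cs'

theorem config {V : Type} (hM : Mods) {G : SimpleGraph V} (Q : Finset V)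
    (hcl : ∀ s ∈ Q, ∀ t ∈ Q, s ≠ t → G.Adj s t) (q : ℕ) (hq : Q.card = q) (hq4 : 4 ≤ q)
    (hq6 : q ≤ 6) (Cs : List (Finset V)) (hne : Cs ≠ []) (hdj : Cs.Pairwise Disjoint)
    (hoff : ∀ C ∈ Cs, Disjoint C Q) (hout : ∀ C ∈ Cs, ∃ S ⊆ Q, Out G C S)
    (h4 : ∀ C ∈ Cs, ∀ S ⊆ Q, Piece G C S → S.card = 4 → q = 5) :
    ∃ (f : ℕ → V) (L3 L4 : List St) (σ0 : St) (Cs' : List (Finset V)),
      Cfg G Q q Cs f (L3 ++ (L4 ++ [σ0])) Cs' ∧ (∀ σ ∈ L3, σ ∈ pl3 q) ∧ (∀ σ ∈ L4, σ ∈ pl4 5) ∧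
      ((σ0 = place q [0, 1, 2] st3 ∧ L4 = []) ∨
        (q = 5 ∧ (∃ σ ∈ fours, σ0 = place 5 [0, 1, 2, 3] σ) ∧ ∃ A : List (Finset V),
          A.length = L4.length + 1 ∧ A.Sublist Cs ∧
          ∀ C ∈ A, ∃ S ⊆ Q, S.card = 4 ∧ Piece G C S)) := by
  set p3 : Finset V → Prop := fun C => ∃ g : ℕ → V,
    (∀ i < 3, ∀ j < 3, g i = g j → i = j) ∧ fm g 7 ⊆ Q ∧ Real G g C st3 with hp3
  set A3 := Cs.filter (fun C => decide (p3 C)) with hA3
  set A4 := Cs.filter (fun C => !decide (p3 C)) with hA4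
  have hperm : (A3 ++ A4).Perm Cs := List.filter_append_perm _ _
  have h3mem : ∀ C ∈ A3, C ∈ Cs ∧ p3 C := by
    intro C hC
    rw [hA3, List.mem_filter, decide_eq_true_eq] at hC
    exact hC
  have h4mem : ∀ C ∈ A4, C ∈ Cs ∧ ∃ σ ∈ fours, ∃ g : ℕ → V,
      (∀ i < 4, ∀ j < 4, g i = g j → i = j) ∧ fm g 15 ⊆ Q ∧ Real G g C σ := by
    intro C hC
    rw [hA4, List.mem_filter, Bool.not_eq_true', decide_eq_false_iff_not] at hC
    refine ⟨hC.1, ?_⟩
    obtain ⟨S, hS, hO⟩ := hout C hC.1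
    rcases hO with ⟨g, h1, h2, h3⟩ | ⟨σ, hσ, g, h1, h2, h3⟩
    · exact absurd ⟨g, h1, h2 ▸ hS, h3⟩ hC.2
    · exact ⟨σ, hσ, g, h1, h2 ▸ hS, h3⟩
  have hfull : ∀ f : ℕ → V, (∀ v, v ∈ Q ↔ ∃ i < q, f i = v) → fm f (2 ^ q - 1) = Q := by
    intro f hf
    ext v
    rw [mem_full hq6, hf]
  have hdj' : ∀ L : List (Finset V), L.Perm Cs → L.Pairwise Disjoint := by
    intro L hL
    exact (hL.pairwise_iff (fun {_ _} h => Disjoint.symm h)).2 hdj
  by_cases hA4e : A4 = []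
  · have hA3e : A3 ≠ [] := by
      intro h
      rw [h, hA4e] at hperm
      exact hne (List.nil_perm.1 hperm)
    rw [hA4e, List.append_nil] at hperm
    rcases List.eq_nil_or_concat A3 with h | ⟨A, C0, hA⟩
    · exact absurd h hA3e
    rw [List.concat_eq_append] at hA
    obtain ⟨hC0, g, hg1, hg2, hg3⟩ := h3mem C0 (by rw [hA]; simp)
    have hgQ : ∀ i < 3, g i ∈ Q := by
      intro i hi
      apply hg2
      rw [dom_mem_fm]
      exact ⟨i, by omega, by interval_cases i <;> decide, rfl⟩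
    obtain ⟨f, hf1, hf2, hf3, hf4⟩ := enum_ext Q 3 g hg1 hgQ
    rw [hq] at hf2 hf3
    have hF := hfull f hf3
    have h0 : Real G f C0 (place q [0, 1, 2] st3) :=
      (hM.plc.2 V G f g q C0 hq4 hq6 hf2 hg1 (by rw [hF]; exact hg2)
        (by rw [hF]; exact hoff C0 hC0) hg3).2 hf1
    obtain ⟨bs, hb1, hb2⟩ := forall2_pool (G := G) (f := f) (pool := pl3 q) A (by
      intro C hC
      obtain ⟨hC1, g', hg1', hg2', hg3'⟩ := h3mem C (by rw [hA]; simp [hC])
      exact (hM.plc.2 V G f g' q C hq4 hq6 hf2 hg1' (by rw [hF]; exact hg2')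
        (by rw [hF]; exact hoff C hC1) hg3').1)
    refine ⟨f, bs, [], place q [0, 1, 2] st3, A3, ⟨hperm, hf2, hf3, ?_⟩, hb2, by simp,
      Or.inl ⟨rfl, rfl⟩⟩
    refine ⟨hf2, ?_, ?_, hdj' _ hperm, ?_⟩
    · intro i hi j hj hij
      exact hcl _ ((hf3 _).2 ⟨i, hi, rfl⟩) _ ((hf3 _).2 ⟨j, hj, rfl⟩)
        (fun h => hij (hf2 i hi j hj h))
    · rw [hA, List.nil_append]
      exact List.rel_append hb1 (List.Forall₂.cons h0 List.Forall₂.nil)
    · intro C hC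
      rw [hF]
      exact hoff C (hperm.mem_iff.1 hC)
  · rcases List.eq_nil_or_concat A4 with h | ⟨A, C0, hA⟩
    · exact absurd h hA4e
    rw [List.concat_eq_append] at hA
    obtain ⟨hC0, σ, hσ, g, hg1, hg2, hg3⟩ := h4mem C0 (by rw [hA]; simp)
    have hgQ : ∀ i < 4, g i ∈ Q := by
      intro i hi
      apply hg2
      rw [dom_mem_fm]
      exact ⟨i, by omega, by interval_cases i <;> decide, rfl⟩
    have hcard4 : ∀ g : ℕ → V, (∀ i < 4, ∀ j < 4, g i = g j → i = j) → (fm g 15).card = 4 := by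
      intro g hg
      rw [val_card (q := 4) hg (by norm_num)]
      decide
    have hq5 : q = 5 := by
      have := hg3.pc
      rw [fours_S hσ] at this
      exact h4 C0 hC0 _ hg2 this (hcard4 g hg1)
    subst hq5
    obtain ⟨f, hf1, hf2, hf3, hf4⟩ := enum_ext Q 4 g hg1 hgQ
    rw [hq] at hf2 hf3
    have hF : fm f 31 = Q := hfull f hf3
    have h0 : Real G f C0 (place 5 [0, 1, 2, 3] σ) :=
      (hM.plc.1 V G f g C0 σ hσ hf2 hg1 (by rw [hF]; exact hg2)
        (by rw [hF]; exact hoff C0 hC0) hg3).2 hf1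
    obtain ⟨b4, hb41, hb42⟩ := forall2_pool (G := G) (f := f) (pool := pl4 5) A (by
      intro C hC
      obtain ⟨hC1, σ', hσ', g', hg1', hg2', hg3'⟩ := h4mem C (by rw [hA]; simp [hC])
      exact (hM.plc.1 V G f g' C σ' hσ' hf2 hg1' (by rw [hF]; exact hg2')
        (by rw [hF]; exact hoff C hC1) hg3').1)
    obtain ⟨b3, hb31, hb32⟩ := forall2_pool (G := G) (f := f) (pool := pl3 5) A3 (by
      intro C hC
      obtain ⟨hC1, g', hg1', hg2', hg3'⟩ := h3mem C hC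
      exact (hM.plc.2 V G f g' 5 C hq4 hq6 hf2 hg1' (by rw [hfull f hf3]; exact hg2')
        (by rw [hfull f hf3]; exact hoff C hC1) hg3').1)
    refine ⟨f, b3, b4, place 5 [0, 1, 2, 3] σ, A3 ++ A4, ⟨hperm, hf2, hf3, ?_⟩, hb32, hb42,
      Or.inr ⟨rfl, ⟨σ, hσ, rfl⟩, A4, ?_, List.filter_sublist, ?_⟩⟩
    · refine ⟨hf2, ?_, ?_, hdj' _ hperm, ?_⟩
      · intro i hi j hj hij
        exact hcl _ ((hf3 _).2 ⟨i, hi, rfl⟩) _ ((hf3 _).2 ⟨j, hj, rfl⟩)
          (fun h => hij (hf2 i hi j hj h))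
      · rw [hA]
        exact List.rel_append hb31 (List.rel_append hb41
          (List.Forall₂.cons h0 List.Forall₂.nil))
      · intro C hC
        rw [hfull f hf3]
        exact hoff C (hperm.mem_iff.1 hC)
    · rw [hA, List.length_append, List.length_singleton, ← hb41.length_eq]
    · intro C hC
      obtain ⟨hC1, σ', hσ', g', hg1', hg2', hg3'⟩ := h4mem C hC
      have := hg3'.pc
      rw [fours_S hσ'] at this
      exact ⟨_, hg2', hcard4 g' hg1', this⟩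

end Pool.Agent.Helper81.OP
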