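import Pool.Agent.Helper81.OP.MainB
import Pool.Agent.Helper81.OP.KerA
import Pool.Agent.Helper81.OP.KerB
import Pool.Agent.Helper81.OP.KerZ

/-!
# MP_ec87e6_co: main proof, use of the kernel checks
-/

set_option autoImplicit false
set_option maxRecDepth 100000

open SimpleGraph

namespace Pool.Agent.Helper81.OP

theorem dig3_4 : ∀ σ ∈ pl3 4, 3 ≤ dig σ.h (2 ^ 4 - 1) := by decide +kernel
theorem dig3_5 : ∀ σ ∈ pl3 5, 3 ≤ dig σ.h (2 ^ 5 - 1) := by decide +kernel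
theorem dig3_6 : ∀ σ ∈ pl3 6, 3 ≤ dig σ.h (2 ^ 6 - 1) := by decide +kernel
theorem dig4_5 : ∀ σ ∈ pl4 5, 3 ≤ dig σ.h (2 ^ 5 - 1) := by
  rw [lit4_eq]
  decide +kernel
theorem pm3_4 : place 4 [0, 1, 2] st3 ∈ pl3 4 := by decide +kernel
theorem pm3_5 : place 5 [0, 1, 2] st3 ∈ pl3 5 := by decide +kernel
theorem pm3_6 : place 6 [0, 1, 2] st3 ∈ pl3 6 := by decide +kernel
theorem dig0_5 : ∀ σ ∈ fours, 3 ≤ dig (place 5 [0, 1, 2, 3] σ).h (2 ^ 5 - 1) := by decide +kernel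

theorem dig3 {q : ℕ} (h4 : 4 ≤ q) (h6 : q ≤ 6) : ∀ σ ∈ pl3 q, 3 ≤ dig σ.h (2 ^ q - 1) := by
  interval_cases q
  · exact dig3_4
  · exact dig3_5
  · exact dig3_6

theorem pm3 {q : ℕ} (h4 : 4 ≤ q) (h6 : q ≤ 6) : place q [0, 1, 2] st3 ∈ pl3 q := by
  interval_cases q
  · exact pm3_4
  · exact pm3_5
  · exact pm3_6

theorem hsum_ge {bs : List St} {W : ℕ} (h : ∀ σ ∈ bs, 3 ≤ dig σ.h W) :
    3 * bs.length ≤ hsum bs W := by
  induction bs with
  | nil => simp [hsum]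
  | cons σ bs ih =>
    rw [hsum_cons, List.length_cons]
    have := ih (fun τ hτ => h τ (List.mem_cons_of_mem _ hτ))
    have := h σ List.mem_cons_self
    omega

theorem pc_full {q : ℕ} (h6 : q ≤ 6) : pc (2 ^ q - 1) = q := by
  interval_cases q <;> decide

theorem lenR {q R : ℕ} {bs : List St} (h6 : q ≤ 6) (hR : R < 2 ^ q) (hne : 0 < bs.length)
    (h : ∀ σ ∈ bs, 3 ≤ dig σ.h (2 ^ q - 1)) (hv : validR q R bs = true) :
    3 * bs.length + 3 ≤ 2 * q := by
  have h1 := hsum_ge h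
  rw [validR, List.all_eq_true] at hv
  have := hv (2 ^ q - 1) (List.mem_range.2 (by have := Nat.two_pow_pos q; omega))
  have e1 : 2 ^ q - 1 + 1 = 2 ^ q := by have := Nat.two_pow_pos q; omega
  have e2 : R &&& (2 ^ q - 1) = R := by
    rw [Nat.and_two_pow_sub_one_eq_mod, Nat.mod_eq_of_lt hR]
  simp only [e1, e2, if_true, pc_full h6, Bool.or_eq_true, decide_eq_true_eq] at this
  rw [if_neg (by omega)] at this
  omega

theorem lenU {q : ℕ} {bs : List St} (h6 : q ≤ 6)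
    (h : ∀ σ ∈ bs, 3 ≤ dig σ.h (2 ^ q - 1)) (hv : validU q bs = true) :
    3 * bs.length ≤ 2 * q := by
  have h1 := hsum_ge h
  rw [validU, List.all_eq_true] at hv
  have := hv (2 ^ q - 1) (List.mem_range.2 (by have := Nat.two_pow_pos q; omega))
  have e1 : 2 ^ q - 1 + 1 = 2 ^ q := by have := Nat.two_pow_pos q; omega
  simp only [e1, if_true, pc_full h6, decide_eq_true_eq] at this
  omega

theorem masks53 : masks 5 3 = [7, 11, 13, 14, 19, 21, 22, 25, 26, 28] := by decide +kernel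

theorem k4 : ∀ R ∈ masks 5 3, ∀ σ ∈ fours,
    chk34 R lit3 lit4 (place 5 [0, 1, 2, 3] σ) = true := by
  rw [masks53]
  intro R hR σ hσ
  simp only [fours, List.mem_cons, List.not_mem_nil, or_false] at hR hσ
  rcases hσ with rfl | rfl | rfl | rfl
  · rcases hR with rfl | rfl | rfl | rfl | rfl | rfl | rfl | rfl | rfl | rfl
    · exact k4_stC_7
    · exact k4_stC_11
    · exact k4_stC_13
    · exact k4_stC_14
    · exact k4_stC_19
    · exact k4_stC_21
    · exact k4_stC_22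
    · exact k4_stC_25
    · exact k4_stC_26
    · exact k4_stC_28
  · rcases hR with rfl | rfl | rfl | rfl | rfl | rfl | rfl | rfl | rfl | rfl
    · exact k4_stB_7
    · exact k4_stB_11
    · exact k4_stB_13
    · exact k4_stB_14
    · exact k4_stB_19
    · exact k4_stB_21
    · exact k4_stB_22
    · exact k4_stB_25
    · exact k4_stB_26
    · exact k4_stB_28
  · rcases hR with rfl | rfl | rfl | rfl | rfl | rfl | rfl | rfl | rfl | rfl
    · exact k4_stA_7
    · exact k4_stA_11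
    · exact k4_stA_13
    · exact k4_stA_14
    · exact k4_stA_19
    · exact k4_stA_21
    · exact k4_stA_22
    · exact k4_stA_25
    · exact k4_stA_26
    · exact k4_stA_28
  · rcases hR with rfl | rfl | rfl | rfl | rfl | rfl | rfl | rfl | rfl | rfl
    · exact k4_stD_7
    · exact k4_stD_11
    · exact k4_stD_13
    · exact k4_stD_14
    · exact k4_stD_19
    · exact k4_stD_21
    · exact k4_stD_22
    · exact k4_stD_25
    · exact k4_stD_26
    · exact k4_stD_28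

theorem k3 {q : ℕ} (h4 : 4 ≤ q) (h6 : q ≤ 6) : ∀ R ∈ masks q 3,
    chk33 q R (pl3 q) (place q [0, 1, 2] st3) = true := by
  interval_cases q
  · exact List.all_eq_true.1 k3_4
  · exact List.all_eq_true.1 k3_5
  · exact List.all_eq_true.1 k3_6

theorem k1 {q : ℕ} (h4 : 4 ≤ q) (h6 : q ≤ 6) : ∀ R ∈ masks q 3, ok3 q R [] = true := by
  interval_cases q
  · exact List.all_eq_true.1 k1_4
  · exact List.all_eq_true.1 k1_5
  · exact List.all_eq_true.1 k1_6

theorem k6 {q : ℕ} (h4 : 4 ≤ q) (h6 : q ≤ 6) :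
    chkU3 q (pl3 q) (place q [0, 1, 2] st3) = true := by
  interval_cases q
  · exact k6_4
  · exact k6_5
  · exact k6_6

theorem k5 : ∀ R ∈ masks 5 4, ∀ σ ∈ fours, chk4 R lit3 (place 5 [0, 1, 2, 3] σ) = true := by
  intro R hR σ hσ
  simp only [fours, List.mem_cons, List.not_mem_nil, or_false] at hσ
  rcases hσ with rfl | rfl | rfl | rfl
  · exact List.all_eq_true.1 k5_stC R hR
  · exact List.all_eq_true.1 k5_stB R hR
  · exact List.all_eq_true.1 k5_stA R hR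
  · exact List.all_eq_true.1 k5_stD R hR

theorem k7 : ∀ σ ∈ fours, chkU4 lit3 lit4 (place 5 [0, 1, 2, 3] σ) = true := by
  intro σ hσ
  simp only [fours, List.mem_cons, List.not_mem_nil, or_false] at hσ
  rcases hσ with rfl | rfl | rfl | rfl
  · exact k7_stC
  · exact k7_stB
  · exact k7_stA
  · exact k7_stD

theorem all_dig {q : ℕ} (h4 : 4 ≤ q) (h6 : q ≤ 6) {L3 L4 : List St} {σ0 : St}
    (hL3 : ∀ σ ∈ L3, σ ∈ pl3 q) (hL4 : ∀ σ ∈ L4, σ ∈ pl4 5)
    (hσ : (σ0 = place q [0, 1, 2] st3 ∧ L4 = []) ∨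
      (q = 5 ∧ ∃ σ ∈ fours, σ0 = place 5 [0, 1, 2, 3] σ)) :
    ∀ σ ∈ L3 ++ (L4 ++ [σ0]), 3 ≤ dig σ.h (2 ^ q - 1) := by
  intro σ hσm
  rw [List.mem_append, List.mem_append, List.mem_singleton] at hσm
  rcases hσm with h | h | rfl
  · exact dig3 h4 h6 σ (hL3 σ h)
  · rcases hσ with ⟨-, rfl⟩ | ⟨rfl, -⟩
    · exact absurd h (by simp)
    · exact dig4_5 σ (hL4 σ h)
  · rcases hσ with ⟨rfl, -⟩ | ⟨rfl, τ, hτ, rfl⟩
    · exact dig3 h4 h6 _ (pm3 h4 h6)
    · exact dig0_5 τ hτ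

theorem rooted3 {q : ℕ} (h4 : 4 ≤ q) (h6 : q ≤ 6) {R : ℕ} (hR : R ∈ masks q 3)
    {L3 L4 : List St} {σ0 : St}
    (hL3 : ∀ σ ∈ L3, σ ∈ pl3 q) (hL4 : ∀ σ ∈ L4, σ ∈ pl4 5)
    (hσ : (σ0 = place q [0, 1, 2] st3 ∧ L4 = []) ∨
      (q = 5 ∧ ∃ σ ∈ fours, σ0 = place 5 [0, 1, 2, 3] σ))
    (hv : validR q R (L3 ++ (L4 ++ [σ0])) = true) : ok3 q R (L3 ++ (L4 ++ [σ0])) = true := by
  have hRlt : R < 2 ^ q := by
    rw [masks, List.mem_filter, List.mem_range] at hR
    exact hR.1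
  have hlen := lenR h6 hRlt (by simp) (all_dig h4 h6 hL3 hL4 hσ) hv
  simp only [List.length_append, List.length_singleton] at hlen
  have hv0 : validR q R [σ0] = true := by
    have := mono_append (valid := validR q R) (fun _ _ => validR_mono) (L3 ++ L4) [σ0]
      (by simpa using hv)
    exact this
  rcases hσ with ⟨rfl, rfl⟩ | ⟨rfl, τ, hτ, rfl⟩
  · have hk := k3 h4 h6 R hR
    rw [chk33, hv0] at hk
    rw [List.nil_append] at hv ⊢
    refine ext3_sound (fun _ _ => validR_mono) (2 * q / 3 - 2) L3 _ (by simpa using hk) ?_ hL3 hv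
    simp only [List.length_nil] at hlen
    omega
  · have hk := k4 R hR τ hτ
    rw [chk34, hv0] at hk
    refine ext4_sound (fun _ _ => validR_mono) (pool3 := lit3) (pool4 := lit4) 1 L3 L4 _
      (by simpa using hk) (by omega) (by omega) ?_ ?_ hv
    · intro σ h
      rw [← lit3_eq]
      exact hL3 σ h
    · intro σ h
      rw [← lit4_eq]
      exact hL4 σ h

theorem rooted4 {R : ℕ} (hR : R ∈ masks 5 4) {L3 : List St} {σ0 : St}
    (hL3 : ∀ σ ∈ L3, σ ∈ pl3 5)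
    (hσ : σ0 = place 5 [0, 1, 2] st3 ∨ ∃ σ ∈ fours, σ0 = place 5 [0, 1, 2, 3] σ)
    (hv : validR 5 R (L3 ++ [σ0]) = true) : ok4 5 R (L3 ++ [σ0]) = true := by
  have hRlt : R < 2 ^ 5 := by
    rw [masks, List.mem_filter, List.mem_range] at hR
    exact hR.1
  have hσ' : (σ0 = place 5 [0, 1, 2] st3 ∧ ([] : List St) = []) ∨
      (5 = 5 ∧ ∃ σ ∈ fours, σ0 = place 5 [0, 1, 2, 3] σ) := by
    rcases hσ with h | h
    · exact Or.inl ⟨h, rfl⟩
    · exact Or.inr ⟨rfl, h⟩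
  have hd := all_dig (q := 5) (L4 := []) (by norm_num) (by norm_num) hL3 (by simp) hσ'
  rw [List.nil_append] at hd
  have hlen := lenR (by norm_num) hRlt (by simp) hd hv
  simp only [List.length_append, List.length_singleton] at hlen
  have hv0 : validR 5 R [σ0] = true :=
    mono_append (valid := validR 5 R) (fun _ _ => validR_mono) L3 [σ0] hv
  have hL3' : ∀ σ ∈ L3, σ ∈ lit3 := by
    intro σ h
    rw [← lit3_eq]
    exact hL3 σ h
  rcases hσ with rfl | ⟨τ, hτ, rfl⟩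
  · have hk := List.all_eq_true.1 k5_st3 R hR
    rw [chk4, hv0] at hk
    exact ext3_sound (fun _ _ => validR_mono) 1 L3 _ (by simpa using hk) (by omega) hL3' hv
  · have hk := k5 R hR τ hτ
    rw [chk4, hv0] at hk
    exact ext3_sound (fun _ _ => validR_mono) 1 L3 _ (by simpa using hk) (by omega) hL3' hv

theorem unrooted {q : ℕ} (h4 : 4 ≤ q) (h6 : q ≤ 6)
    {L3 L4 : List St} {σ0 : St}
    (hL3 : ∀ σ ∈ L3, σ ∈ pl3 q) (hL4 : ∀ σ ∈ L4, σ ∈ pl4 5)
    (hσ : (σ0 = place q [0, 1, 2] st3 ∧ L4 = []) ∨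
      (q = 5 ∧ ∃ σ ∈ fours, σ0 = place 5 [0, 1, 2, 3] σ)) (hl4 : L4.length ≤ 1)
    (hv : validU q (L3 ++ (L4 ++ [σ0])) = true) : okU q (L3 ++ (L4 ++ [σ0])) = true := by
  have hlen := lenU h6 (all_dig h4 h6 hL3 hL4 hσ) hv
  simp only [List.length_append, List.length_singleton] at hlen
  rcases hσ with ⟨rfl, rfl⟩ | ⟨rfl, τ, hτ, rfl⟩
  · have hk := k6 h4 h6
    rw [chkU3] at hk
    rw [List.nil_append] at hv ⊢
    refine ext3_sound (fun _ _ => validU_mono) (2 * q / 3 - 1) L3 _ hk ?_ hL3 hv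
    simp only [List.length_nil] at hlen
    omega
  · have hk := k7 τ hτ
    rw [chkU4] at hk
    refine ext4_sound (fun _ _ => validU_mono) (pool3 := lit3) (pool4 := lit4) 2 L3 L4 _
      hk (by omega) (by omega) ?_ ?_ hv
    · intro σ h
      rw [← lit3_eq]
      exact hL3 σ h
    · intro σ h
      rw [← lit4_eq]
      exact hL4 σ h

end Pool.Agent.Helper81.OP
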