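import Pool.Agent.Helper81.OP.MainC

/-!
# MP_ec87e6_co: main proof, the induction
-/

set_option autoImplicit false
set_option maxRecDepth 100000

open SimpleGraph
open scoped Classical

namespace Pool.Agent.Helper81.OP

/-- facts on the list of elements of a mask -/
theorem elems_facts {q : ℕ} (h4 : 4 ≤ q) (h6 : q ≤ 6) : ∀ R ∈ masks q 3,
    (elems R).length = 3 ∧ (elems R).Nodup ∧ (∀ x ∈ elems R, x < q) ∧ mmap (elems R) 7 = R := by
  interval_cases q
  · decide +kernel
  · decide +kernel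
  · decide +kernel

theorem injs_facts : ∀ g ∈ injs 5 4, g.length = 4 ∧ g.Nodup ∧ ∀ x ∈ g, x < 5 := by
  decide +kernel

theorem k8 {q : ℕ} (h3 : 3 ≤ q) (h6 : q ≤ 6) : okU q [] = true := by
  interval_cases q
  · decide +kernel
  · decide +kernel
  · decide +kernel
  · decide +kernel

section
variable {V : Type} {G : SimpleGraph V}

theorem max_clique [Fintype V] (K : Finset V) (hK : ∀ s ∈ K, ∀ t ∈ K, s ≠ t → G.Adj s t) :
    ∃ Q : Finset V, K ⊆ Q ∧ (∀ s ∈ Q, ∀ t ∈ Q, s ≠ t → G.Adj s t) ∧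
      ∀ v, v ∉ Q → ∃ x ∈ Q, ¬ G.Adj v x := by
  obtain ⟨Q, hQ, hmax⟩ := Finset.exists_max_image
    ((Finset.univ : Finset (Finset V)).filter fun Q => K ⊆ Q ∧
      ∀ s ∈ Q, ∀ t ∈ Q, s ≠ t → G.Adj s t) Finset.card ⟨K, by simpa using hK⟩
  rw [Finset.mem_filter] at hQ
  refine ⟨Q, hQ.2.1, hQ.2.2, fun v hv => ?_⟩
  by_contra hc
  push Not at hc
  have : insert v Q ∈ (Finset.univ : Finset (Finset V)).filter fun Q => K ⊆ Q ∧
      ∀ s ∈ Q, ∀ t ∈ Q, s ≠ t → G.Adj s t := by
    rw [Finset.mem_filter]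
    refine ⟨Finset.mem_univ _, hQ.2.1.trans (Finset.subset_insert _ _), ?_⟩
    intro s hs t ht hst
    rcases Finset.mem_insert.1 hs with hs' | hs'
    · rcases Finset.mem_insert.1 ht with ht' | ht'
      · exact absurd (hs'.trans ht'.symm) hst
      · rw [hs']; exact hc t ht'
    · rcases Finset.mem_insert.1 ht with ht' | ht'
      · rw [ht']; exact (hc s hs').symm
      · exact hQ.2.2 s hs' t ht' hst
  have := hmax _ this
  rw [Finset.card_insert_of_notMem hv] at this
  omega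

theorem att_ge3 [Fintype V] (hT : Tough G) {B S : Finset V} (hP : Piece G B S) {w : V}
    (hwB : w ∉ B) (hwS : w ∉ S) : 3 ≤ S.card := by
  have hBne : B.Nonempty := by
    obtain ⟨x⟩ := hP.conn.nonempty
    exact ⟨x.1, x.2⟩
  have h0 : Fam G S ∅ := ⟨by simp, by simp, by simp, by simp⟩
  obtain ⟨h1, h1c⟩ := val_add h0 B hBne hP.dj (by simp) hP.nb
  obtain ⟨h2, h2c⟩ := val_add h1 (Finset.univ \ (B ∪ S)) ⟨w, by simp [hwB, hwS]⟩ (by
      rw [Finset.disjoint_left]
      intro x hx hxS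
      simp only [Finset.mem_sdiff, Finset.mem_union] at hx
      exact hx.2 (Or.inr hxS)) (by
      intro A hA
      have : A = B := by simpa using hA
      subst this
      rw [Finset.disjoint_left]
      intro x hx hxS
      simp only [Finset.mem_sdiff, Finset.mem_union] at hx
      exact hx.2 (Or.inl hxS)) (by
      intro x hx y hxy
      simp only [Finset.mem_sdiff, Finset.mem_union, Finset.mem_univ, true_and] at hx ⊢
      by_cases hyS : y ∈ S
      · exact Or.inr hyS
      · left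
        rintro (hy | hy)
        · rcases hP.nb y hy x hxy.symm with h | h
          · exact hx (Or.inl h)
          · exact hx (Or.inr h)
        · exact hyS hy)
  have := hT S _ h2 (by rw [h2c, h1c]; simp)
  rw [h2c, h1c, Finset.card_empty] at this
  omega

theorem miss {Q S : Finset V} (hSQ : S ⊆ Q) (hQ : Q.card = 5) (hS : S.card = 4) :
    ∃ m ∈ Q, ∀ x ∈ Q, x ≠ m → x ∈ S := by
  have h1 : (Q \ S).card = 1 := by
    rw [Finset.card_sdiff_of_subset hSQ, hQ, hS]
  obtain ⟨m, hm⟩ := Finset.card_eq_one.1 h1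
  refine ⟨m, ?_, ?_⟩
  · have : m ∈ Q \ S := by rw [hm]; simp
    exact (Finset.mem_sdiff.1 this).1
  · intro x hx hxm
    by_contra hxS
    have : x ∈ Q \ S := Finset.mem_sdiff.2 ⟨hx, hxS⟩
    rw [hm, Finset.mem_singleton] at this
    exact hxm this

theorem noB3 (hA : NoA G) (hB : NoB G) (Q : Finset V)
    (hQ : Q.card = 5) (hcl : ∀ s ∈ Q, ∀ t ∈ Q, s ≠ t → G.Adj s t) (w1 w2 w3 m1 m2 m3 : V)
    (h12 : w1 ≠ w2) (h13 : w1 ≠ w3) (h23 : w2 ≠ w3) (hw1 : w1 ∉ Q) (hw2 : w2 ∉ Q) (hw3 : w3 ∉ Q)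
    (hm1 : m1 ∈ Q) (hm2 : m2 ∈ Q) (hm3 : m3 ∈ Q) (ha1 : ∀ x ∈ Q, x ≠ m1 → G.Adj w1 x)
    (ha2 : ∀ x ∈ Q, x ≠ m2 → G.Adj w2 x) (ha3 : ∀ x ∈ Q, x ≠ m3 → G.Adj w3 x) : False := by
  refine noB_use hA hB Q hQ hcl (fun i => if i = 0 then w1 else if i = 1 then w2 else w3)
    (fun i => if i = 0 then m1 else if i = 1 then m2 else m3) ?_ ?_ ?_ ?_
  · intro i hi j hj h
    interval_cases i <;> interval_cases j <;> simp_all
  · intro i hi
    interval_cases i <;> simp_all
  · intro i hi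
    interval_cases i <;> simp_all
  · intro i hi x hx hxm
    interval_cases i <;> simp_all

/-- the piece `C` of a clique `Q` -/
theorem branch_facts (hM : Mods) [Fintype V] (hE : Env G) {Q : Finset V}
    (hcl : ∀ s ∈ Q, ∀ t ∈ Q, s ≠ t → G.Adj s t) (hmax : ∀ v, v ∉ Q → ∃ x ∈ Q, ¬ G.Adj v x)
    {C S : Finset V} (hCQ : Disjoint C Q) (hSQ : S ⊆ Q) (hP : Piece G C S) :
    ∃ w ∈ C, (∀ s ∈ S, G.Adj w s) ∧ ∃ x ∈ Q, x ∉ C ∧ x ∉ S ∧ ∀ s ∈ S, G.Adj x s := by
  obtain ⟨w, hw, hws⟩ := hM.chor V G hE.ch C S hP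
  obtain ⟨x, hx, hxw⟩ := hmax w (Finset.disjoint_left.1 hCQ hw)
  have hxS : x ∉ S := fun h => hxw (hws x h)
  refine ⟨w, hw, hws, x, hx, fun h => Finset.disjoint_left.1 hCQ h hx, hxS, ?_⟩
  intro s hs
  exact hcl x hx s (hSQ hs) (fun h => hxS (h ▸ hs))

theorem card_le6 (hE : Env G) {Q : Finset V} (hcl : ∀ s ∈ Q, ∀ t ∈ Q, s ≠ t → G.Adj s t) :
    Q.card ≤ 6 := by
  by_contra hc
  obtain ⟨K, hK, hKc⟩ := Finset.exists_subset_card_eq (show 4 ≤ Q.card by omega)
  refine noA_use hE.nA K (Q \ K) hKc (fun s hs t ht => hcl s (hK hs) t (hK ht)) ?_ ?_ ?_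
  · rw [Finset.card_sdiff_of_subset hK, hKc]
    omega
  · exact Finset.disjoint_sdiff
  · intro t ht k hk
    rw [Finset.mem_sdiff] at ht
    exact hcl t ht.1 k (hK hk) (fun h => ht.2 (h ▸ hk))

/-- a vertex outside a clique with six vertices has at most three neighbours in it -/
theorem no_six (hE : Env G) {Q : Finset V} (hcl : ∀ s ∈ Q, ∀ t ∈ Q, s ≠ t → G.Adj s t)
    (hQ : 6 ≤ Q.card) {S : Finset V} (hSQ : S ⊆ Q) (hS : 4 ≤ S.card) {w : V} (hw : w ∉ Q)
    (ha : ∀ s ∈ S, G.Adj w s) : False := by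
  obtain ⟨K, hK, hKc⟩ := Finset.exists_subset_card_eq hS
  have hKQ : K ⊆ Q := hK.trans hSQ
  refine noA_use hE.nA K (insert w (Q \ K)) hKc (fun s hs t ht => hcl s (hKQ hs) t (hKQ ht)) ?_ ?_ ?_
  · rw [Finset.card_insert_of_notMem (fun h => hw (Finset.mem_sdiff.1 h).1),
      Finset.card_sdiff_of_subset hKQ, hKc]
    omega
  · rw [Finset.disjoint_insert_right]
    exact ⟨fun h => hw (hKQ h), Finset.disjoint_sdiff⟩
  · intro t ht k hk
    rcases Finset.mem_insert.1 ht with rfl | ht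
    · exact ha k (hK hk)
    · rw [Finset.mem_sdiff] at ht
      exact hcl t ht.1 k (hKQ hk) (fun h => ht.2 (h ▸ hk))

theorem four_branch (hM : Mods) [Fintype V] (hE : Env G) {Q : Finset V}
    (hcl : ∀ s ∈ Q, ∀ t ∈ Q, s ≠ t → G.Adj s t) (hmax : ∀ v, v ∉ Q → ∃ x ∈ Q, ¬ G.Adj v x)
    {C S : Finset V} (hCQ : Disjoint C Q) (hSQ : S ⊆ Q) (hP : Piece G C S) (hS : S.card = 4) :
    Q.card = 5 := by
  obtain ⟨w, hw, hws, x, hx, -, hxS, -⟩ := branch_facts hM hE hcl hmax hCQ hSQ hP
  have h1 : S.card < Q.card := Finset.card_lt_card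
    ⟨hSQ, fun h => hxS (h hx)⟩
  by_contra hc
  exact no_six hE hcl (by omega) hSQ (by omega) (Finset.disjoint_left.1 hCQ hw) hws

/-- the root mask -/
theorem root_mask {Q S : Finset V} (hSQ : S ⊆ Q) {q : ℕ} (h6 : q ≤ 6) {f : ℕ → V}
    (hinj : ∀ i < q, ∀ j < q, f i = f j → i = j) (hmem : ∀ v, v ∈ Q ↔ ∃ i < q, f i = v) :
    ∃ R < 2 ^ q, fm f R = S ∧ fm f ((2 ^ q - 1) ^^^ R) = Q \ S ∧ pc R = S.card := by
  obtain ⟨R, hR, hb⟩ := mask_of (fun i => f i ∈ S) q
  have h1 : fm f R = S := by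
    ext v
    rw [dom_mem_fm]
    constructor
    · rintro ⟨i, -, h2, rfl⟩
      exact ((hb i).1 h2).2
    · intro hv
      obtain ⟨i, hi, rfl⟩ := (hmem v).1 (hSQ hv)
      exact ⟨i, by omega, (hb i).2 ⟨hi, hv⟩, rfl⟩
  refine ⟨R, hR, h1, ?_, ?_⟩
  · ext v
    rw [dom_mem_fm, Finset.mem_sdiff, hmem v]
    constructor
    · rintro ⟨i, hi, h2, rfl⟩
      rw [Nat.testBit_xor, Nat.testBit_two_pow_sub_one] at h2
      by_cases hiq : i < q
      · refine ⟨⟨i, hiq, rfl⟩, fun hS => ?_⟩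
        rw [(hb i).2 ⟨hiq, hS⟩] at h2
        simp [hiq] at h2
      · have : R.testBit i = false := by
          by_contra hc
          rw [Bool.not_eq_false] at hc
          exact hiq ((hb i).1 hc).1
        rw [this] at h2
        simp [hiq] at h2
    · rintro ⟨⟨i, hi, rfl⟩, h2⟩
      refine ⟨i, by omega, ?_, rfl⟩
      rw [Nat.testBit_xor, Nat.testBit_two_pow_sub_one]
      have : R.testBit i = false := by
        by_contra hc
        rw [Bool.not_eq_false] at hc
        exact h2 ((hb i).1 hc).2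
      rw [this]
      simp [hi]
  · rw [← h1, val_card hinj hR]

theorem un_perm {L L' : List (Finset V)} (h : L.Perm L') : un L = un L' := by
  ext v
  rw [val_mem_un, val_mem_un]
  constructor
  · rintro ⟨C, h1, h2⟩
    exact ⟨C, h.mem_iff.1 h1, h2⟩
  · rintro ⟨C, h1, h2⟩
    exact ⟨C, h.mem_iff.2 h1, h2⟩

theorem finish3 (hM : Mods) {f : ℕ → V} {q R : ℕ} {bs : List St} {Cs : List (Finset V)}
    (h4 : 4 ≤ q) (h6 : q ≤ 6) (hC : Conf G f q bs Cs) (hR : R ∈ masks q 3)
    (hP : Piece G (fm f ((2 ^ q - 1) ^^^ R) ∪ un Cs) (fm f R)) (hok : ok3 q R bs = true) :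
    Out G (fm f ((2 ^ q - 1) ^^^ R) ∪ un Cs) (fm f R) := by
  obtain ⟨e1, e2, e3, e4⟩ := elems_facts h4 h6 R hR
  have hRlt : R < 2 ^ q := by
    rw [masks, List.mem_filter, List.mem_range] at hR
    exact hR.1
  have hr := hM.dom V G f q R bs Cs (elems R) st3 h6 hC hRlt hP (Or.inl ⟨rfl, e1⟩) e2 e3 e4 hok
  refine Or.inl ⟨_, ?_, ?_, hr⟩
  · intro i hi j hj h
    refine dom_inj e2 (by omega) (by omega) (hC.inj _ (dom_getD e3 (by omega)) _
      (dom_getD e3 (by omega)) h)
  · rw [dom_fm f h6 e3 (by omega) (by rw [e1]; norm_num), e4]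

theorem finish4 (hM : Mods) {f : ℕ → V} {R : ℕ} {bs : List St} {Cs : List (Finset V)}
    (hC : Conf G f 5 bs Cs) (hR : R ∈ masks 5 4)
    (hP : Piece G (fm f ((2 ^ 5 - 1) ^^^ R) ∪ un Cs) (fm f R)) (hok : ok4 5 R bs = true) :
    Out G (fm f ((2 ^ 5 - 1) ^^^ R) ∪ un Cs) (fm f R) := by
  have hRlt : R < 2 ^ 5 := by
    rw [masks, List.mem_filter, List.mem_range] at hR
    exact hR.1
  rw [ok4, List.any_eq_true] at hok
  obtain ⟨σ, hσ, hok⟩ := hok
  rw [List.any_eq_true] at hok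
  obtain ⟨g, hg, hok⟩ := hok
  rw [Bool.and_eq_true, decide_eq_true_eq] at hok
  obtain ⟨e1, e2, e3⟩ := injs_facts g hg
  have hr := hM.dom V G f 5 R bs Cs g σ (by norm_num) hC hRlt hP (Or.inr ⟨hσ, e1⟩) e2 e3
    (by rw [fours_S hσ]; exact hok.1) hok.2
  refine Or.inr ⟨σ, hσ, _, ?_, ?_, hr⟩
  · intro i hi j hj h
    refine dom_inj e2 (by omega) (by omega) (hC.inj _ (dom_getD e3 (by omega)) _
      (dom_getD e3 (by omega)) h)
  · rw [dom_fm f (by norm_num) e3 (by omega) (by rw [e1]; norm_num), hok.1]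

theorem main_ind (hM : Mods) [Fintype V] (hE : Env G) (n : ℕ) : ∀ B S : Finset V, B.card ≤ n →
    Piece G B S → (∃ w, w ∉ B ∧ w ∉ S ∧ ∀ s ∈ S, G.Adj w s) → Out G B S := by
  induction n with
  | zero =>
    intro B S hB hP _
    obtain ⟨x⟩ := hP.conn.nonempty
    have : 0 < B.card := Finset.card_pos.2 ⟨x.1, x.2⟩
    omega
  | succ n ih =>
    intro B S hBn hP hroot
    obtain ⟨w0, hw0B, hw0S, hw0⟩ := hroot
    have hS3 := att_ge3 hE.tg hP hw0B hw0S
    obtain ⟨w, hwB, hw⟩ := hM.chor V G hE.ch B S hP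
    have hwS : w ∉ S := Finset.disjoint_left.1 hP.dj hwB
    obtain ⟨Q, hKQ, hcl, hmax⟩ := max_clique (G := G) (insert w S) (by
      intro s hs t ht hst
      rcases Finset.mem_insert.1 hs with hs' | hs'
      · rcases Finset.mem_insert.1 ht with ht' | ht'
        · exact absurd (hs'.trans ht'.symm) hst
        · rw [hs']; exact hw t ht'
      · rcases Finset.mem_insert.1 ht with ht' | ht'
        · rw [ht']; exact (hw s hs').symm
        · exact hP.cl s hs' t ht' hst)
    have hwQ : w ∈ Q := hKQ (Finset.mem_insert_self _ _)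
    have hSQ : S ⊆ Q := (Finset.subset_insert _ _).trans hKQ
    have hQB : ∀ x ∈ Q, x ∈ B ∨ x ∈ S := by
      intro x hx
      by_cases hxw : x = w
      · subst hxw; exact Or.inl hwB
      · exact hP.nb w hwB x (hcl w hwQ x hx (fun h => hxw h.symm))
    have hw0Q : w0 ∉ Q := by
      intro h
      rcases hQB w0 h with h | h
      · exact hw0B h
      · exact hw0S h
    obtain ⟨q, hq⟩ : ∃ q, Q.card = q := ⟨_, rfl⟩
    have h6 : q ≤ 6 := hq ▸ card_le6 hE hcl
    have hSw : S.card + 1 ≤ q := by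
      rw [← hq, ← Finset.card_insert_of_notMem hwS]
      exact Finset.card_le_card hKQ
    have h4 : 4 ≤ q := by omega
    have hSq : S.card = 3 ∨ (S.card = 4 ∧ q = 5) := by
      by_cases h3 : S.card = 3
      · exact Or.inl h3
      · right
        have : ¬ 6 ≤ Q.card := fun h => no_six hE hcl h hSQ (by omega) hw0Q hw0
        omega
    -- components
    obtain ⟨Cs, hun, hdj, hpc⟩ := hM.dec V G Q (B \ Q) hcl Finset.sdiff_disjoint (by
      intro x hx y hxy
      rw [Finset.mem_sdiff] at hx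
      by_cases hyQ : y ∈ Q
      · exact Or.inr hyQ
      · left
        rw [Finset.mem_sdiff]
        refine ⟨?_, hyQ⟩
        rcases hP.nb x hx.1 y hxy with h | h
        · exact h
        · exact absurd (hSQ h) hyQ)
    have hCU : ∀ C ∈ Cs, C ⊆ B \ Q := by
      intro C hC x hx
      rw [← hun, val_mem_un]
      exact ⟨C, hC, hx⟩
    have hoff : ∀ C ∈ Cs, Disjoint C Q := by
      intro C hC
      rw [Finset.disjoint_left]
      intro x hx
      exact (Finset.mem_sdiff.1 (hCU C hC hx)).2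
    have hUn : (B \ Q).card ≤ n := by
      have : (B \ Q).card < B.card := Finset.card_lt_card
        ⟨Finset.sdiff_subset, fun h => (Finset.mem_sdiff.1 (h hwB)).2 hwQ⟩
      omega
    have hout : ∀ C ∈ Cs, ∃ S ⊆ Q, Out G C S := by
      intro C hC
      obtain ⟨S', hS', hP'⟩ := hpc C hC
      obtain ⟨w', -, -, x, -, hxC, hxS, hx⟩ := branch_facts hM hE hcl hmax (hoff C hC) hS' hP'
      exact ⟨S', hS', ih C S' ((Finset.card_le_card (hCU C hC)).trans hUn) hP' ⟨x, hxC, hxS, hx⟩⟩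
    -- the common end of the proof
    have finish : ∀ (f : ℕ → V) (bs : List St) (Cs' : List (Finset V)),
        Cfg G Q q Cs f bs Cs' →
        (∀ R ∈ masks q 3, validR q R bs = true → ok3 q R bs = true) →
        (S.card = 4 → ∀ R ∈ masks 5 4, validR 5 R bs = true → ok4 5 R bs = true) →
        Out G B S := by
      intro f bs Cs' hcfg hc3 hc4
      obtain ⟨R, hR, r1, r2, r3⟩ := root_mask hSQ h6 hcfg.inj hcfg.mem
      have hunE : un Cs' = B \ Q := by rw [un_perm hcfg.perm, hun]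
      have hBE : fm f ((2 ^ q - 1) ^^^ R) ∪ un Cs' = B := by
        rw [r2, hunE]
        ext x
        rw [Finset.mem_union, Finset.mem_sdiff, Finset.mem_sdiff]
        constructor
        · rintro (⟨h1, h2⟩ | ⟨h1, -⟩)
          · rcases hQB x h1 with h | h
            · exact h
            · exact absurd h h2
          · exact h1
        · intro hx
          by_cases hxQ : x ∈ Q
          · exact Or.inl ⟨hxQ, Finset.disjoint_left.1 hP.dj hx⟩
          · exact Or.inr ⟨hx, hxQ⟩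
      have hP' : Piece G (fm f ((2 ^ q - 1) ^^^ R) ∪ un Cs') (fm f R) := by
        rw [hBE, r1]
        exact hP
      have hval : validR q R bs = true := by
        refine hM.val.1 V G f q R bs Cs' hE.tg h6 hcfg.conf hR hP'.nb ⟨w0, ?_⟩
        rw [Finset.mem_union, mem_full h6, ← hcfg.mem, hunE, Finset.mem_sdiff]
        rintro (h | ⟨h, -⟩)
        · exact hw0Q h
        · exact hw0B h
      suffices hh : Out G (fm f ((2 ^ q - 1) ^^^ R) ∪ un Cs') (fm f R) by
        rw [hBE, r1] at hh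
        exact hh
      rcases hSq with h3 | ⟨h4', hq5⟩
      · have hRm : R ∈ masks q 3 := by
          rw [masks, List.mem_filter, List.mem_range, decide_eq_true_eq]
          exact ⟨hR, by rw [r3, h3]⟩
        exact finish3 hM h4 h6 hcfg.conf hRm hP' (hc3 R hRm hval)
      · subst hq5
        have hRm : R ∈ masks 5 4 := by
          rw [masks, List.mem_filter, List.mem_range, decide_eq_true_eq]
          exact ⟨hR, by rw [r3, h4']⟩
        exact finish4 hM hcfg.conf hRm hP' (hc4 h4' R hRm hval)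
    by_cases hCs : Cs = []
    · obtain ⟨f, -, hf2, hf3, -⟩ := enum_ext Q 0 (fun _ => w) (by simp) (by simp)
      rw [hq] at hf2 hf3
      refine finish f [] [] ⟨by rw [hCs], hf2, hf3, hf2, ?_, List.Forall₂.nil, List.Pairwise.nil,
        by simp⟩ (fun R hR _ => k1 h4 h6 R hR) (fun _ R hR _ => List.all_eq_true.1 k2 R hR)
      intro i hi j hj hij
      exact hcl _ ((hf3 _).2 ⟨i, hi, rfl⟩) _ ((hf3 _).2 ⟨j, hj, rfl⟩)
        (fun h => hij (hf2 i hi j hj h))
    · obtain ⟨f, L3, L4, σ0, Cs', hcfg, hL3, hL4, hσ⟩ := config hM Q hcl q hq h4 h6 Cs hCs hdj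
        hoff hout (fun C hC S' hS' hP' hc => hq ▸ four_branch hM hE hcl hmax (hoff C hC) hS' hP' hc)
      refine finish f _ Cs' hcfg ?_ ?_
      · intro R hR hv
        refine rooted3 h4 h6 hR hL3 hL4 ?_ hv
        rcases hσ with h | ⟨h1, h2, -⟩
        · exact Or.inl h
        · exact Or.inr ⟨h1, h2⟩
      · intro hS4 R hR hv
        have hq5 : q = 5 := by
          rcases hSq with h | h
          · omega
          · exact h.2
        subst hq5
        have hL4e : L4 = [] := by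
          rcases hσ with ⟨-, h⟩ | ⟨-, -, A, hAl, hAs, hA⟩
          · exact h
          · by_contra hne
            have : 0 < L4.length := List.length_pos_iff.2 hne
            obtain ⟨C1, A', rfl⟩ : ∃ C1 A', A = C1 :: A' := by
              cases A with
              | nil => simp at hAl
              | cons a b => exact ⟨a, b, rfl⟩
            obtain ⟨C2, A'', rfl⟩ : ∃ C2 A'', A' = C2 :: A'' := by
              cases A' with
              | nil => rw [List.length_cons, List.length_nil] at hAl; omega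
              | cons a b => exact ⟨a, b, rfl⟩
            have hdA := hdj.sublist hAs
            have hC1 : C1 ∈ Cs := hAs.subset (by simp)
            have hC2 : C2 ∈ Cs := hAs.subset (by simp)
            have h12 : Disjoint C1 C2 := (List.pairwise_cons.1 hdA).1 C2 (by simp)
            obtain ⟨S1, hS1, hS1c, hP1⟩ := hA C1 (by simp)
            obtain ⟨S2, hS2, hS2c, hP2⟩ := hA C2 (by simp)
            obtain ⟨w1, hw1, hw1s⟩ := hM.chor V G hE.ch C1 S1 hP1
            obtain ⟨w2, hw2, hw2s⟩ := hM.chor V G hE.ch C2 S2 hP2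
            obtain ⟨m1, hm1, hm1'⟩ := miss hS1 hq hS1c
            obtain ⟨m2, hm2, hm2'⟩ := miss hS2 hq hS2c
            obtain ⟨m3, hm3, hm3'⟩ := miss hSQ hq hS4
            refine noB3 hE.nA hE.nB Q hq hcl w1 w2 w0 m1 m2 m3 ?_ ?_ ?_
              (Finset.disjoint_left.1 (hoff C1 hC1) hw1)
              (Finset.disjoint_left.1 (hoff C2 hC2) hw2) hw0Q hm1 hm2 hm3
              (fun x hx hxm => hw1s x (hm1' x hx hxm)) (fun x hx hxm => hw2s x (hm2' x hx hxm))
              (fun x hx hxm => hw0 x (hm3' x hx hxm))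
            · intro h
              exact Finset.disjoint_left.1 h12 hw1 (h ▸ hw2)
            · intro h
              exact hw0B (h ▸ (Finset.mem_sdiff.1 (hCU C1 hC1 hw1)).1)
            · intro h
              exact hw0B (h ▸ (Finset.mem_sdiff.1 (hCU C2 hC2 hw2)).1)
        subst hL4e
        rw [List.nil_append] at hv ⊢
        refine rooted4 hR hL3 ?_ hv
        rcases hσ with ⟨h, -⟩ | ⟨-, h, -⟩
        · exact Or.inl h
        · exact Or.inr h

/-- a Hamiltonian path with adjacent ends -/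
theorem main_path (hM : Mods) [Fintype V] (hE : Env G) (hn : 3 ≤ Fintype.card V) :
    ∃ a b, G.Adj a b ∧ HP G a b Finset.univ := by
  obtain ⟨Q, -, hcl, hmax⟩ := max_clique (G := G) ∅ (by simp)
  obtain ⟨q, hq⟩ : ∃ q, Q.card = q := ⟨_, rfl⟩
  have h6 : q ≤ 6 := hq ▸ card_le6 hE hcl
  obtain ⟨v0⟩ : Nonempty V := Fintype.card_pos_iff.1 (by omega)
  obtain ⟨Cs, hun, hdj, hpc⟩ := hM.dec V G Q (Finset.univ \ Q) hcl Finset.sdiff_disjoint (by
    intro x _ y _
    by_cases hyQ : y ∈ Q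
    · exact Or.inr hyQ
    · exact Or.inl (by simp [hyQ]))
  have hCU : ∀ C ∈ Cs, C ⊆ Finset.univ \ Q := by
    intro C hC x hx
    rw [← hun, val_mem_un]
    exact ⟨C, hC, hx⟩
  have hoff : ∀ C ∈ Cs, Disjoint C Q := by
    intro C hC
    rw [Finset.disjoint_left]
    intro x hx
    exact (Finset.mem_sdiff.1 (hCU C hC hx)).2
  have finish : ∀ (f : ℕ → V) (bs : List St) (Cs' : List (Finset V)),
      Cfg G Q q Cs f bs Cs' → (validU q bs = true → 2 ≤ q → okU q bs = true) → 2 ≤ q →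
      ∃ a b, G.Adj a b ∧ HP G a b Finset.univ := by
    intro f bs Cs' hcfg hc h2
    have hunE : un Cs' = Finset.univ \ Q := by rw [un_perm hcfg.perm, hun]
    have hcov : ∀ w, w ∈ fm f (2 ^ q - 1) ∪ un Cs' := by
      intro w
      rw [Finset.mem_union, mem_full h6, ← hcfg.mem, hunE, Finset.mem_sdiff]
      by_cases hw : w ∈ Q
      · exact Or.inl hw
      · exact Or.inr ⟨Finset.mem_univ _, hw⟩
    have hval := hM.val.2 V G f q bs Cs' hE.tg h2 h6 hcfg.conf hcov
    have hok := hc hval h2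
    rw [okU, List.any_eq_true] at hok
    obtain ⟨a, ha, hok⟩ := hok
    rw [List.any_eq_true] at hok
    obtain ⟨b, hb, hok⟩ := hok
    rw [List.mem_range] at ha hb
    rw [Bool.and_eq_true, decide_eq_true_eq] at hok
    refine ⟨f a, f b, hcfg.conf.adj a ha b hb hok.1, ?_⟩
    have hlt : (2 ^ q - 1) ^^^ 2 ^ a < 2 ^ q := by
      refine Nat.xor_lt_two_pow ?_ (Nat.pow_lt_pow_right (by norm_num) ha)
      have := Nat.two_pow_pos q
      omega
    have hbit : ((2 ^ q - 1) ^^^ 2 ^ a).testBit a = false := by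
      rw [Nat.testBit_xor, Nat.testBit_two_pow_sub_one, Nat.testBit_two_pow]
      simp [ha]
    have hp := hM.srch V G f q 7 b a _ bs Cs' h6 hcfg.conf hb ha hlt hbit hok.2
    have hE' : insert (f a) (fm f ((2 ^ q - 1) ^^^ 2 ^ a)) ∪ un Cs' = Finset.univ := by
      ext v
      simp only [Finset.mem_univ, iff_true]
      rcases Finset.mem_union.1 (hcov v) with h | h
      · rw [mem_full h6] at h
        obtain ⟨i, hi, rfl⟩ := h
        apply Finset.mem_union_left
        by_cases hia : i = a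
        · subst hia; exact Finset.mem_insert_self _ _
        · apply Finset.mem_insert_of_mem
          rw [dom_mem_fm]
          refine ⟨i, by omega, ?_, rfl⟩
          rw [Nat.testBit_xor, Nat.testBit_two_pow_sub_one, Nat.testBit_two_pow]
          have : ¬ a = i := fun h => hia h.symm
          simp [hi, this]
      · exact Finset.mem_union_right _ h
    rw [hE'] at hp
    exact hp
  by_cases hCs : Cs = []
  · have hQu : Q = Finset.univ := by
      rw [hCs] at hun
      have : Finset.univ \ Q = ∅ := by rw [← hun]; rfl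
      exact Finset.eq_univ_of_forall (fun x => by
        by_contra hx
        have : x ∈ Finset.univ \ Q := by simp [hx]
        simp_all)
    have h3 : 3 ≤ q := by rw [← hq, hQu, Finset.card_univ]; exact hn
    obtain ⟨f, -, hf2, hf3, -⟩ := enum_ext Q 0 (fun _ => v0) (by simp) (by simp)
    rw [hq] at hf2 hf3
    refine finish f [] [] ⟨by rw [hCs], hf2, hf3, hf2, ?_, List.Forall₂.nil, List.Pairwise.nil,
      by simp⟩ (fun _ _ => k8 h3 h6) (by omega)
    intro i hi j hj hij
    exact hcl _ ((hf3 _).2 ⟨i, hi, rfl⟩) _ ((hf3 _).2 ⟨j, hj, rfl⟩)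
      (fun h => hij (hf2 i hi j hj h))
  · have hatt : ∀ C ∈ Cs, ∀ S ⊆ Q, Piece G C S → 3 ≤ S.card ∧ S.card < Q.card := by
      intro C hC S' hS' hP'
      obtain ⟨w', -, -, x, hxQ, hxC, hxS, hx⟩ := branch_facts hM hE hcl hmax (hoff C hC) hS' hP'
      exact ⟨att_ge3 hE.tg hP' hxC hxS, Finset.card_lt_card ⟨hS', fun h => hxS (h hxQ)⟩⟩
    have h4 : 4 ≤ q := by
      obtain ⟨C, hC⟩ := List.exists_mem_of_ne_nil Cs hCs
      obtain ⟨S', hS', hP'⟩ := hpc C hC
      have := hatt C hC S' hS' hP'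
      omega
    have hout : ∀ C ∈ Cs, ∃ S ⊆ Q, Out G C S := by
      intro C hC
      obtain ⟨S', hS', hP'⟩ := hpc C hC
      obtain ⟨w', -, -, x, -, hxC, hxS, hx⟩ := branch_facts hM hE hcl hmax (hoff C hC) hS' hP'
      exact ⟨S', hS', main_ind hM hE _ C S' le_rfl hP' ⟨x, hxC, hxS, hx⟩⟩
    obtain ⟨f, L3, L4, σ0, Cs', hcfg, hL3, hL4, hσ⟩ := config hM Q hcl q hq h4 h6 Cs hCs hdj
      hoff hout (fun C hC S' hS' hP' hc => hq ▸ four_branch hM hE hcl hmax (hoff C hC) hS' hP' hc)
    refine finish f _ Cs' hcfg ?_ (by omega)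
    intro hv _
    refine unrooted h4 h6 hL3 hL4 ?_ ?_ hv
    · rcases hσ with h | ⟨h1, h2, -⟩
      · exact Or.inl h
      · exact Or.inr ⟨h1, h2⟩
    · rcases hσ with ⟨-, h⟩ | ⟨hq5, -, A, hAl, hAs, hA⟩
      · rw [h]; simp
      · by_contra hne
        subst hq5
        obtain ⟨C1, A1, rfl⟩ : ∃ C1 A', A = C1 :: A' := by
          cases A with
          | nil => simp at hAl
          | cons a b => exact ⟨a, b, rfl⟩
        obtain ⟨C2, A2, rfl⟩ : ∃ C2 A'', A1 = C2 :: A'' := by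
          cases A1 with
          | nil => simp only [List.length_cons, List.length_nil] at hAl; omega
          | cons a b => exact ⟨a, b, rfl⟩
        obtain ⟨C3, A3, rfl⟩ : ∃ C3 A'', A2 = C3 :: A'' := by
          cases A2 with
          | nil => simp only [List.length_cons, List.length_nil] at hAl; omega
          | cons a b => exact ⟨a, b, rfl⟩
        have hdA := hdj.sublist hAs
        have hC1 : C1 ∈ Cs := hAs.subset (by simp)
        have hC2 : C2 ∈ Cs := hAs.subset (by simp)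
        have hC3 : C3 ∈ Cs := hAs.subset (by simp)
        have h12 : Disjoint C1 C2 := (List.pairwise_cons.1 hdA).1 C2 (by simp)
        have h13 : Disjoint C1 C3 := (List.pairwise_cons.1 hdA).1 C3 (by simp)
        have h23 : Disjoint C2 C3 :=
          (List.pairwise_cons.1 (List.pairwise_cons.1 hdA).2).1 C3 (by simp)
        obtain ⟨S1, hS1, hS1c, hP1⟩ := hA C1 (by simp)
        obtain ⟨S2, hS2, hS2c, hP2⟩ := hA C2 (by simp)
        obtain ⟨S3, hS3, hS3c, hP3⟩ := hA C3 (by simp)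
        obtain ⟨w1, hw1, hw1s⟩ := hM.chor V G hE.ch C1 S1 hP1
        obtain ⟨w2, hw2, hw2s⟩ := hM.chor V G hE.ch C2 S2 hP2
        obtain ⟨w3, hw3, hw3s⟩ := hM.chor V G hE.ch C3 S3 hP3
        obtain ⟨m1, hm1, hm1'⟩ := miss hS1 hq hS1c
        obtain ⟨m2, hm2, hm2'⟩ := miss hS2 hq hS2c
        obtain ⟨m3, hm3, hm3'⟩ := miss hS3 hq hS3c
        refine noB3 hE.nA hE.nB Q hq hcl w1 w2 w3 m1 m2 m3 ?_ ?_ ?_
          (Finset.disjoint_left.1 (hoff C1 hC1) hw1)
          (Finset.disjoint_left.1 (hoff C2 hC2) hw2)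
          (Finset.disjoint_left.1 (hoff C3 hC3) hw3) hm1 hm2 hm3
          (fun x hx hxm => hw1s x (hm1' x hx hxm)) (fun x hx hxm => hw2s x (hm2' x hx hxm))
          (fun x hx hxm => hw3s x (hm3' x hx hxm))
        · intro h
          exact Finset.disjoint_left.1 h12 hw1 (h ▸ hw2)
        · intro h
          exact Finset.disjoint_left.1 h13 hw1 (h ▸ hw3)
        · intro h
          exact Finset.disjoint_left.1 h23 hw2 (h ▸ hw3)

theorem edge_path {a b : V} (p : G.Walk a b) (hp : p.IsPath) (h : s(a, b) ∈ p.edges) :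
    p.length = 1 := by
  cases p with
  | nil => simp at h
  | @cons _ c _ hac p' =>
    rw [Walk.cons_isPath_iff] at hp
    rw [Walk.edges_cons, List.mem_cons] at h
    rcases h with h | h
    · have hbc : b = c := by
        rw [Sym2.eq_iff] at h
        rcases h with ⟨-, h⟩ | ⟨h1, h2⟩
        · exact h
        · exact absurd h1 hac.ne
      subst hbc
      have := Walk.nil_iff_length_eq.1 (Walk.isPath_iff_nil.1 hp.1)
      rw [Walk.length_cons, this]
    · exact absurd (Walk.fst_mem_support_of_mem_edges p' h) hp.2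

theorem main_ham (hM : Mods) [Fintype V] (hE : Env G) (hn : 3 ≤ Fintype.card V) :
    ∃ (a : V) (p : G.Walk a a), p.IsHamiltonianCycle := by
  obtain ⟨a, b, hab, p, hp, hsup⟩ := main_path hM hE hn
  have hham : p.IsHamiltonian := hp.isHamiltonian_of_mem (fun w => (hsup w).2 (Finset.mem_univ _))
  have hlen := hham.length_eq
  refine ⟨b, Walk.cons hab.symm p, ⟨?_, ?_⟩⟩
  · rw [Walk.cons_isCycle_iff]
    refine ⟨hp, fun h => ?_⟩
    rw [Sym2.eq_swap] at h
    have := edge_path p hp h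
    omega
  · intro v
    simpa using hham v

end

end Pool.Agent.Helper81.OP
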